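import Pool.Agent.Lib.MP_7ea278_ag.Fp.Two2
import Pool.Agent.Lib.MP_7ea278_ag.Sv.Final

/-!
The class of matroids built by direct sums and two-sums.
-/

namespace MP7ea278

/-- The invariant carried along. -/
def Inv (K : Type) [CommRing K] {n : ℕ} (B : Set (Fin n → ℕ)) : Prop :=
  (∀ b ∈ B, ∀ i, b i ≤ 1) ∧ (∃ d, ∀ b ∈ B, ∑ i, b i = d) ∧ TV K (dg n) (Sg (castZ '' B))

theorem mem_castZ {n : ℕ} {B : Set (Fin n → ℕ)} (b : Fin n → ℕ) : castZ b ∈ castZ '' B ↔ b ∈ B := by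
  constructor
  · rintro ⟨c, hc, hcb⟩
    rwa [castZ_injective hcb] at hc
  · exact fun h => ⟨b, h, rfl⟩

theorem exists_castZ {n : ℕ} {u : Fin n → ℤ} (h : ∀ i, 0 ≤ u i) : ∃ b : Fin n → ℕ, castZ b = u := by
  refine ⟨fun i => (u i).toNat, ?_⟩
  funext i
  exact Int.toNat_of_nonneg (h i)

/-- The facts on a matroid used below. -/
theorem mat_facts {n : ℕ} {P : Finset (Fin n → ℕ)} (hP : IsDPM P) (h01 : ∀ u ∈ P, ∀ i, u i ≤ 1) :
    (∀ b ∈ bases P, ∀ i, b i ≤ 1) ∧ (∃ d, ∀ b ∈ bases P, ∑ i, b i = d) ∧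
      SymExch (castZ '' (bases P : Set (Fin n → ℕ))) := by
  refine ⟨fun b hb i => h01 b ?_ i, (exists_modulus hP).2, symExch_bases hP⟩
  rw [bases, Finset.mem_filter] at hb
  exact hb.1

theorem cast_facts {n : ℕ} {B : Set (Fin n → ℕ)} (h1 : ∀ b ∈ B, ∀ i, b i ≤ 1) {d : ℕ}
    (h2 : ∀ b ∈ B, ∑ i, b i = d) :
    (∀ u ∈ castZ '' B, ∀ i, 0 ≤ u i ∧ u i ≤ 1) ∧ ∀ u ∈ castZ '' B, ∑ i, u i = (d : ℤ) := by
  constructor
  · rintro _ ⟨b, hb, rfl⟩
    exact (castZ_01 b).2 (h1 b hb)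
  · rintro _ ⟨b, hb, rfl⟩
    exact (castZ_sum b d).2 (h2 b hb)

/-- Matroids with Koszul base ring. -/
theorem Inv_koszul (K : Type) [Field K] {n : ℕ} {P : Finset (Fin n → ℕ)} (hP : IsDPM P)
    (h01 : ∀ u ∈ P, ∀ i, u i ≤ 1) (hK : KoszulBaseRing K P) :
    Inv K (bases P : Set (Fin n → ℕ)) := by
  obtain ⟨e1, ⟨d, hd⟩, e3⟩ := mat_facts hP h01
  refine ⟨e1, ⟨d, hd⟩, ?_⟩
  rcases Nat.eq_zero_or_pos d with h | h
  · obtain ⟨f1, f2⟩ := cast_facts (B := (bases P : Set (Fin n → ℕ))) e1 hd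
    exact TV_small_rank e3 f1 (d : ℤ) (Or.inl (by omega)) f2
  · rw [KoszulBaseRing, koszul_iff_TV K (bases P) d h hd] at hK
    exact hK

/-- Matroids of rank or corank at most two. -/
theorem Inv_low {K : Type} [CommRing K] [Nontrivial K] {n : ℕ} {B : Set (Fin n → ℕ)}
    (hB : ∃ P : Finset (Fin n → ℕ), IsDPM P ∧ (∀ u ∈ P, ∀ i, u i ≤ 1) ∧
      (bases P : Set (Fin n → ℕ)) = B) (r : ℕ) (hr : r ≤ 2 ∨ n ≤ r + 2)
    (h : ∀ b ∈ B, ∑ i, b i = r) : Inv K B := by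
  obtain ⟨P, hP, h01, rfl⟩ := hB
  obtain ⟨e1, _, e3⟩ := mat_facts hP h01
  obtain ⟨f1, f2⟩ := cast_facts (B := (bases P : Set (Fin n → ℕ))) e1 h
  exact ⟨e1, ⟨r, h⟩, TV_small_rank e3 f1 (r : ℤ) (by omega) f2⟩

/-- Matroids on at most seven elements. -/
theorem Inv_small {K : Type} [CommRing K] [Nontrivial K] {n : ℕ} (hn : n ≤ 7)
    {B : Set (Fin n → ℕ)}
    (hB : ∃ P : Finset (Fin n → ℕ), IsDPM P ∧ (∀ u ∈ P, ∀ i, u i ≤ 1) ∧
      (bases P : Set (Fin n → ℕ)) = B) (h1 : ¬ FanoN B) (h2 : ¬ FanoDualN B) : Inv K B := by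
  obtain ⟨P, hP, h01, rfl⟩ := hB
  obtain ⟨e1, ⟨d, hd⟩, e3⟩ := mat_facts hP h01
  obtain ⟨f1, f2⟩ := cast_facts (B := (bases P : Set (Fin n → ℕ))) e1 hd
  refine ⟨e1, ⟨d, hd⟩, ?_⟩
  rcases TV_le_seven (K := K) hn e3 f1 (d : ℤ) f2 with h | ⟨σ, hσ⟩ | ⟨σ, hσ⟩
  · exact h
  · exfalso
    refine h1 ⟨σ, ?_⟩
    ext b
    rw [← mem_castZ, hσ, castZ_01]
    have h3 := castZ_sum b 3
    push_cast at h3
    rw [h3]
    simp only [castZ, Set.mem_ofPred_eq]
    norm_cast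
  · exfalso
    refine h2 ⟨σ, ?_⟩
    ext b
    rw [← mem_castZ, hσ, castZ_01]
    have h3 := castZ_sum b 4
    push_cast at h3
    rw [h3]
    simp only [castZ, Set.mem_ofPred_eq]
    norm_cast

theorem isum_castZ {n : ℕ} (b : Fin n → ℕ) {i j : ℕ} (hij : i < j) (hj : j ≤ n) :
    isum (Equiv.refl (Fin n)) (castZ b) i j =
      ((∑ k ∈ Finset.Icc (⟨i, by omega⟩ : Fin n) ⟨j - 1, by omega⟩, b k : ℕ) : ℤ) := by
  rw [isum]
  have : Finset.univ.filter (fun t : Fin n => i ≤ t.val ∧ t.val < j) =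
      Finset.Icc (⟨i, by omega⟩ : Fin n) ⟨j - 1, by omega⟩ := by
    ext t
    simp only [Finset.mem_filter, Finset.mem_univ, true_and, Finset.mem_Icc, Fin.le_def]
    omega
  rw [this]
  push_cast
  rfl

/-- Sets cut out by bounds on intervals. -/
theorem Inv_interval {K : Type} [CommRing K] [Nontrivial K] {n : ℕ} {B : Set (Fin n → ℕ)}
    (h01 : ∀ b ∈ B, ∀ i, b i ≤ 1) (d : ℕ) (hd : ∀ b ∈ B, ∑ i, b i = d)
    (lo hi : Fin n → Fin n → ℕ)
    (h : ∀ b, b ∈ B ↔ ∀ i j, i ≤ j → lo i j ≤ ∑ k ∈ Finset.Icc i j, b k ∧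
      ∑ k ∈ Finset.Icc i j, b k ≤ hi i j) : Inv K B := by
  refine ⟨h01, ⟨d, hd⟩, ?_⟩
  set LO : ℕ → ℕ → ℤ := fun i j => if hh : i < j ∧ j ≤ n then
    (lo ⟨i, by omega⟩ ⟨j - 1, by omega⟩ : ℤ) else 0 with hLO
  set HI : ℕ → ℕ → ℤ := fun i j => if hh : i < j ∧ j ≤ n then
    (hi ⟨i, by omega⟩ ⟨j - 1, by omega⟩ : ℤ) else 0 with hHI
  refine TV_Sg_of_interval n (Equiv.refl (Fin n)) LO HI _ ?_
  have key : ∀ b : Fin n → ℕ, b ∈ B ↔ ∀ i j : ℕ, i ≤ j → j ≤ n →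
      LO i j ≤ isum (Equiv.refl (Fin n)) (castZ b) i j ∧
        isum (Equiv.refl (Fin n)) (castZ b) i j ≤ HI i j := by
    intro b
    rw [h]
    constructor
    · intro hb i j hij hj
      rcases Nat.lt_or_ge i j with h1 | h1
      · rw [isum_castZ b h1 hj]
        have h2 := hb ⟨i, by omega⟩ ⟨j - 1, by omega⟩ (by
          rw [Fin.le_def]
          change i ≤ j - 1
          omega)
        simp only [hLO, hHI, dif_pos (show i < j ∧ j ≤ n from ⟨h1, hj⟩)]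
        exact ⟨by exact_mod_cast h2.1, by exact_mod_cast h2.2⟩
      · have h2 : i = j := by omega
        subst h2
        have h3 : isum (Equiv.refl (Fin n)) (castZ b) i i = 0 := by
          rw [isum]
          refine Finset.sum_eq_zero fun t ht => ?_
          simp only [Finset.mem_filter, Finset.mem_univ, true_and] at ht
          omega
        have h4 : ¬ (i < i ∧ i ≤ n) := fun hh => absurd hh.1 (lt_irrefl _)
        simp only [hLO, hHI, dif_neg h4, h3]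
        exact ⟨le_rfl, le_rfl⟩
    · intro hb i j hij
      have hi' := i.isLt
      have hj' := j.isLt
      have hij' : i.val ≤ j.val := hij
      have h1 : i.val < j.val + 1 := by omega
      have h2 := hb i.val (j.val + 1) (by omega) (by omega)
      rw [isum_castZ b h1 (by omega)] at h2
      simp only [hLO, hHI, dif_pos (show i.val < j.val + 1 ∧ j.val + 1 ≤ n from ⟨h1, by omega⟩),
        Nat.add_sub_cancel] at h2
      exact ⟨by exact_mod_cast h2.1, by exact_mod_cast h2.2⟩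
  ext u
  constructor
  · rintro ⟨b, hb, rfl⟩
    exact (key b).1 hb
  · intro hu
    have hpos : ∀ i, 0 ≤ u i := by
      intro i
      have h1 := (hu i.val (i.val + 1) (by omega) (by omega)).1
      have h2 : isum (Equiv.refl (Fin n)) u i.val (i.val + 1) = u i := by
        rw [isum]
        have : Finset.univ.filter (fun t : Fin n => i.val ≤ t.val ∧ t.val < i.val + 1) = {i} := by
          ext t
          simp only [Finset.mem_filter, Finset.mem_univ, true_and, Finset.mem_singleton, Fin.ext_iff]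
          omega
        rw [this, Finset.sum_singleton]
        rfl
      rw [h2] at h1
      have hi' := i.isLt
      simp only [hLO, dif_pos (show i.val < i.val + 1 ∧ i.val + 1 ≤ n from ⟨by omega, by omega⟩)] at h1
      have h3 : (0 : ℤ) ≤ (lo ⟨i.val, by omega⟩ ⟨i.val + 1 - 1, by omega⟩ : ℤ) :=
        Int.natCast_nonneg _
      omega
    obtain ⟨b, rfl⟩ := exists_castZ hpos
    exact ⟨b, (key b).2 hu, rfl⟩

end MP7ea278
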