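import Pool.Agent.Lib.MP_7ea278_ag.Fp.Cls
import Pool.Agent.Lib.MP_7ea278_ag.Retract

/-!
The operations on the class: minors, duals, relabelling, direct sums, two-sums.
-/

namespace MP7ea278

/-- Faces. -/
theorem TV_face_fun {K : Type} [CommRing K] {n : ℕ} {C : Set (Fin n → ℤ)} (f : Amb n →+ ℤ)
    (hf : ∀ g ∈ C, 0 ≤ f ((1 : ℕ), g)) (hT : TV K (dg n) (Sg C)) :
    TV K (dg n) (Sg {g | g ∈ C ∧ f ((1 : ℕ), g) = 0}) := by
  set D : Set (Fin n → ℤ) := {g | g ∈ C ∧ f ((1 : ℕ), g) = 0} with hD
  have hpos : ∀ x ∈ Sg C, 0 ≤ f x := by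
    intro x hx
    refine Sg_ind (P := fun x => 0 ≤ f x) ?_ ?_ hf hx
    · rw [map_zero]
    · intro a b ha hb
      rw [map_add]
      omega
  have hsub : Sg D ⊆ Sg C := by
    rintro x ⟨hx, hx0⟩
    refine ⟨AddSubmonoid.closure_mono ?_ hx, hx0⟩
    rintro _ ⟨g, hg, rfl⟩
    exact ⟨g, hg.1, rfl⟩
  have hz : ∀ x ∈ Sg D, f x = 0 := by
    intro x hx
    refine Sg_ind (P := fun x => f x = 0) (map_zero f) ?_ (fun g hg => hg.2) hx
    intro a b ha hb
    rw [map_add, ha, hb, add_zero]
  have hback : ∀ x ∈ Sg C, f x = 0 → x ∈ Sg D := by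
    intro x hx hfx
    have h1 : 0 ≤ f x ∧ (f x = 0 → x = 0 ∨ x ∈ Sg D) := by
      refine Sg_ind (P := fun x => 0 ≤ f x ∧ (f x = 0 → x = 0 ∨ x ∈ Sg D)) ?_ ?_ ?_ hx
      · exact ⟨le_of_eq (map_zero f).symm, fun _ => Or.inl rfl⟩
      · rintro a b ⟨ha, ha'⟩ ⟨hb, hb'⟩
        rw [map_add]
        refine ⟨by omega, fun h => ?_⟩
        rcases ha' (by omega) with rfl | h1
        · rw [zero_add]
          exact hb' (by omega)
        · rcases hb' (by omega) with rfl | h2
          · rw [add_zero]
            exact Or.inr h1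
          · exact Or.inr (Sg_add2 _ h1 _ h2)
      · exact fun g hg => ⟨hf g hg, fun h => Or.inr (Sg_gen ⟨hg, h⟩)⟩
    exact (h1.2 hfx).resolve_left hx.2
  refine TV_face (dg n) (Sg C) (Sg D) Sg_add2 Sg_deg hsub ?_ hT
  intro a ha b hb
  constructor
  · intro h
    have h1 := hz _ h
    rw [map_add] at h1
    have h2 := hpos a ha
    have h3 := hpos b hb
    exact ⟨hback a ha (by omega), hback b hb (by omega)⟩
  · rintro ⟨h1, h2⟩
    exact Sg_add2 _ h1 _ h2

/-- Weighted sum of the coordinates. -/
def wsum {n : ℕ} (q : Fin n → ℤ) : Amb n →+ ℤ where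
  toFun x := ∑ i, q i * x.2 i
  map_zero' := by
    change ∑ i, q i * (0 : ℤ) = 0
    simp
  map_add' x y := by
    change ∑ i, q i * (x.2 i + y.2 i) = ∑ i, q i * x.2 i + ∑ i, q i * y.2 i
    rw [← Finset.sum_add_distrib]
    refine Finset.sum_congr rfl fun i _ => ?_
    ring

/-- Weighted sum of the complementary coordinates. -/
def csum {n : ℕ} (q : Fin n → ℤ) : Amb n →+ ℤ where
  toFun x := ∑ i, q i * ((x.1 : ℤ) - x.2 i)
  map_zero' := by
    change ∑ i, q i * (((0 : ℕ) : ℤ) - (0 : ℤ)) = 0
    simp
  map_add' x y := by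
    change ∑ i, q i * (((x.1 + y.1 : ℕ) : ℤ) - (x.2 i + y.2 i)) =
      ∑ i, q i * ((x.1 : ℤ) - x.2 i) + ∑ i, q i * ((y.1 : ℤ) - y.2 i)
    rw [← Finset.sum_add_distrib]
    refine Finset.sum_congr rfl fun i _ => ?_
    push_cast
    ring

variable {K : Type} [CommRing K]

/-- Contraction, the contracted elements being kept as loops. -/
theorem Inv_contract [Nontrivial K] {n : ℕ} {B : Set (Fin n → ℕ)} (hB : Inv K B) (q : Fin n → ℕ) :
    Inv K {b : Fin n → ℕ | b + q ∈ B} := by
  obtain ⟨h1, ⟨d, h2⟩, h3⟩ := hB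
  refine ⟨fun b hb i => ?_, ⟨d - ∑ i, q i, fun b hb => ?_⟩, ?_⟩
  · have := h1 _ hb i
    rw [Pi.add_apply] at this
    omega
  · have := h2 _ hb
    simp only [Pi.add_apply, Finset.sum_add_distrib] at this
    omega
  · by_cases hq : ∀ i, q i ≤ 1
    · have hf : ∀ g ∈ castZ '' B, 0 ≤ csum (castZ q) ((1 : ℕ), g) := by
        rintro _ ⟨b, hb, rfl⟩
        change 0 ≤ ∑ i, castZ q i * (((1 : ℕ) : ℤ) - castZ b i)
        refine Finset.sum_nonneg fun i _ => mul_nonneg (Int.natCast_nonneg _) ?_
        have := ((castZ_01 b).2 (h1 b hb) i).2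
        push_cast
        omega
      have hF := TV_face_fun (csum (castZ q)) hf h3
      have himg : castZ '' {b : Fin n → ℕ | b + q ∈ B} = (fun c => c - castZ q) ''
          {g | g ∈ castZ '' B ∧ csum (castZ q) ((1 : ℕ), g) = 0} := by
        ext u
        constructor
        · rintro ⟨b, hb, rfl⟩
          have hb' : b + q ∈ B := hb
          refine ⟨castZ (b + q), ⟨⟨_, hb', rfl⟩, ?_⟩, ?_⟩
          · change ∑ i, castZ q i * (((1 : ℕ) : ℤ) - castZ (b + q) i) = 0
            refine Finset.sum_eq_zero fun i _ => ?_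
            have h4 := h1 _ hb' i
            have h5 := hq i
            rw [Pi.add_apply] at h4
            simp only [castZ, Pi.add_apply]
            rcases Nat.eq_zero_or_pos (q i) with h6 | h6
            · rw [h6]
              simp
            · have h7 : q i = 1 := by omega
              have h8 : b i = 0 := by omega
              rw [h7, h8]
              simp
          · funext i
            simp only [castZ, Pi.sub_apply, Pi.add_apply]
            push_cast
            ring
        · rintro ⟨_, ⟨⟨a, ha, rfl⟩, hz⟩, rfl⟩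
          have hz' : ∑ i, castZ q i * (((1 : ℕ) : ℤ) - castZ a i) = 0 := hz
          have hnn : ∀ i ∈ Finset.univ, 0 ≤ castZ q i * (((1 : ℕ) : ℤ) - castZ a i) := by
            intro i _
            refine mul_nonneg (Int.natCast_nonneg _) ?_
            have := ((castZ_01 a).2 (h1 a ha) i).2
            push_cast
            omega
          have hle : ∀ i, q i ≤ a i := by
            intro i
            have h4 := (Finset.sum_eq_zero_iff_of_nonneg hnn).1 hz' i (Finset.mem_univ i)
            rcases mul_eq_zero.1 h4 with h5 | h5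
            · simp only [castZ] at h5
              have : q i = 0 := by exact_mod_cast h5
              omega
            · simp only [castZ] at h5
              have h6 := hq i
              have h7 : (a i : ℤ) = 1 := by
                push_cast at h5
                omega
              have h8 : a i = 1 := by exact_mod_cast h7
              omega
          refine ⟨fun i => a i - q i, ?_, ?_⟩
          · change (fun i => a i - q i) + q ∈ B
            have : (fun i => a i - q i) + q = a := by
              funext i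
              have := hle i
              simp only [Pi.add_apply]
              omega
            rw [this]
            exact ha
          · funext i
            have := hle i
            simp only [castZ, Pi.sub_apply]
            push_cast [Nat.cast_sub this]
            ring
      rw [himg]
      exact (TV_translate _ _).2 hF
    · have he : {b : Fin n → ℕ | b + q ∈ B} = ∅ := by
        push Not at hq
        obtain ⟨i, hi⟩ := hq
        rw [Set.eq_empty_iff_forall_notMem]
        intro b hb
        have := h1 _ hb i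
        rw [Pi.add_apply] at this
        omega
      rw [he, Set.image_empty]
      exact TV_small_rank (C := (∅ : Set (Fin n → ℤ)))
        (fun u hu => absurd hu (Set.notMem_empty u)) (fun u hu => absurd hu (Set.notMem_empty u)) 0
        (Or.inl (by omega)) (fun u hu => absurd hu (Set.notMem_empty u))

/-- Deletion, the deleted elements being kept as loops. -/
theorem Inv_delete {n : ℕ} {B : Set (Fin n → ℕ)} (hB : Inv K B) (S : Set (Fin n)) :
    Inv K {b : Fin n → ℕ | b ∈ B ∧ ∀ i ∈ S, b i = 0} := by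
  classical
  obtain ⟨h1, ⟨d, h2⟩, h3⟩ := hB
  refine ⟨fun b hb i => h1 b hb.1 i, ⟨d, fun b hb => h2 b hb.1⟩, ?_⟩
  set w : Fin n → ℤ := fun i => if i ∈ S then 1 else 0 with hw
  have hw0 : ∀ i, 0 ≤ w i := by
    intro i
    simp only [hw]
    split_ifs <;> norm_num
  have hnn : ∀ b : Fin n → ℕ, ∀ i ∈ Finset.univ, 0 ≤ w i * castZ b i := fun b i _ =>
    mul_nonneg (hw0 i) (Int.natCast_nonneg _)
  have hf : ∀ g ∈ castZ '' B, 0 ≤ wsum w ((1 : ℕ), g) := by
    rintro _ ⟨b, hb, rfl⟩
    exact Finset.sum_nonneg (hnn b)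
  have hF := TV_face_fun (wsum w) hf h3
  have himg : castZ '' {b : Fin n → ℕ | b ∈ B ∧ ∀ i ∈ S, b i = 0} =
      {g | g ∈ castZ '' B ∧ wsum w ((1 : ℕ), g) = 0} := by
    have key : ∀ b : Fin n → ℕ, wsum w ((1 : ℕ), castZ b) = 0 ↔ ∀ i ∈ S, b i = 0 := by
      intro b
      change ∑ i, w i * castZ b i = 0 ↔ _
      rw [Finset.sum_eq_zero_iff_of_nonneg (hnn b)]
      constructor
      · intro h i hi
        have h4 := h i (Finset.mem_univ i)
        simp only [hw, if_pos hi, one_mul, castZ] at h4
        exact_mod_cast h4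
      · intro h i _
        by_cases hi : i ∈ S
        · have h4 := h i hi
          simp only [castZ, h4]
          simp
        · simp only [hw, if_neg hi, zero_mul]
    ext u
    constructor
    · rintro ⟨b, ⟨hb, hb'⟩, rfl⟩
      exact ⟨⟨b, hb, rfl⟩, (key b).2 hb'⟩
    · rintro ⟨⟨b, hb, rfl⟩, hb'⟩
      exact ⟨b, ⟨hb, (key b).1 hb'⟩, rfl⟩
  rw [himg]
  exact hF

/-- Duals. -/
theorem Inv_dual {n : ℕ} {B : Set (Fin n → ℕ)} (hB : Inv K B) :
    Inv K {b : Fin n → ℕ | (∀ i, b i ≤ 1) ∧ (fun i => 1 - b i) ∈ B} := by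
  obtain ⟨h1, ⟨d, h2⟩, h3⟩ := hB
  refine ⟨fun b hb => hb.1, ⟨n - d, fun b hb => ?_⟩, ?_⟩
  · have h4 := h2 _ hb.2
    have h5 : ∑ i, ((1 - b i) + b i) = ∑ i : Fin n, 1 := by
      refine Finset.sum_congr rfl fun i _ => ?_
      have := hb.1 i
      omega
    rw [Finset.sum_add_distrib, h4] at h5
    simp only [Finset.sum_const, Finset.card_univ, Fintype.card_fin, smul_eq_mul, mul_one] at h5
    omega
  · have himg : castZ '' {b : Fin n → ℕ | (∀ i, b i ≤ 1) ∧ (fun i => 1 - b i) ∈ B} =
        (fun u => 1 - u) '' (castZ '' B) := by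
      ext u
      constructor
      · rintro ⟨b, ⟨hb, hb'⟩, rfl⟩
        refine ⟨_, ⟨_, hb', rfl⟩, ?_⟩
        funext i
        have := hb i
        simp only [castZ, Pi.sub_apply, Pi.one_apply]
        push_cast [Nat.cast_sub this]
        ring
      · rintro ⟨_, ⟨a, ha, rfl⟩, rfl⟩
        have h4 := h1 a ha
        refine ⟨fun i => 1 - a i, ⟨fun i => Nat.sub_le 1 (a i), ?_⟩, ?_⟩
        · have : (fun i => 1 - (1 - a i)) = a := by
            funext i
            have := h4 i
            omega
          rw [this]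
          exact ha
        · funext i
          have := h4 i
          simp only [castZ, Pi.sub_apply, Pi.one_apply]
          push_cast [Nat.cast_sub this]
          ring
    rw [himg]
    exact (TV_dual _).2 h3

/-- Relabelling. -/
theorem Inv_relabel {n : ℕ} {B : Set (Fin n → ℕ)} (hB : Inv K B) (σ : Equiv.Perm (Fin n)) :
    Inv K {b : Fin n → ℕ | b ∘ σ ∈ B} := by
  obtain ⟨h1, ⟨d, h2⟩, h3⟩ := hB
  refine ⟨fun b hb i => ?_, ⟨d, fun b hb => ?_⟩, ?_⟩
  · have := h1 _ hb (σ.symm i)
    rw [Function.comp_apply, Equiv.apply_symm_apply] at this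
    exact this
  · rw [← h2 _ hb]
    exact (Equiv.sum_comp σ b).symm
  · have h4 := (TV_relabel (K := K) σ.symm (castZ '' B)).2 h3
    have himg : castZ '' {b : Fin n → ℕ | b ∘ σ ∈ B} = {u | u ∘ σ.symm.symm ∈ castZ '' B} := by
      rw [Equiv.symm_symm]
      ext u
      constructor
      · rintro ⟨b, hb, rfl⟩
        exact ⟨b ∘ σ, hb, rfl⟩
      · rintro ⟨a, ha, hau⟩
        refine ⟨a ∘ σ.symm, ?_, ?_⟩
        · change (a ∘ σ.symm) ∘ σ ∈ B
          have : (a ∘ σ.symm) ∘ σ = a := by
            funext i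
            simp
          rw [this]
          exact ha
        · funext i
          have := congrFun hau (σ.symm i)
          rw [Function.comp_apply, Equiv.apply_symm_apply] at this
          exact this
    rw [himg]
    exact h4

end MP7ea278
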