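import Pool.Agent.Lib.MP_7ea278_ag.Fp.Cls2

/-!
Direct sums and two-sums of sets of natural vectors; Koszul base rings from the invariant.
-/

namespace MP7ea278

/-- The direct sum. -/
def dsumN {n m : ℕ} (A : Set (Fin n → ℕ)) (B : Set (Fin m → ℕ)) : Set (Fin (n + m) → ℕ) :=
  {w | (fun i => w (Fin.castAdd m i)) ∈ A ∧ (fun j => w (Fin.natAdd n j)) ∈ B}

/-- The two-sum, with the last elements as base points. -/
def tsumN {n m : ℕ} (A : Set (Fin (n + 1) → ℕ)) (B : Set (Fin (m + 1) → ℕ)) :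
    Set (Fin (n + m) → ℕ) :=
  {w | ((Fin.snoc (α := fun _ => ℕ) (fun i => w (Fin.castAdd m i)) 1 : Fin (n + 1) → ℕ) ∈ A ∧
      (Fin.snoc (α := fun _ => ℕ) (fun j => w (Fin.natAdd n j)) 0 : Fin (m + 1) → ℕ) ∈ B) ∨
    ((Fin.snoc (α := fun _ => ℕ) (fun i => w (Fin.castAdd m i)) 0 : Fin (n + 1) → ℕ) ∈ A ∧
      (Fin.snoc (α := fun _ => ℕ) (fun j => w (Fin.natAdd n j)) 1 : Fin (m + 1) → ℕ) ∈ B)}

theorem castZ_snoc {n : ℕ} (v : Fin n → ℕ) (a : ℕ) :
    castZ (Fin.snoc (α := fun _ => ℕ) v a : Fin (n + 1) → ℕ) =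
      Fin.snoc (α := fun _ => ℤ) (castZ v) (a : ℤ) := by
  funext i
  refine Fin.lastCases ?_ (fun j => ?_) i
  · rw [Fin.snoc_last]
    simp only [castZ, Fin.snoc_last]
  · rw [Fin.snoc_castSucc]
    simp only [castZ, Fin.snoc_castSucc]

theorem castZ_dsum {n m : ℕ} (A : Set (Fin n → ℕ)) (B : Set (Fin m → ℕ)) :
    castZ '' dsumN A B = dsumZ (castZ '' A) (castZ '' B) := by
  ext u
  constructor
  · rintro ⟨w, ⟨hw1, hw2⟩, rfl⟩
    exact ⟨⟨_, hw1, rfl⟩, ⟨_, hw2, rfl⟩⟩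
  · rintro ⟨⟨a, ha, hau⟩, ⟨b, hb, hbu⟩⟩
    have h0 : ∀ k, 0 ≤ u k := by
      intro k
      refine Fin.addCases (fun i => ?_) (fun j => ?_) k
      · have := congrFun hau i
        rw [← this]
        exact Int.natCast_nonneg _
      · have := congrFun hbu j
        rw [← this]
        exact Int.natCast_nonneg _
    obtain ⟨w, rfl⟩ := exists_castZ h0
    refine ⟨w, ⟨?_, ?_⟩, rfl⟩
    · have : a = fun i => w (Fin.castAdd m i) := castZ_injective hau
      rw [← this]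
      exact ha
    · have : b = fun j => w (Fin.natAdd n j) := castZ_injective hbu
      rw [← this]
      exact hb

theorem castZ_tsum {n m : ℕ} (A : Set (Fin (n + 1) → ℕ)) (B : Set (Fin (m + 1) → ℕ)) :
    castZ '' tsumN A B = tsumZ (castZ '' A) (castZ '' B) := by
  have e1 : ∀ (k : ℕ) (D : Set (Fin (k + 1) → ℕ)) (v : Fin k → ℕ) (a : ℕ),
      (Fin.snoc (α := fun _ => ℤ) (castZ v) (a : ℤ) : Fin (k + 1) → ℤ) ∈ castZ '' D ↔
        (Fin.snoc (α := fun _ => ℕ) v a : Fin (k + 1) → ℕ) ∈ D := by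
    intro k D v a
    rw [← castZ_snoc, mem_castZ]
  have key : ∀ w : Fin (n + m) → ℕ, castZ w ∈ tsumZ (castZ '' A) (castZ '' B) ↔
      w ∈ tsumN A B := by
    intro w
    have f1 := e1 n A (fun i => w (Fin.castAdd m i)) 1
    have f2 := e1 m B (fun j => w (Fin.natAdd n j)) 0
    have f3 := e1 n A (fun i => w (Fin.castAdd m i)) 0
    have f4 := e1 m B (fun j => w (Fin.natAdd n j)) 1
    rw [Nat.cast_one] at f1 f4
    rw [Nat.cast_zero] at f2 f3
    constructor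
    · rintro (⟨h1, h2⟩ | ⟨h1, h2⟩)
      · exact Or.inl ⟨f1.1 h1, f2.1 h2⟩
      · exact Or.inr ⟨f3.1 h1, f4.1 h2⟩
    · rintro (⟨h1, h2⟩ | ⟨h1, h2⟩)
      · exact Or.inl ⟨f1.2 h1, f2.2 h2⟩
      · exact Or.inr ⟨f3.2 h1, f4.2 h2⟩
  ext u
  constructor
  · rintro ⟨w, hw, rfl⟩
    exact (key w).2 hw
  · intro hu
    have hk : ∀ (k : ℕ) (D : Set (Fin (k + 1) → ℕ)) (v : Fin k → ℤ) (a : ℤ),
        (Fin.snoc (α := fun _ => ℤ) v a : Fin (k + 1) → ℤ) ∈ castZ '' D → ∀ i, 0 ≤ v i := by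
      rintro k D v a ⟨b, _, hb⟩ i
      have := congrFun hb i.castSucc
      rw [Fin.snoc_castSucc] at this
      rw [← this]
      exact Int.natCast_nonneg _
    have h0 : ∀ k, 0 ≤ u k := by
      intro k
      refine Fin.addCases (fun i => ?_) (fun j => ?_) k
      · rcases hu with ⟨h1, _⟩ | ⟨h1, _⟩
        · exact hk _ _ _ _ h1 i
        · exact hk _ _ _ _ h1 i
      · rcases hu with ⟨_, h1⟩ | ⟨_, h1⟩
        · exact hk _ _ _ _ h1 j
        · exact hk _ _ _ _ h1 j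
    obtain ⟨w, rfl⟩ := exists_castZ h0
    exact ⟨w, (key w).1 hu, rfl⟩

variable {K : Type} [CommRing K] [Nontrivial K]

/-- Direct sums. -/
theorem Inv_dsum {n m : ℕ} {A : Set (Fin n → ℕ)} {B : Set (Fin m → ℕ)} (hA : Inv K A)
    (hB : Inv K B) : Inv K (dsumN A B) := by
  obtain ⟨a1, ⟨d, a2⟩, a3⟩ := hA
  obtain ⟨b1, ⟨e, b2⟩, b3⟩ := hB
  refine ⟨?_, ⟨d + e, ?_⟩, ?_⟩
  · rintro w ⟨hw1, hw2⟩ k
    refine Fin.addCases (fun i => ?_) (fun j => ?_) k
    · exact a1 _ hw1 i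
    · exact b1 _ hw2 j
  · rintro w ⟨hw1, hw2⟩
    rw [Fin.sum_univ_add, a2 _ hw1, b2 _ hw2]
  · rw [castZ_dsum]
    exact TV_dsum a3 b3

/-- Two-sums. -/
theorem Inv_tsum {n m : ℕ} {A : Set (Fin (n + 1) → ℕ)} {B : Set (Fin (m + 1) → ℕ)}
    (hA : Inv K A) (hB : Inv K B) : Inv K (tsumN A B) := by
  obtain ⟨a1, ⟨d, a2⟩, a3⟩ := hA
  obtain ⟨b1, ⟨e, b2⟩, b3⟩ := hB
  refine ⟨?_, ⟨d + e - 1, ?_⟩, ?_⟩
  · have hk : ∀ (k : ℕ) (D : Set (Fin (k + 1) → ℕ)), (∀ b ∈ D, ∀ i, b i ≤ 1) →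
        ∀ (v : Fin k → ℕ) (a : ℕ), (Fin.snoc (α := fun _ => ℕ) v a : Fin (k + 1) → ℕ) ∈ D →
          ∀ i, v i ≤ 1 := by
      intro k D hD v a h i
      have := hD _ h i.castSucc
      rw [Fin.snoc_castSucc] at this
      exact this
    intro w hw k
    refine Fin.addCases (fun i => ?_) (fun j => ?_) k
    · rcases hw with ⟨h1, _⟩ | ⟨h1, _⟩
      · exact hk _ _ a1 _ _ h1 i
      · exact hk _ _ a1 _ _ h1 i
    · rcases hw with ⟨_, h1⟩ | ⟨_, h1⟩
      · exact hk _ _ b1 _ _ h1 j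
      · exact hk _ _ b1 _ _ h1 j
  · have hs : ∀ (k : ℕ) (v : Fin k → ℕ) (a : ℕ),
        ∑ i, (Fin.snoc (α := fun _ => ℕ) v a : Fin (k + 1) → ℕ) i = ∑ i, v i + a := by
      intro k v a
      rw [Fin.sum_univ_castSucc]
      simp only [Fin.snoc_castSucc, Fin.snoc_last]
    intro w hw
    rw [Fin.sum_univ_add]
    rcases hw with ⟨h1, h2⟩ | ⟨h1, h2⟩
    · have g1 := a2 _ h1
      have g2 := b2 _ h2
      rw [hs] at g1 g2
      omega
    · have g1 := a2 _ h1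
      have g2 := b2 _ h2
      rw [hs] at g1 g2
      omega
  · rw [castZ_tsum]
    obtain ⟨f1, f2⟩ := cast_facts a1 a2
    obtain ⟨f3, _⟩ := cast_facts b1 b2
    exact TV_tsum (fun u hu => f1 u hu _) (fun u hu => f3 u hu _) f2 a3 b3

/-- Koszulness from the invariant of the unit cube sections. -/
theorem koszul_of_Inv (K : Type) [Field K] {n : ℕ} {P : Finset (Fin n → ℕ)} (hP : IsDPM P)
    (h0 : P ≠ {0}) (h : ∀ q : Fin n → ℕ, (cubeSec P q).Nonempty → Inv K (cubeSec P q)) :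
    KoszulBaseRing K P := by
  refine koszul_of_cells_nonneg K hP h0 fun q hq => ?_
  set C := (fun b => b - q) '' cell (basesZ P) q with hC
  have himg : castZ '' cubeSec P (fun i => (q i).toNat) = C := by
    ext u
    constructor
    · rintro ⟨b, hb, rfl⟩
      exact (mem_cubeSec hq b).1 hb
    · intro hu
      obtain ⟨b, rfl⟩ := exists_castZ fun i => (cell01 (B := basesZ P) q u hu i).1
      exact ⟨b, (mem_cubeSec hq b).2 hu, rfl⟩
  rcases (cubeSec P fun i => (q i).toNat).eq_empty_or_nonempty with he | hne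
  · rw [he, Set.image_empty] at himg
    rw [← himg]
    exact TV_small_rank (C := (∅ : Set (Fin n → ℤ)))
      (fun u hu => absurd hu (Set.notMem_empty u)) (fun u hu => absurd hu (Set.notMem_empty u)) 0
      (Or.inl (by omega)) (fun u hu => absurd hu (Set.notMem_empty u))
  · rw [← himg]
    exact (h _ hne).2.2

end MP7ea278
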