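import Pool.Agent.Lib.MP_7ea278_ag.Fp.Half

/-!
Cutting a set of natural vectors by a hyperplane.
-/

namespace MP7ea278

/-- The cutting function. -/
def cutHw {n : ℕ} (w : Fin n → ℤ) (c : ℤ) : Amb n →+ ℤ where
  toFun x := ∑ i, w i * x.2 i - c * (x.1 : ℤ)
  map_zero' := by
    change ∑ i, w i * (0 : ℤ) - c * ((0 : ℕ) : ℤ) = 0
    simp
  map_add' x y := by
    change ∑ i, w i * (x.2 i + y.2 i) - c * ((x.1 + y.1 : ℕ) : ℤ) =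
      (∑ i, w i * x.2 i - c * (x.1 : ℤ)) + (∑ i, w i * y.2 i - c * (y.1 : ℤ))
    have h : ∑ i, w i * (x.2 i + y.2 i) = ∑ i, w i * x.2 i + ∑ i, w i * y.2 i := by
      rw [← Finset.sum_add_distrib]
      refine Finset.sum_congr rfl fun i _ => ?_
      ring
    rw [h]
    push_cast
    ring

/-- Cutting. -/
theorem Inv_cut {K : Type} [CommRing K] {n : ℕ} {B : Set (Fin n → ℕ)}
    (h01 : ∀ b ∈ B, ∀ i, b i ≤ 1) (d : ℕ) (hd : ∀ b ∈ B, ∑ i, b i = d) (w : Fin n → ℤ) (c : ℤ)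
    (hE : ∀ a ∈ B, ∀ b ∈ B, c < ∑ i, w i * (a i : ℤ) → ∑ i, w i * (b i : ℤ) < c →
      ∃ a' ∈ B, ∃ b' ∈ B, a + b = a' + b' ∧
        ((c ≤ ∑ i, w i * (a' i : ℤ) ∧ c ≤ ∑ i, w i * (b' i : ℤ)) ∨
          (∑ i, w i * (a' i : ℤ) ≤ c ∧ ∑ i, w i * (b' i : ℤ) ≤ c)))
    (hp : Inv K {b : Fin n → ℕ | b ∈ B ∧ c ≤ ∑ i, w i * (b i : ℤ)})
    (hn : Inv K {b : Fin n → ℕ | b ∈ B ∧ ∑ i, w i * (b i : ℤ) ≤ c}) : Inv K B := by
  have hval : ∀ b : Fin n → ℕ, cutHw w c ((1 : ℕ), castZ b) = ∑ i, w i * (b i : ℤ) - c := by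
    intro b
    change ∑ i, w i * castZ b i - c * ((1 : ℕ) : ℤ) = _
    rw [Nat.cast_one, mul_one]
    rfl
  refine ⟨h01, ⟨d, hd⟩, TV_halves (cutHw w c) ?_ ?_ ?_⟩
  · rintro _ ⟨a, ha, rfl⟩ _ ⟨b, hb, rfl⟩ h1 h2
    rw [hval] at h1 h2
    obtain ⟨a', ha', b', hb', hab, hside⟩ := hE a ha b hb (by omega) (by omega)
    refine ⟨castZ a', ⟨a', ha', rfl⟩, castZ b', ⟨b', hb', rfl⟩, ?_, ?_⟩
    · funext i
      have h3 := congrFun hab i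
      simp only [Pi.add_apply] at h3
      simp only [castZ, Pi.add_apply]
      exact_mod_cast h3
    · rw [hval, hval]
      rcases hside with ⟨q1, q2⟩ | ⟨q1, q2⟩
      · exact Or.inl ⟨by omega, by omega⟩
      · exact Or.inr ⟨by omega, by omega⟩
  · have h1 : castZ '' {b : Fin n → ℕ | b ∈ B ∧ c ≤ ∑ i, w i * (b i : ℤ)} =
        {g | g ∈ castZ '' B ∧ 0 ≤ cutHw w c ((1 : ℕ), g)} := by
      ext u
      constructor
      · rintro ⟨b, ⟨hb, hb'⟩, rfl⟩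
        refine ⟨⟨b, hb, rfl⟩, ?_⟩
        rw [hval]
        omega
      · rintro ⟨⟨b, hb, rfl⟩, hb'⟩
        rw [hval] at hb'
        exact ⟨b, ⟨hb, by omega⟩, rfl⟩
    rw [← h1]
    exact hp.2.2
  · have h1 : castZ '' {b : Fin n → ℕ | b ∈ B ∧ ∑ i, w i * (b i : ℤ) ≤ c} =
        {g | g ∈ castZ '' B ∧ cutHw w c ((1 : ℕ), g) ≤ 0} := by
      ext u
      constructor
      · rintro ⟨b, ⟨hb, hb'⟩, rfl⟩
        refine ⟨⟨b, hb, rfl⟩, ?_⟩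
        rw [hval]
        omega
      · rintro ⟨⟨b, hb, rfl⟩, hb'⟩
        rw [hval] at hb'
        exact ⟨b, ⟨hb, by omega⟩, rfl⟩
    rw [← h1]
    exact hn.2.2

end MP7ea278
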