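import Pool.Agent.Lib.MP_7ea278_ag.Fp.Trunc

/-!
Fibre products of graded semigroups over a free semigroup on two generators.
-/

namespace MP7ea278

open Finsupp

variable {K : Type} [CommRing K] {M M' : Type} [AddCommMonoid M] [AddCommMonoid M']

/-- The fibre product. -/
def TT (S : Set M) (S' : Set M') (p q : M →+ ℕ) (p' q' : M' →+ ℕ) : Set (M × M') :=
  {z | z.1 ∈ S ∧ z.2 ∈ S' ∧ p z.1 = p' z.2 ∧ q z.1 = q' z.2}

/-- Elements of the fibre product below a pair. -/
def ZZ (S : Set M) (S' : Set M') (p q : M →+ ℕ) (p' q' : M' →+ ℕ) (s : M) (t : M') :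
    Set (M × M') :=
  {z | z ∈ TT S S' p q p' q' ∧ (z.1 = s ∨ ltS S z.1 s) ∧ (z.2 = t ∨ ltS S' z.2 t)}

section

variable {S : Set M} {S' : Set M'} {p q : M →+ ℕ} {p' q' : M' →+ ℕ}

theorem TT_add (hS : ∀ a ∈ S, ∀ b ∈ S, a + b ∈ S) (hS' : ∀ a ∈ S', ∀ b ∈ S', a + b ∈ S') :
    ∀ a ∈ TT S S' p q p' q', ∀ b ∈ TT S S' p q p' q', a + b ∈ TT S S' p q p' q' := by
  rintro ⟨a, a'⟩ ⟨h1, h2, h3, h4⟩ ⟨b, b'⟩ ⟨g1, g2, g3, g4⟩
  dsimp only at h1 h2 h3 h4 g1 g2 g3 g4
  refine ⟨hS a h1 b g1, hS' a' h2 b' g2, ?_, ?_⟩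
  · change p (a + b) = p' (a' + b')
    rw [map_add, map_add, h3, g3]
  · change q (a + b) = q' (a' + b')
    rw [map_add, map_add, h4, g4]

theorem TT_fst {z w : M × M'} (h : ltS (TT S S' p q p' q') z w) : ltS S z.1 w.1 := by
  obtain ⟨s, hs, rfl⟩ := h
  exact ⟨s.1, hs.1, rfl⟩

theorem TT_snd {z w : M × M'} (h : ltS (TT S S' p q p' q') z w) : ltS S' z.2 w.2 := by
  obtain ⟨s, hs, rfl⟩ := h
  exact ⟨s.2, hs.2.1, rfl⟩

theorem TT_lt {z w : M × M'} (hz : z ∈ TT S S' p q p' q') (hw : w ∈ TT S S' p q p' q')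
    (h1 : ltS S z.1 w.1) (h2 : ltS S' z.2 w.2) : ltS (TT S S' p q p' q') z w := by
  obtain ⟨s, hs, h1⟩ := h1
  obtain ⟨t, ht, h2⟩ := h2
  refine ⟨(s, t), ⟨hs, ht, ?_, ?_⟩, Prod.ext h1 h2⟩
  · change p s = p' t
    have e1 := hz.2.2.1
    have e2 := hw.2.2.1
    rw [← h1, ← h2, map_add, map_add] at e2
    omega
  · change q s = q' t
    have e1 := hz.2.2.2
    have e2 := hw.2.2.2
    rw [← h1, ← h2, map_add, map_add] at e2
    omega

theorem TT_deg (hpos : ∀ a ∈ S, 1 ≤ p a + q a) {z w : M × M'}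
    (h : ltS (TT S S' p q p' q') z w) : p z.1 + q z.1 < p w.1 + q w.1 :=
  ltS_lt hpos (TT_fst h)

theorem TT_len (hpos : ∀ a ∈ S, 1 ≤ p a + q a) {U : Set (M × M')}
    (hU : U ⊆ TT S S' p q p' q') {m : ℕ} (hm : ∀ y ∈ U, p y.1 + q y.1 ≤ m) :
    ∀ w ∈ Ch (ltS (TT S S' p q p' q')) U, w.length ≤ m :=
  chain_len (p := p.comp (AddMonoidHom.fst M M')) (q := q.comp (AddMonoidHom.fst M M'))
    (fun a ha => hpos a.1 ha.1) hU hm

/-- The case of equal degrees. -/
theorem ZZ_top (hS : ∀ a ∈ S, ∀ b ∈ S, a + b ∈ S) (hS' : ∀ a ∈ S', ∀ b ∈ S', a + b ∈ S')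
    (hpos : ∀ a ∈ S, 1 ≤ p a + q a) (hpos' : ∀ a ∈ S', 1 ≤ p' a + q' a) {s : M} {t : M'}
    (hs : s ∈ S) (ht : t ∈ S') (h1 : p s = p' t) (h2 : q s = q' t) :
    Sph K (ltS (TT S S' p q p' q')) (ZZ S S' p q p' q' s t) (p s + q s) := by
  have hmem : (s, t) ∈ TT S S' p q p' q' := ⟨hs, ht, h1, h2⟩
  refine Sph_of_all (TT_len hpos (fun z hz => hz.1) fun z hz => ?_) fun k => ?_
  · rcases hz.2.1 with h | h
    · rw [h]
    · exact (ltS_lt hpos h).le
  · have hc : (s, t) ∈ ZZ S S' p q p' q' s t := ⟨hmem, Or.inl rfl, Or.inl rfl⟩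
    refine Ex_top (ltS_trans (TT_add hS hS')) (fun a h => lt_irrefl _ (TT_deg hpos h)) hc ?_ k
    rintro z ⟨hz, h3, h4⟩ hne
    have g1 := hz.2.2.1
    have g2 := hz.2.2.2
    have hlt1 : ltS S z.1 s := by
      rcases h3 with h3 | h3
      · exfalso
        rcases h4 with h4 | h4
        · exact hne (Prod.ext h3 h4)
        · have := ltS_lt hpos' h4
          rw [h3] at g1 g2
          omega
      · exact h3
    have hlt2 : ltS S' z.2 t := by
      rcases h4 with h4 | h4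
      · exfalso
        have := ltS_lt hpos hlt1
        rw [h4] at g1 g2
        omega
      · exact h4
    exact TT_lt hz hmem hlt1 hlt2

/-- The inductive step. -/
theorem ZZ_step [IsCancelAdd M'] (hS : ∀ a ∈ S, ∀ b ∈ S, a + b ∈ S)
    (hS' : ∀ a ∈ S', ∀ b ∈ S', a + b ∈ S')
    (hpos : ∀ a ∈ S, 1 ≤ p a + q a) (hpos' : ∀ a ∈ S', 1 ≤ p' a + q' a)
    (hT' : TV K (p' + q') S') {s : M} {t : M'}
    (hs : s ∈ S) (ht : t ∈ S') (h1 : p s ≤ p' t) (h2 : q s ≤ q' t)
    (hne : ¬ (p s = p' t ∧ q s = q' t))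
    (IH : ∀ t' ∈ S', ltS S' t' t → p' t' ≤ p s → q' t' ≤ q s →
      Sph K (ltS (TT S S' p q p' q')) (ZZ S S' p q p' q' s t') (p' t' + q' t')) :
    Sph K (ltS (TT S S' p q p' q')) (ZZ S S' p q p' q' s t) (p s + q s) := by
  have hle : ∀ z ∈ ZZ S S' p q p' q' s t, p z.1 ≤ p s ∧ q z.1 ≤ q s := by
    rintro z ⟨hz, h3, h4⟩
    rcases h3 with h | ⟨u, _, h⟩
    · rw [h]
      exact ⟨le_rfl, le_rfl⟩
    · rw [← h, map_add, map_add]
      omega
  refine quillen (K := K) (rX := ltS (TT S S' p q p' q')) (rY := ltS S') (f := Prod.snd)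
    (Y := YY S' p' q' t (p s) (q s)) (ltS_trans (TT_add hS hS'))
    (fun a h => lt_irrefl _ (TT_deg hpos h)) (ltS_trans hS')
    (fun a h => lt_irrefl _ (ltS_lt hpos' h)) (fun _ _ h => TT_snd h) ?_
    (fun z => p z.1 + q z.1) (fun _ _ h => TT_deg hpos h) (p s + q s) ?_
    (fun z => p' z + q' z) (fun _ _ h => ltS_lt hpos' h) (p s + q s) ?_ ?_ ?_ ?_
  · intro z hz
    have h5 := hle z hz
    obtain ⟨hz, h3, h4⟩ := hz
    have g1 := hz.2.2.1
    have g2 := hz.2.2.2
    refine ⟨hz.2.1, ?_, by omega, by omega⟩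
    rcases h4 with h4 | h4
    · exfalso
      rw [h4] at g1 g2
      omega
    · exact h4
  · intro z hz
    have := hle z hz
    omega
  · rintro z ⟨_, _, h3, h4⟩
    omega
  · exact TT_len hpos (fun z hz => hz.1) (fun z hz => by have := hle z hz; omega)
  · exact trunc (K := K) hS' hpos' hT' _ t ht rfl (p s) (q s) h1 h2 hne
  · rintro t' ⟨ht', hlt, g1, g2⟩
    obtain ⟨m, hm, hx⟩ := ltS_add hlt
    have hpx : p' t = p' t' + p' m := by rw [hx, map_add]
    have hqx : q' t = q' t' + q' m := by rw [hx, map_add]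
    refine ⟨p' t' + q' t', (p s - p' t') + (q s - q' t'), by omega, ?_, ?_⟩
    · have he : {x | x ∈ ZZ S S' p q p' q' s t ∧ (x.2 = t' ∨ ltS S' x.2 t')} =
          ZZ S S' p q p' q' s t' := by
        ext z
        constructor
        · rintro ⟨⟨h3, h4, h5⟩, h6⟩
          exact ⟨h3, h4, h6⟩
        · rintro ⟨h3, h4, h5⟩
          refine ⟨⟨h3, h4, Or.inr ?_⟩, h5⟩
          rcases h5 with h5 | h5
          · rw [h5]
            exact hlt
          · exact ltS_trans hS' _ _ _ h5 hlt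
      rw [he]
      exact IH t' ht' hlt g1 g2
    · have he : {u | u ∈ YY S' p' q' t (p s) (q s) ∧ ltS S' t' u} =
          (fun v => t' + v) '' YY S' p' q' m (p s - p' t') (q s - q' t') := by
        ext u
        constructor
        · rintro ⟨⟨k1, k2, k3, k4⟩, k5⟩
          obtain ⟨v, hv, rfl⟩ := ltS_add k5
          rw [map_add] at k3 k4
          refine ⟨v, ⟨hv, ?_, by omega, by omega⟩, rfl⟩
          rw [hx] at k2
          exact (ltS_cancel t' v m).1 k2
        · rintro ⟨v, ⟨k1, k2, k3, k4⟩, rfl⟩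
          refine ⟨⟨hS' t' ht' v k1, ?_, ?_, ?_⟩, ⟨v, k1, rfl⟩⟩
          · rw [hx]
            exact (ltS_cancel t' v m).2 k2
          · rw [map_add]
            omega
          · rw [map_add]
            omega
      rw [he]
      refine (Sph_map (K := K) (fun v => t' + v) (fun u _ v _ h => add_left_cancel h)
        (fun u _ v _ => ltS_cancel t' u v) _).2 ?_
      exact trunc (K := K) hS' hpos' hT' _ m hm rfl _ _ (by omega) (by omega) (by omega)

theorem ZZ_swap (s : M) (t : M') (N : ℕ) :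
    Sph K (ltS (TT S' S p' q' p q)) (ZZ S' S p' q' p q t s) N ↔
      Sph K (ltS (TT S S' p q p' q')) (ZZ S S' p q p' q' s t) N := by
  have he : ZZ S' S p' q' p q t s = Prod.swap '' ZZ S S' p q p' q' s t := by
    ext z
    constructor
    · rintro ⟨⟨h1, h2, h3, h4⟩, h5, h6⟩
      exact ⟨(z.2, z.1), ⟨⟨h2, h1, h3.symm, h4.symm⟩, h6, h5⟩, rfl⟩
    · rintro ⟨w, ⟨⟨h1, h2, h3, h4⟩, h5, h6⟩, rfl⟩
      exact ⟨⟨h2, h1, h3.symm, h4.symm⟩, h6, h5⟩
  rw [he]
  refine Sph_map (K := K) Prod.swap (fun a _ b _ h => Prod.swap_injective h) ?_ N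
  intro a _ b _
  constructor
  · rintro ⟨c, ⟨h1, h2, h3, h4⟩, h⟩
    refine ⟨(c.2, c.1), ⟨h2, h1, h3.symm, h4.symm⟩, ?_⟩
    have h5 := congrArg Prod.swap h
    exact h5
  · rintro ⟨c, ⟨h1, h2, h3, h4⟩, h⟩
    refine ⟨(c.2, c.1), ⟨h2, h1, h3.symm, h4.symm⟩, ?_⟩
    have h5 := congrArg Prod.swap h
    exact h5

/-- All sets of elements below a comparable pair are spherical. -/
theorem ZZ_sph [IsCancelAdd M] [IsCancelAdd M'] (hS : ∀ a ∈ S, ∀ b ∈ S, a + b ∈ S)
    (hS' : ∀ a ∈ S', ∀ b ∈ S', a + b ∈ S')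
    (hpos : ∀ a ∈ S, 1 ≤ p a + q a) (hpos' : ∀ a ∈ S', 1 ≤ p' a + q' a)
    (hT : TV K (p + q) S) (hT' : TV K (p' + q') S') :
    ∀ n : ℕ, ∀ s ∈ S, ∀ t ∈ S', (p s + q s) + (p' t + q' t) = n →
      (p s ≤ p' t → q s ≤ q' t →
        Sph K (ltS (TT S S' p q p' q')) (ZZ S S' p q p' q' s t) (p s + q s)) ∧
      (p' t ≤ p s → q' t ≤ q s →
        Sph K (ltS (TT S S' p q p' q')) (ZZ S S' p q p' q' s t) (p' t + q' t)) := by
  intro n
  induction n using Nat.strong_induction_on with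
  | _ n ih =>
    intro s hs t ht hn
    constructor
    · intro h1 h2
      by_cases he : p s = p' t ∧ q s = q' t
      · exact ZZ_top (K := K) hS hS' hpos hpos' hs ht he.1 he.2
      · refine ZZ_step (K := K) hS hS' hpos hpos' hT' hs ht h1 h2 he ?_
        intro t' ht' hlt g1 g2
        have := ltS_lt hpos' hlt
        exact (ih _ (by omega) s hs t' ht' rfl).2 g1 g2
    · intro h1 h2
      by_cases he : p s = p' t ∧ q s = q' t
      · have := ZZ_top (K := K) hS hS' hpos hpos' hs ht he.1 he.2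
        rw [he.1, he.2] at this
        exact this
      · rw [← ZZ_swap]
        refine ZZ_step (K := K) hS' hS hpos' hpos hT ht hs h1 h2
          (fun h => he ⟨h.1.symm, h.2.symm⟩) ?_
        intro s' hs' hlt g1 g2
        have := ltS_lt hpos hlt
        rw [ZZ_swap]
        exact (ih _ (by omega) s' hs' t ht rfl).1 g1 g2

/-- The fibre product of two semigroups with linear homology has linear homology. -/
theorem TV_fibre [IsCancelAdd M] [IsCancelAdd M'] [IsCancelAdd (M × M')]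
    (hS : ∀ a ∈ S, ∀ b ∈ S, a + b ∈ S) (hS' : ∀ a ∈ S', ∀ b ∈ S', a + b ∈ S')
    (hpos : ∀ a ∈ S, 1 ≤ p a + q a) (hpos' : ∀ a ∈ S', 1 ≤ p' a + q' a)
    (hT : TV K (p + q) S) (hT' : TV K (p' + q') S') :
    TV K ((p + q).comp (AddMonoidHom.fst M M')) (TT S S' p q p' q') := by
  have hTT := TT_add (p := p) (q := q) (p' := p') (q' := q') hS hS'
  intro j
  rw [TVX_iff]
  intro z hzj k hk
  by_cases hzT : z ∈ TT S S' p q p' q'
  · have hz1 : p z.1 + q z.1 = j := hzj
    have hpz := hpos z.1 hzT.1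
    have hN : j = (p z.1 + q z.1 - 1) + 1 := by omega
    rw [hN] at hk
    refine (chain_iff_word (K := K) hTT hTT hzT (p z.1 + q z.1 - 1)).1 ?_ k hk
    have he : Bel (TT S S' p q p' q') (TT S S' p q p' q') z =
        {t | t ∈ TT S S' p q p' q' ∧ ltS (TT S S' p q p' q') t z} := by
      ext t
      constructor
      · rintro ⟨ht, s, hs, hst⟩
        exact ⟨ht, ⟨s, hs, by rw [add_comm, hst]⟩⟩
      · rintro ⟨ht, ⟨s, hs, hst⟩⟩
        exact ⟨ht, s, hs, by rw [add_comm, hst]⟩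
    rw [he]
    obtain ⟨x, y⟩ := z
    obtain ⟨hx, hy, h1, h2⟩ := hzT
    dsimp only at hx hy h1 h2 hpz ⊢
    refine (quillen (K := K) (rX := ltS (TT S S' p q p' q')) (rY := ltS S) (f := Prod.fst)
      (Y := {s | s ∈ S ∧ ltS S s x}) (N := p x + q x - 1) (ltS_trans hTT)
      (fun a h => lt_irrefl _ (TT_deg hpos h)) (ltS_trans hS)
      (fun a h => lt_irrefl _ (ltS_lt hpos h)) (fun _ _ h => TT_fst h) ?_
      (fun z => p z.1 + q z.1) (fun _ _ h => TT_deg hpos h) (p x + q x) ?_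
      (fun z => p z + q z) (fun _ _ h => ltS_lt hpos h) (p x + q x) ?_ ?_ ?_ ?_).2
    · rintro w ⟨hw, hlt⟩
      exact ⟨hw.1, TT_fst hlt⟩
    · rintro w ⟨hw, hlt⟩
      exact (TT_deg hpos hlt).le
    · rintro w ⟨hw, hlt⟩
      exact (ltS_lt hpos hlt).le
    · refine TT_len hpos (fun z hz => hz.1) (fun z hz => ?_)
      have : p z.1 + q z.1 < p x + q x := TT_deg hpos hz.2
      omega
    · exact intv_sph (K := K) hS hpos hT hx
    · rintro s ⟨hs, hlt⟩
      obtain ⟨m, hm, hxm⟩ := ltS_add hlt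
      have hpx : p x = p s + p m := by rw [hxm, map_add]
      have hqx : q x = q s + q m := by rw [hxm, map_add]
      have hmp := hpos m hm
      refine ⟨p s + q s, p m + q m - 1, by omega, ?_, ?_⟩
      · have he2 : {w | w ∈ {t | t ∈ TT S S' p q p' q' ∧ ltS (TT S S' p q p' q') t (x, y)} ∧
            (w.1 = s ∨ ltS S w.1 s)} = ZZ S S' p q p' q' s y := by
          ext w
          constructor
          · rintro ⟨⟨g1, g2⟩, g3⟩
            exact ⟨g1, g3, Or.inr (TT_snd g2)⟩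
          · rintro ⟨g1, g2, g3⟩
            have g4 : ltS S w.1 x := by
              rcases g2 with g2 | g2
              · rw [g2]
                exact hlt
              · exact ltS_trans hS _ _ _ g2 hlt
            have g5 : ltS S' w.2 y := by
              rcases g3 with g3 | g3
              · exfalso
                have g6 := ltS_lt hpos g4
                have g7 := g1.2.2.1
                have g8 := g1.2.2.2
                rw [g3] at g7 g8
                omega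
              · exact g3
            exact ⟨⟨g1, TT_lt g1 (show (x, y) ∈ TT S S' p q p' q' from ⟨hx, hy, h1, h2⟩) g4 g5⟩,
              g2⟩
        rw [he2]
        exact (ZZ_sph (K := K) hS hS' hpos hpos' hT hT' _ s hs y hy rfl).1 (by omega) (by omega)
      · have he2 : {u | u ∈ {s | s ∈ S ∧ ltS S s x} ∧ ltS S s u} =
            (fun v => s + v) '' {v | v ∈ S ∧ ltS S v m} := by
          ext u
          constructor
          · rintro ⟨⟨k1, k2⟩, k5⟩
            obtain ⟨v, hv, rfl⟩ := ltS_add k5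
            refine ⟨v, ⟨hv, ?_⟩, rfl⟩
            rw [hxm] at k2
            exact (ltS_cancel s v m).1 k2
          · rintro ⟨v, ⟨k1, k2⟩, rfl⟩
            refine ⟨⟨hS s hs v k1, ?_⟩, ⟨v, k1, rfl⟩⟩
            rw [hxm]
            exact (ltS_cancel s v m).2 k2
        rw [he2]
        refine (Sph_map (K := K) (fun v => s + v) (fun u _ v _ h => add_left_cancel h)
          (fun u _ v _ => ltS_cancel s u v) _).2 ?_
        exact intv_sph (K := K) hS hpos hT hm
  · intro V _ _ y hy _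
    have h0 : y = 0 := by
      rw [← Finsupp.support_eq_empty]
      refine Finset.eq_empty_of_forall_notMem fun ω hω => ?_
      obtain ⟨⟨⟨a, v, rfl, ha, hv⟩, hs⟩, -⟩ := hy (Finset.mem_coe.2 hω)
      apply hzT
      rw [← hs, List.sum_cons]
      have : ∀ (v : List (M × M')) (a : M × M'), a ∈ TT S S' p q p' q' →
          (∀ x ∈ v, x ∈ TT S S' p q p' q') → a + v.sum ∈ TT S S' p q p' q' := by
        intro v
        induction v with
        | nil => intro a ha _; simpa using ha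
        | cons b v ih =>
          intro a ha hv
          rw [List.sum_cons, ← add_assoc]
          exact ih (a + b) (hTT a ha b (hv b List.mem_cons_self))
            (fun x hx => hv x (List.mem_cons_of_mem _ hx))
      exact this v a ha hv
    exact ⟨0, Submodule.zero_mem _, by rw [map_zero, h0]⟩

end

end MP7ea278
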