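import Pool.Agent.Lib.MP_7ea278_ag.Fp.Cls3

/-!
Cutting by a hyperplane.
-/

namespace MP7ea278

/-- The part of the semigroup on one side of a hyperplane is generated by the generators on this
side, if every sum of two generators strictly separated by the hyperplane is a sum of two
generators on one side. -/
theorem Sg_half {n : ℕ} {C : Set (Fin n → ℤ)} (h : Amb n →+ ℤ)
    (hE : ∀ a ∈ C, ∀ b ∈ C, 0 < h ((1 : ℕ), a) → h ((1 : ℕ), b) < 0 → ∃ a' ∈ C, ∃ b' ∈ C,
      a + b = a' + b' ∧ ((0 ≤ h ((1 : ℕ), a') ∧ 0 ≤ h ((1 : ℕ), b')) ∨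
        (h ((1 : ℕ), a') ≤ 0 ∧ h ((1 : ℕ), b') ≤ 0))) :
    {x | x ∈ Sg C ∧ 0 ≤ h x} = Sg {g | g ∈ C ∧ 0 ≤ h ((1 : ℕ), g)} := by
  classical
  have hsum : ∀ s : Multiset (Fin n → ℤ), h ((s.map (fun g => (((1 : ℕ), g) : Amb n))).sum) =
      (s.map (fun g => h ((1 : ℕ), g))).sum := by
    intro s
    rw [map_multiset_sum, Multiset.map_map]
    rfl
  have main : ∀ (N : ℕ) (s : Multiset (Fin n → ℤ)), (∀ b ∈ s, b ∈ C) →
      (s.map (fun g => (h ((1 : ℕ), g)).natAbs)).sum = N →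
      0 ≤ (s.map (fun g => h ((1 : ℕ), g))).sum →
      (s.map (fun g => (((1 : ℕ), g) : Amb n))).sum ∈
        AddSubmonoid.closure ((fun g => ((1 : ℕ), g)) '' {g | g ∈ C ∧ 0 ≤ h ((1 : ℕ), g)}) := by
    intro N
    induction N using Nat.strong_induction_on with
    | _ N ih =>
      intro s hs hN hpos
      by_cases hall : ∀ b ∈ s, 0 ≤ h ((1 : ℕ), b)
      · exact bal_mem s fun b hb => ⟨hs b hb, hall b hb⟩
      · push Not at hall
        obtain ⟨b, hb, hb0⟩ := hall
        obtain ⟨t, rfl⟩ := Multiset.exists_cons_of_mem hb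
        have hex : ∃ a ∈ t, 0 < h ((1 : ℕ), a) := by
          by_contra hno
          push Not at hno
          have h1 : (t.map (fun g => h ((1 : ℕ), g))).sum ≤ 0 := by
            have h2 := bal_ge (s := t.map (fun g => h ((1 : ℕ), g))) (a := 0) (by
              intro x hx
              obtain ⟨g, hg, rfl⟩ := Multiset.mem_map.1 hx
              exact hno g hg)
            rw [mul_zero] at h2
            exact h2
          rw [Multiset.map_cons, Multiset.sum_cons] at hpos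
          omega
        obtain ⟨a, ha, ha0⟩ := hex
        obtain ⟨u, rfl⟩ := Multiset.exists_cons_of_mem ha
        obtain ⟨a', ha', b', hb', hab, hside⟩ := hE a (hs a (by simp)) b (hs b (by simp)) ha0 hb0
        have e1 : (((1 : ℕ), a) : Amb n) + ((1 : ℕ), b) = ((1 : ℕ), a') + ((1 : ℕ), b') :=
          Prod.ext rfl hab
        have e2 : h ((1 : ℕ), a) + h ((1 : ℕ), b) = h ((1 : ℕ), a') + h ((1 : ℕ), b') := by
          rw [← map_add, e1, map_add]
        have e3 : ((b ::ₘ a ::ₘ u).map (fun g => (((1 : ℕ), g) : Amb n))).sum =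
            ((b' ::ₘ a' ::ₘ u).map (fun g => (((1 : ℕ), g) : Amb n))).sum := by
          simp only [Multiset.map_cons, Multiset.sum_cons]
          rw [← add_assoc, ← add_assoc, add_comm (((1 : ℕ), b) : Amb n), e1,
            add_comm (((1 : ℕ), a') : Amb n)]
        rw [e3]
        refine ih _ ?_ (b' ::ₘ a' ::ₘ u) ?_ rfl ?_
        · rw [← hN]
          simp only [Multiset.map_cons, Multiset.sum_cons]
          rcases hside with ⟨h1, h2⟩ | ⟨h1, h2⟩ <;> omega
        · intro c hc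
          simp only [Multiset.mem_cons] at hc
          rcases hc with rfl | rfl | hc
          · exact hb'
          · exact ha'
          · exact hs c (by simp [hc])
        · simp only [Multiset.map_cons, Multiset.sum_cons] at hpos ⊢
          omega
  ext x
  constructor
  · rintro ⟨⟨hx, hx0⟩, hh⟩
    obtain ⟨s, hs, hsx⟩ := bal_exists hx
    refine ⟨?_, hx0⟩
    rw [← hsx]
    refine main _ s hs rfl ?_
    rw [← hsum, hsx]
    exact hh
  · rintro ⟨hx, hx0⟩
    refine ⟨⟨AddSubmonoid.closure_mono ?_ hx, hx0⟩, ?_⟩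
    · rintro _ ⟨g, hg, rfl⟩
      exact ⟨g, hg.1, rfl⟩
    · refine Sg_ind (P := fun x => 0 ≤ h x) ?_ ?_ (fun g hg => hg.2) ⟨hx, hx0⟩
      · rw [map_zero]
      · intro a b ha hb
        rw [map_add]
        omega

/-- Cutting by a hyperplane. -/
theorem TV_halves {K : Type} [CommRing K] {n : ℕ} {C : Set (Fin n → ℤ)} (h : Amb n →+ ℤ)
    (hE : ∀ a ∈ C, ∀ b ∈ C, 0 < h ((1 : ℕ), a) → h ((1 : ℕ), b) < 0 → ∃ a' ∈ C, ∃ b' ∈ C,
      a + b = a' + b' ∧ ((0 ≤ h ((1 : ℕ), a') ∧ 0 ≤ h ((1 : ℕ), b')) ∨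
        (h ((1 : ℕ), a') ≤ 0 ∧ h ((1 : ℕ), b') ≤ 0)))
    (h1 : TV K (dg n) (Sg {g | g ∈ C ∧ 0 ≤ h ((1 : ℕ), g)}))
    (h2 : TV K (dg n) (Sg {g | g ∈ C ∧ h ((1 : ℕ), g) ≤ 0})) : TV K (dg n) (Sg C) := by
  refine TV_cut (dg n) (Sg C) Sg_add2 Sg_deg h ?_ ?_
  · rw [Sg_half h hE]
    exact h1
  · have e := Sg_half (C := C) (-h) ?_
    · simp only [AddMonoidHom.neg_apply, Left.nonneg_neg_iff] at e
      rw [e]
      exact h2
    · intro a ha b hb ha0 hb0
      simp only [AddMonoidHom.neg_apply, Left.neg_pos_iff, Left.neg_neg_iff] at ha0 hb0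
      obtain ⟨b', hb', a', ha', hab, hside⟩ := hE b hb a ha hb0 ha0
      refine ⟨a', ha', b', hb', ?_, ?_⟩
      · rw [add_comm a b, hab, add_comm]
      · simp only [AddMonoidHom.neg_apply, Left.nonneg_neg_iff, Left.neg_nonpos_iff]
        rcases hside with ⟨q1, q2⟩ | ⟨q1, q2⟩
        · exact Or.inr ⟨q2, q1⟩
        · exact Or.inl ⟨q2, q1⟩

end MP7ea278
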