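import Pool.Agent.Lib.MP_7ea278_ag.Fp.Rel2

/-!
The fibre lemma of Quillen for homology.
-/

namespace MP7ea278

open Finsupp

variable {K : Type} [CommRing K] {α β : Type}

theorem Ch_len {r : α → α → Prop} {U : Set α} (τ : α → ℕ)
    (hτ : ∀ a ∈ U, ∀ b ∈ U, r a b → τ a < τ b) :
    ∀ w ∈ Ch r U, ∀ m, (∀ y ∈ w, τ y < m) → w.length ≤ m := by
  intro w
  induction w with
  | nil => intro _ m _; simp
  | cons x v ih =>
    intro hw m hm
    have h1 := ih (Ch_sub (List.sublist_cons_self _ _) hw) (τ x) (fun y hy =>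
      hτ y (hw.2 y (List.mem_cons_of_mem _ hy)) x (hw.2 x List.mem_cons_self)
        (List.rel_of_pairwise_cons hw.1 hy))
    have h2 := hm x List.mem_cons_self
    rw [List.length_cons]
    omega

theorem Sph_low {r : α → α → Prop} {U : Set α} {N : ℕ} (hlen : ∀ w ∈ Ch r U, w.length ≤ N)
    (h : ∀ k, k < N → Ex K (Ch r U) (dd K) List.length k) : Sph K r U N := by
  refine ⟨hlen, fun k hk => ?_⟩
  rcases Nat.lt_or_ge k N with h1 | h1
  · exact h k h1
  · intro V _ _ z hz _
    have h0 : z = 0 := by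
      rw [← Finsupp.support_eq_empty]
      refine Finset.eq_empty_of_forall_notMem fun w hw => ?_
      obtain ⟨h2, h3⟩ := hz (Finset.mem_coe.2 hw)
      have := hlen w h2
      omega
    exact ⟨0, Submodule.zero_mem _, by rw [map_zero, h0]⟩

theorem Sph_empty (r : α → α → Prop) : Sph K r (∅ : Set α) 0 := by
  refine Sph_low ?_ (fun k hk => absurd hk (Nat.not_lt_zero k))
  intro w hw
  cases w with
  | nil => simp
  | cons x v => exact absurd (hw.2 x List.mem_cons_self) (Set.notMem_empty x)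

theorem Sph_of_all {r : α → α → Prop} {U : Set α} {N : ℕ} (hlen : ∀ w ∈ Ch r U, w.length ≤ N)
    (h : ∀ k, Ex K (Ch r U) (dd K) List.length k) : Sph K r U N := ⟨hlen, fun k _ => h k⟩

open Classical in
private theorem q_filter {r : α → α → Prop} {U L : Set α} {V : Type} [AddCommGroup V] [Module K V]
    {z : List α →₀ V} {k : ℕ} (hz : z ∈ Finsupp.supported V K {ω | ω ∈ Ch r U ∧ ω.length = k}) :
    z.filter (fun w' => ∃ x ∈ w', x ∈ L) ∈
      Finsupp.supported V K {ω | ω ∈ Rw r U L ∧ ω.length = k} := by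
  intro w hw
  have h1 := Finsupp.mem_support_iff.1 (Finset.mem_coe.1 hw)
  rw [Finsupp.filter_apply] at h1
  by_cases h2 : ∃ x ∈ w, x ∈ L
  · rw [if_pos h2] at h1
    obtain ⟨h3, h4⟩ := hz (Finset.mem_coe.2 (Finsupp.mem_support_iff.2 h1))
    exact ⟨⟨h3, h2⟩, h4⟩
  · rw [if_neg h2] at h1
    exact absurd rfl h1

open Classical in
private theorem q_diff {r : α → α → Prop} {U L : Set α} {V : Type} [AddCommGroup V] [Module K V]
    {z : List α →₀ V} {k : ℕ} (hz : z ∈ Finsupp.supported V K {ω | ω ∈ Ch r U ∧ ω.length = k})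
    (hf : z.filter (fun w' => ∃ x ∈ w', x ∈ L) = 0) :
    z ∈ Finsupp.supported V K {ω | ω ∈ Ch r (U \ L) ∧ ω.length = k} := by
  intro w hw
  obtain ⟨h1, h2⟩ := hz hw
  refine ⟨⟨h1.1, fun x hx => ⟨h1.2 x hx, fun hxL => ?_⟩⟩, h2⟩
  have h3 := DFunLike.congr_fun hf w
  rw [Finsupp.filter_apply, if_pos ⟨x, hx, hxL⟩] at h3
  exact Finsupp.mem_support_iff.1 (Finset.mem_coe.1 hw) h3

private theorem q_ddmem {r : α → α → Prop} {U : Set α} {V : Type} [AddCommGroup V] [Module K V]
    {z : List α →₀ V} {k : ℕ}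
    (hz : z ∈ Finsupp.supported V K {ω | ω ∈ Ch r U ∧ ω.length = k + 1}) :
    ext K (dd K) V z ∈ Finsupp.supported V K {ω | ω ∈ Ch r U ∧ ω.length = k} := by
  refine ext_mem_supported (dd K) V (X := {ω | ω ∈ Ch r U ∧ ω.length = k + 1}) ?_ hz
  rintro w ⟨h1, h2⟩ w' hw'
  obtain ⟨h3, h4⟩ := ddS _ _ hw'
  exact ⟨Ch_sub h3 h1, by omega⟩

private theorem q_incl {r : α → α → Prop} {U L : Set α} {V : Type} [AddCommGroup V] [Module K V]
    {z : List α →₀ V} {k : ℕ} (hz : z ∈ Finsupp.supported V K {ω | ω ∈ Rw r U L ∧ ω.length = k}) :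
    z ∈ Finsupp.supported V K {ω | ω ∈ Ch r U ∧ ω.length = k} :=
  fun w hw => ⟨(hz hw).1.1, (hz hw).2⟩

/-- Removing elements. -/
theorem Sph_remove {r : α → α → Prop} {U L : Set α} {N : ℕ}
    (hlen : ∀ w ∈ Ch r (U \ L), w.length ≤ N)
    (hU : ∀ k, k < N → Ex K (Ch r U) (dd K) List.length k)
    (hrel : ∀ k, k ≤ N → Ex K (Rw r U L) (drel K L) List.length k) : Sph K r (U \ L) N := by
  classical
  refine Sph_low hlen fun k hk => ?_
  intro V _ _ z hz hdz
  have hzU : z ∈ Finsupp.supported V K {ω | ω ∈ Ch r U ∧ ω.length = k} :=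
    fun w hw => ⟨Ch_mono Set.sdiff_subset (hz hw).1, (hz hw).2⟩
  obtain ⟨y, hy, hyz⟩ := hU k hk V z hzU hdz
  have hz0 : z.filter (fun w' => ∃ x ∈ w', x ∈ L) = 0 := by
    rw [Finsupp.filter_eq_zero_iff]
    rintro w ⟨x, hx, hxL⟩
    by_contra h
    exact ((hz (Finset.mem_coe.2 (Finsupp.mem_support_iff.2 h))).1.2 x hx).2 hxL
  obtain ⟨y2, hy2, hyz2⟩ := hrel (k + 1) hk V _ (q_filter hy) (by
    rw [ext_drel_filter, ext_drel, hyz, hz0])
  rw [ext_drel] at hyz2
  refine ⟨y - ext K (dd K) V y2, q_diff (Submodule.sub_mem _ hy (q_ddmem (q_incl hy2))) ?_, ?_⟩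
  · rw [Finsupp.filter_sub, hyz2, sub_self]
  · rw [map_sub, hyz, dd_dd', sub_zero]

/-- Adding elements. -/
theorem Ex_add {r : α → α → Prop} {U L : Set α} {k : ℕ}
    (hV : Ex K (Ch r (U \ L)) (dd K) List.length k)
    (hrel : Ex K (Rw r U L) (drel K L) List.length k) : Ex K (Ch r U) (dd K) List.length k := by
  classical
  intro V _ _ z hz hdz
  obtain ⟨y, hy, hyz⟩ := hrel V _ (q_filter (L := L) hz) (by
    rw [ext_drel_filter, ext_drel, hdz, Finsupp.filter_zero])
  rw [ext_drel] at hyz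
  obtain ⟨y', hy', hyz'⟩ := hV V (z - ext K (dd K) V y)
    (q_diff (Submodule.sub_mem _ hz (q_ddmem (q_incl hy))) (by
      rw [Finsupp.filter_sub, hyz, sub_self])) (by rw [map_sub, hdz, dd_dd', sub_zero])
  refine ⟨y' + y, Submodule.add_mem _ ?_ (q_incl hy), by rw [map_add, hyz', sub_add_cancel]⟩
  exact fun w hw => ⟨Ch_mono Set.sdiff_subset (hy' hw).1, (hy' hw).2⟩

/-- The order of the mapping cylinder. -/
def rZ (rX : α → α → Prop) (rY : β → β → Prop) (f : α → β) : α ⊕ β → α ⊕ β → Prop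
  | Sum.inl a, Sum.inl a' => rX a a'
  | Sum.inr b, Sum.inr b' => rY b b'
  | Sum.inl a, Sum.inr b => f a = b ∨ rY (f a) b
  | Sum.inr _, Sum.inl _ => False

/-- The fibre lemma. -/
theorem quillen {rX : α → α → Prop} {rY : β → β → Prop} {f : α → β} {X : Set α} {Y : Set β}
    {N : ℕ} (htX : ∀ a b c, rX a b → rX b c → rX a c) (hiX : ∀ a, ¬ rX a a)
    (htY : ∀ a b c, rY a b → rY b c → rY a c) (hiY : ∀ a, ¬ rY a a)
    (hf : ∀ a b, rX a b → rY (f a) (f b)) (hfY : ∀ x ∈ X, f x ∈ Y)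
    (τX : α → ℕ) (hτX : ∀ a b, rX a b → τX a < τX b) (TX : ℕ) (hTX : ∀ a ∈ X, τX a ≤ TX)
    (τY : β → ℕ) (hτY : ∀ a b, rY a b → τY a < τY b) (TY : ℕ) (hTY : ∀ a ∈ Y, τY a ≤ TY)
    (hX : ∀ w ∈ Ch rX X, w.length ≤ N) (hY : Sph K rY Y N)
    (hfib : ∀ y ∈ Y, ∃ a b, a + b = N ∧ Sph K rX {x | x ∈ X ∧ (f x = y ∨ rY (f x) y)} a ∧
      Sph K rY {y' | y' ∈ Y ∧ rY y y'} b) : Sph K rX X N := by
  classical
  set R := rZ rX rY f with hR
  have htR : ∀ a b c, R a b → R b c → R a c := by
    rintro (a | a) (b | b) (c | c) h1 h2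
    · exact htX a b c h1 h2
    · rcases h2 with h2 | h2
      · right
        rw [← h2]
        exact hf a b h1
      · right
        exact htY _ _ _ (hf a b h1) h2
    · exact absurd h2 id
    · rcases h1 with h1 | h1
      · right
        rw [h1]
        exact h2
      · right
        exact htY _ _ _ h1 h2
    · exact absurd h1 id
    · exact absurd h1 id
    · exact absurd h2 id
    · exact htY a b c h1 h2
  have hiR : ∀ a, ¬ R a a := by
    rintro (a | a)
    · exact hiX a
    · exact hiY a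
  set UZ : Set (α ⊕ β) := Sum.inl '' X ∪ Sum.inr '' Y with hUZ
  set τ : α ⊕ β → ℕ := Sum.elim τX (fun b => TX + 1 + τY b) with hτ
  have hτR : ∀ a ∈ UZ, ∀ b ∈ UZ, R a b → τ a < τ b := by
    rintro a ha b hb h
    rcases ha with ⟨a, ha, rfl⟩ | ⟨a, ha, rfl⟩
    · rcases hb with ⟨b, hb, rfl⟩ | ⟨b, hb, rfl⟩
      · exact hτX a b h
      · have := hTX a ha
        change τX a < TX + 1 + τY b
        omega
    · rcases hb with ⟨b, hb, rfl⟩ | ⟨b, hb, rfl⟩
      · exact absurd h id
      · have := hτY a b h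
        change TX + 1 + τY a < TX + 1 + τY b
        omega
  have hτT : ∀ a ∈ UZ, τ a ≤ TX + 1 + TY := by
    rintro a (⟨a, ha, rfl⟩ | ⟨a, ha, rfl⟩)
    · have := hTX a ha
      change τX a ≤ _
      omega
    · have := hTY a ha
      change TX + 1 + τY a ≤ _
      omega
  have hlenZ : ∀ w ∈ Ch R UZ, w.length ≤ TX + TY + 2 := fun w hw =>
    Ch_len τ hτR w hw _ (fun y hy => by have := hτT y (hw.2 y hy); omega)
  have hinl : Set.InjOn (Sum.inl : α → α ⊕ β) Set.univ := Sum.inl_injective.injOn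
  have hinr : Set.InjOn (Sum.inr : β → α ⊕ β) Set.univ := Sum.inr_injective.injOn
  -- the part above an element of `X`
  have hB : ∀ n : ℕ, ∀ x ∈ X, TX - τX x ≤ n → ∀ k,
      Ex K (Ch R {u | u ∈ UZ ∧ R (Sum.inl x) u}) (dd K) List.length k := by
    intro n
    induction n using Nat.strong_induction_on with
    | _ n ih =>
      intro x hx hn k
      set U' : Set (α ⊕ β) := {u | u ∈ UZ ∧ R (Sum.inl x) u} with hU'
      set L' : Set (α ⊕ β) := Sum.inl '' {x' | x' ∈ X ∧ rX x x'} with hL'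
      have hL'U : L' ⊆ U' := by
        rintro _ ⟨x', ⟨h1, h2⟩, rfl⟩
        exact ⟨Or.inl ⟨x', h1, rfl⟩, h2⟩
      have hmono : Ch R U' ⊆ Ch R UZ := Ch_mono fun u hu => hu.1
      refine Ex_add (L := L') ?_ ?_
      · have hc : (Sum.inr (f x) : α ⊕ β) ∈ U' \ L' := by
          refine ⟨⟨Or.inr ⟨f x, hfY x hx, rfl⟩, Or.inl rfl⟩, ?_⟩
          rintro ⟨x', _, h⟩
          exact absurd h (by simp)
        refine Ex_bot htR hiR hc ?_ k
        · rintro u ⟨⟨hu, hRu⟩, huL⟩ hne
          rcases hu with ⟨x', hx', rfl⟩ | ⟨y, hy, rfl⟩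
          · exact absurd ⟨x', ⟨hx', hRu⟩, rfl⟩ huL
          · rcases hRu with h1 | h1
            · rw [h1] at hne
              exact absurd rfl hne
            · exact h1
      · set N' := k + (TX + TY + 3) with hN'
        refine (rel_exact (K := K) hL'U htR τ ?_ (TX + 1 + TY) ?_ N' ?_).2 k (by omega)
        · exact fun a ha b hb => hτR a (hL'U ha).1 b (hL'U hb).1
        · exact fun a ha => hτT a (hL'U ha).1
        · rintro _ ⟨x', ⟨hx', hxx'⟩, rfl⟩
          refine ⟨0, k + (TX + TY + 2), by omega, ?_, ?_⟩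
          · have he : {v | v ∈ U' ∧ v ∉ L' ∧ R v (Sum.inl x')} = (∅ : Set (α ⊕ β)) := by
              rw [Set.eq_empty_iff_forall_notMem]
              rintro v ⟨⟨hv, hRv⟩, hvL, hvx⟩
              rcases hv with ⟨x2, hx2, rfl⟩ | ⟨y, hy, rfl⟩
              · exact hvL ⟨x2, ⟨hx2, hRv⟩, rfl⟩
              · exact absurd hvx id
            rw [he]
            exact Sph_empty R
          · have he : {u | u ∈ U' ∧ R (Sum.inl x') u} = {u | u ∈ UZ ∧ R (Sum.inl x') u} := by
              ext u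
              constructor
              · exact fun h => ⟨h.1.1, h.2⟩
              · exact fun h => ⟨⟨h.1, htR _ _ _ (show R (Sum.inl x) (Sum.inl x') from hxx') h.2⟩,
                  h.2⟩
            rw [he]
            refine Sph_of_all (fun w hw => ?_) fun k' => ?_
            · have := hlenZ w (Ch_mono (fun u hu => hu.1) hw)
              omega
            · have h1 := hτX x x' hxx'
              have h2 := hTX x' hx'
              exact ih (TX - τX x') (by omega) x' hx' le_rfl k'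
  -- the cylinder is spherical
  have hZ : ∀ k, k ≠ N → Ex K (Ch R UZ) (dd K) List.length k := by
    intro k hk
    refine Ex_add (L := Sum.inl '' X) ?_ ?_
    · have he : UZ \ (Sum.inl '' X) = Sum.inr '' Y := by
        ext u
        constructor
        · rintro ⟨h1 | h1, h2⟩
          · exact absurd h1 h2
          · exact h1
        · rintro ⟨y, hy, rfl⟩
          refine ⟨Or.inr ⟨y, hy, rfl⟩, ?_⟩
          rintro ⟨x, _, h⟩
          exact absurd h (by simp)
      rw [he]
      exact ((Sph_map (K := K) (r := rY) (r' := R) Sum.inr (hinr.mono (Set.subset_univ Y))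
        (fun a _ b _ => Iff.rfl) N).2 hY).2 k hk
    · refine (rel_exact (K := K) (L := Sum.inl '' X) Set.subset_union_left htR τ ?_
        (TX + 1 + TY) ?_ (k + (TX + TY + 3)) ?_).2 k (by omega)
      · exact fun a ha b hb => hτR a (Or.inl ha) b (Or.inl hb)
      · exact fun a ha => hτT a (Or.inl ha)
      · rintro _ ⟨x', hx', rfl⟩
        refine ⟨0, k + (TX + TY + 2), by omega, ?_, ?_⟩
        · have he : {v | v ∈ UZ ∧ v ∉ Sum.inl '' X ∧ R v (Sum.inl x')} = (∅ : Set (α ⊕ β)) := by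
            rw [Set.eq_empty_iff_forall_notMem]
            rintro v ⟨hv, hvL, hvx⟩
            rcases hv with hv | ⟨y, hy, rfl⟩
            · exact hvL hv
            · exact absurd hvx id
          rw [he]
          exact Sph_empty R
        · refine Sph_of_all (fun w hw => ?_) fun k' => hB _ x' hx' le_rfl k'
          have := hlenZ w (Ch_mono (fun u hu => hu.1) hw)
          omega
  -- remove the part `Y`
  have hUX : UZ \ (Sum.inr '' Y) = Sum.inl '' X := by
    ext u
    constructor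
    · rintro ⟨h1 | h1, h2⟩
      · exact h1
      · exact absurd h1 h2
    · rintro ⟨y, hy, rfl⟩
      refine ⟨Or.inl ⟨y, hy, rfl⟩, ?_⟩
      rintro ⟨x, _, h⟩
      exact absurd h (by simp)
  rw [← Sph_map (K := K) (r := rX) (r' := R) Sum.inl (hinl.mono (Set.subset_univ X))
    (fun a _ b _ => Iff.rfl) N, ← hUX]
  refine Sph_remove ?_ (fun k hk => hZ k (by omega)) ?_
  · rw [hUX]
    intro w hw
    have h1 : ∀ u : List (α ⊕ β), (∀ x ∈ u, x ∈ Sum.inl '' X) → ∃ v : List α, (∀ x ∈ v, x ∈ X) ∧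
        v.map Sum.inl = u := by
      intro u
      induction u with
      | nil => exact fun _ => ⟨[], by simp, rfl⟩
      | cons b u ih =>
        intro hu
        obtain ⟨v, hv1, hv2⟩ := ih (fun x hx => hu x (List.mem_cons_of_mem _ hx))
        obtain ⟨a, ha, hab⟩ := hu b List.mem_cons_self
        refine ⟨a :: v, ?_, by rw [List.map_cons, hab, hv2]⟩
        intro x hx
        rcases List.mem_cons.1 hx with rfl | hx
        · exact ha
        · exact hv1 x hx
    obtain ⟨v, hv, rfl⟩ := h1 w hw.2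
    rw [List.length_map]
    exact hX v ⟨List.pairwise_map.1 hw.1, hv⟩
  · intro k hk
    refine (rel_exact (K := K) (L := Sum.inr '' Y) Set.subset_union_right htR τ ?_
      (TX + 1 + TY) ?_ (N + 1) ?_).2 k (by omega)
    · exact fun a ha b hb => hτR a (Or.inr ha) b (Or.inr hb)
    · exact fun a ha => hτT a (Or.inr ha)
    · rintro _ ⟨y, hy, rfl⟩
      obtain ⟨a, b, hab, h1, h2⟩ := hfib y hy
      refine ⟨a, b, by omega, ?_, ?_⟩
      · have he : {v | v ∈ UZ ∧ v ∉ Sum.inr '' Y ∧ R v (Sum.inr y)} =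
            Sum.inl '' {x | x ∈ X ∧ (f x = y ∨ rY (f x) y)} := by
          ext v
          constructor
          · rintro ⟨hv, hvL, hvy⟩
            rcases hv with ⟨x, hx, rfl⟩ | hv
            · exact ⟨x, ⟨hx, hvy⟩, rfl⟩
            · exact absurd hv hvL
          · rintro ⟨x, ⟨hx, hxy⟩, rfl⟩
            refine ⟨Or.inl ⟨x, hx, rfl⟩, ?_, hxy⟩
            rintro ⟨x, _, h⟩
            exact absurd h (by simp)
        rw [he]
        exact (Sph_map (K := K) (r := rX) (r' := R) Sum.inl (hinl.mono (Set.subset_univ _))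
          (fun a _ b _ => Iff.rfl) a).2 h1
      · have he : {u | u ∈ UZ ∧ R (Sum.inr y) u} = Sum.inr '' {y' | y' ∈ Y ∧ rY y y'} := by
          ext v
          constructor
          · rintro ⟨hv, hvy⟩
            rcases hv with ⟨x, hx, rfl⟩ | ⟨y', hy', rfl⟩
            · exact absurd hvy id
            · exact ⟨y', ⟨hy', hvy⟩, rfl⟩
          · rintro ⟨y', ⟨hy', hyy⟩, rfl⟩
            exact ⟨Or.inr ⟨y', hy', rfl⟩, hyy⟩
        rw [he]
        exact (Sph_map (K := K) (r := rY) (r' := R) Sum.inr (hinr.mono (Set.subset_univ _))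
          (fun a _ b _ => Iff.rfl) b).2 h2

end MP7ea278
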