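import Pool.Agent.Lib.MP_7ea278_ag.Fp.Sph2

/-!
Relative exactness: adding a set of elements to a partially ordered set.
-/

namespace MP7ea278

open Finsupp

variable {K : Type} [CommRing K] {α β : Type}

/-- The tensor product of two chain complexes. -/
theorem pair_exact {r : α → α → Prop} {A B : Set α} {a b : ℕ} (hA : Sph K r A a)
    (hB : Sph K r B b) (k : ℕ) (hk : k ≠ a + b + 1) :
    Ex K ((Ch r B) ×ˢ (Ch r A)) (dPair (dd K) (fun w => w.length + 1) (dd K))
      (fun x => (x.1.length + 1) + x.2.length) k := by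
  intro U _ _ z hz hdz
  have hp : IsBC K (Ch r B) (dd K) (fun w => w.length + 1) (fun _ => b + 1) :=
    ⟨fun w hw w' hw' => ⟨Ch_sub (ddS w w' hw').1 hw, by have := (ddS w w' hw').2; omega, rfl⟩,
      fun w _ => dd_dd w, fun w hw => by have := hB.1 w hw; omega⟩
  have hs : IsBC K (Ch r A) (dd K) List.length (fun _ => a) := Ch_isBC r A a hA.1
  have hp1 : ODat K (Ch r B) (dd K) (fun w => w.length + 1) (fun _ => b + 1) (b + 1) := by
    rw [ODat_iff_Ex]
    intro k' hk' V _ _ z hz hdz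
    cases k' with
    | zero =>
      have h0 : z = 0 := by
        rw [← Finsupp.support_eq_empty]
        refine Finset.eq_empty_of_forall_notMem fun ω hω => ?_
        have := (hz (Finset.mem_coe.2 hω)).2
        dsimp only at this
        omega
      exact ⟨0, Submodule.zero_mem _, by rw [map_zero, h0]⟩
    | succ k' =>
      have hset : ∀ i : ℕ, {ω | ω ∈ Ch r B ∧ (fun w : List α => w.length + 1) ω = i + 1} =
          {ω | ω ∈ Ch r B ∧ ω.length = i} := by
        intro i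
        ext ω
        constructor
        · rintro ⟨h1, h2⟩
          exact ⟨h1, by dsimp only at h2; omega⟩
        · rintro ⟨h1, h2⟩
          exact ⟨h1, by dsimp only; omega⟩
      rw [hset] at hz ⊢
      exact hB.2 k' (by omega) V z hz hdz
  have hs2 : ODat K (Ch r A) (dd K) List.length (fun _ => a) a := ODat_iff_Ex.2 hA.2
  obtain ⟨y, hy, hyz⟩ := kn_claim (K := K) hp hs U k (b + 1) a (by omega) hp1 hs2 (k + 1) z
    (by
      intro x hx
      obtain ⟨h1, h2⟩ := hz (Finset.mem_coe.2 (Finsupp.mem_support_iff.2 hx))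
      obtain ⟨h3, h4⟩ := Set.mem_prod.1 h1
      dsimp only at h2
      exact ⟨h3, h4, h2, rfl, rfl, by omega⟩) hdz
  refine ⟨y, ?_, hyz⟩
  intro x hx
  obtain ⟨h1, h2, h3, -, -⟩ := hy x (Finsupp.mem_support_iff.1 (Finset.mem_coe.1 hx))
  exact ⟨Set.mem_prod.2 ⟨h1, h2⟩, h3⟩

/-- Direct sums. -/
theorem Ex_sigma {Ω : Type} (L : Set α) (X : α → Set Ω) (δ : Ω → Ω →₀ K) (ℓ : Ω → ℕ) (k : ℕ)
    (h : ∀ a ∈ L, Ex K (X a) δ ℓ k) :
    Ex K {x : α × Ω | x.1 ∈ L ∧ x.2 ∈ X x.1} (fun x => (δ x.2).mapDomain (Prod.mk x.1))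
      (fun x => ℓ x.2) k := by
  classical
  intro U _ _ z hz hdz
  have hinj : ∀ a : α, Function.Injective (Prod.mk a : Ω → α × Ω) := fun a x y h =>
    (Prod.ext_iff.1 h).2
  set za : α → (Ω →₀ U) := fun a => z.comapDomain (Prod.mk a) (hinj a).injOn with hza
  have hza' : ∀ a b, za a b = z (a, b) := fun a b => Finsupp.comapDomain_apply _ _ _ _
  have hev : ∀ (a : α) (x : Ω →₀ U) (a0 : α) (b0 : Ω),
      (x.mapDomain (Prod.mk a)) (a0, b0) = if a = a0 then x b0 else 0 := by
    intro a x a0 b0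
    split_ifs with h1
    · subst h1
      exact Finsupp.mapDomain_apply (hinj a) x b0
    · refine Finsupp.mapDomain_of_notMem_range x (a0, b0) ?_
      rintro ⟨c, hc⟩
      exact h1 (Prod.ext_iff.1 hc).1
  set s := z.support.image Prod.fst with hs
  have hsum : z = ∑ a ∈ s, (za a).mapDomain (Prod.mk a) := by
    refine Finsupp.ext fun ⟨a0, b0⟩ => ?_
    rw [Finsupp.finsetSum_apply]
    by_cases h0 : z (a0, b0) = 0
    · rw [h0]
      symm
      refine Finset.sum_eq_zero fun a _ => ?_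
      rw [hev, hza']
      split_ifs with h1
      · rw [h1, h0]
      · rfl
    · rw [Finset.sum_eq_single a0]
      · rw [hev, if_pos rfl, hza']
      · intro a _ ha
        rw [hev, if_neg ha]
      · intro h1
        exact absurd (Finset.mem_image.2 ⟨(a0, b0), Finsupp.mem_support_iff.2 h0, rfl⟩) h1
  have hcomm : ∀ (a : α) (x : Ω →₀ U), ext K (fun x : α × Ω => (δ x.2).mapDomain (Prod.mk x.1)) U
      (x.mapDomain (Prod.mk a)) = (ext K δ U x).mapDomain (Prod.mk a) := by
    intro a x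
    rw [ext_mapDomain, mapDomain_ext]
  have hd : ∀ a ∈ s, ext K δ U (za a) = 0 := by
    intro a ha
    refine Finsupp.ext fun b0 => ?_
    have h1 := DFunLike.congr_fun hdz (a, b0)
    rw [hsum, map_sum, Finsupp.finsetSum_apply] at h1
    simp only [hcomm, hev] at h1
    rw [Finset.sum_ite_eq' s a (fun x => (ext K δ U (za x)) b0)] at h1
    rw [if_pos ha] at h1
    exact h1
  have hex : ∀ a ∈ s, ∃ y ∈ Finsupp.supported U K {ω | ω ∈ X a ∧ ℓ ω = k + 1},
      ext K δ U y = za a := by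
    intro a ha
    obtain ⟨x, hx, hxa⟩ := Finset.mem_image.1 ha
    have haL : a ∈ L := by
      rw [← hxa]
      exact (hz (Finset.mem_coe.2 hx)).1.1
    refine h a haL U (za a) ?_ (hd a ha)
    intro b hb
    have h1 : z (a, b) ≠ 0 := by
      rw [← hza']
      exact Finsupp.mem_support_iff.1 (Finset.mem_coe.1 hb)
    obtain ⟨h2, h3⟩ := hz (Finset.mem_coe.2 (Finsupp.mem_support_iff.2 h1))
    exact ⟨h2.2, h3⟩
  choose! y hy hyz using hex
  refine ⟨∑ a ∈ s, (y a).mapDomain (Prod.mk a), ?_, ?_⟩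
  · refine Submodule.sum_mem _ fun a ha => ?_
    have haL : a ∈ L := by
      obtain ⟨x, hx, hxa⟩ := Finset.mem_image.1 ha
      rw [← hxa]
      exact (hz (Finset.mem_coe.2 hx)).1.1
    intro x hx
    obtain ⟨b, hb, rfl⟩ := Finset.mem_image.1 (Finsupp.mapDomain_support (Finset.mem_coe.1 hx))
    obtain ⟨h2, h3⟩ := hy a ha (Finset.mem_coe.2 hb)
    exact ⟨⟨haL, h2⟩, h3⟩
  · rw [map_sum]
    conv_rhs => rw [hsum]
    refine Finset.sum_congr rfl fun a ha => ?_
    rw [hcomm, hyz a ha]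

/-- Chains in `U` with an element of `L`. -/
def Rw (r : α → α → Prop) (U L : Set α) : Set (List α) := {w | w ∈ Ch r U ∧ ∃ x ∈ w, x ∈ L}

open Classical in
/-- The quotient differential. -/
noncomputable def drel (K : Type) [CommRing K] (L : Set α) (w : List α) : List α →₀ K :=
  (dd K w).filter (fun w' => ∃ x ∈ w', x ∈ L)

open Classical in
/-- Value of a function at the last element in `L`. -/
noncomputable def lst (L : Set α) (f : α → ℕ) : List α → ℕ
  | [] => 0
  | x :: w => if ∃ y ∈ w, y ∈ L then lst L f w else if x ∈ L then f x else 0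

theorem lst_eq (L : Set α) (f : α → ℕ) (ℓ : α) (hℓ : ℓ ∈ L) (a : List α) (ha : ∀ y ∈ a, y ∉ L) :
    ∀ b : List α, lst L f (b ++ ℓ :: a) = f ℓ := by
  intro b
  induction b with
  | nil =>
    change lst L f (ℓ :: a) = f ℓ
    unfold lst
    rw [if_neg, if_pos hℓ]
    rintro ⟨y, hy, hyL⟩
    exact ha y hy hyL
  | cons x b ih =>
    change lst L f (x :: (b ++ ℓ :: a)) = f ℓ
    unfold lst
    rw [if_pos ⟨ℓ, by simp, hℓ⟩]
    exact ih

theorem lst_split (L : Set α) : ∀ w : List α, (∃ x ∈ w, x ∈ L) →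
    ∃ b ℓ a, w = b ++ ℓ :: a ∧ ℓ ∈ L ∧ ∀ y ∈ a, y ∉ L := by
  intro w
  induction w with
  | nil =>
    rintro ⟨x, hx, _⟩
    exact absurd hx List.not_mem_nil
  | cons x w ih =>
    rintro ⟨y, hy, hyL⟩
    by_cases h : ∃ x ∈ w, x ∈ L
    · obtain ⟨b, ℓ, a, h1, h2, h3⟩ := ih h
      exact ⟨x :: b, ℓ, a, by rw [h1]; rfl, h2, h3⟩
    · rcases List.mem_cons.1 hy with rfl | hy
      · exact ⟨[], y, w, rfl, hyL, fun z hz hzL => h ⟨z, hz, hzL⟩⟩
      · exact absurd ⟨y, hy, hyL⟩ h

theorem lst_inj (L : Set α) : ∀ (b b' : List α) (ℓ ℓ' : α) (a a' : List α), ℓ ∈ L → ℓ' ∈ L →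
    (∀ y ∈ a, y ∉ L) → (∀ y ∈ a', y ∉ L) → b ++ ℓ :: a = b' ++ ℓ' :: a' →
    b = b' ∧ ℓ = ℓ' ∧ a = a' := by
  intro b
  induction b with
  | nil =>
    intro b' ℓ ℓ' a a' h1 h2 h3 h4 h
    cases b' with
    | nil =>
      rw [List.nil_append, List.nil_append, List.cons.injEq] at h
      exact ⟨rfl, h.1, h.2⟩
    | cons x b' =>
      rw [List.nil_append, List.cons_append, List.cons.injEq] at h
      exact absurd h2 (h3 ℓ' (by rw [h.2]; simp))
  | cons x b ih =>
    intro b' ℓ ℓ' a a' h1 h2 h3 h4 h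
    cases b' with
    | nil =>
      rw [List.nil_append, List.cons_append, List.cons.injEq] at h
      exact absurd h1 (h4 ℓ (by rw [← h.2]; simp))
    | cons x' b' =>
      rw [List.cons_append, List.cons_append, List.cons.injEq] at h
      obtain ⟨e1, e2, e3⟩ := ih b' ℓ ℓ' a a' h1 h2 h3 h4 h.2
      exact ⟨by rw [h.1, e1], e2, e3⟩

end MP7ea278
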