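import Pool.Agent.Lib.MP_7ea278_ag.Fp.Rel

/-!
Relative exactness, second part.
-/

namespace MP7ea278

open Finsupp

variable {K : Type} [CommRing K] {α β : Type}

private def Fw (x : α × (List α × List α)) : List α := x.2.1 ++ x.1 :: x.2.2

private noncomputable def δσ (K : Type) [CommRing K] (x : α × (List α × List α)) :
    α × (List α × List α) →₀ K :=
  (dPair (dd K) (fun w : List α => w.length + 1) (dd K) x.2).mapDomain (Prod.mk x.1)

private theorem δσ_map (x : α × (List α × List α)) : (δσ K x).mapDomain Fw =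
    (dd K x.2.1).mapDomain (fun b => b ++ x.1 :: x.2.2) -
      ((-1 : K) ^ x.2.1.length) • (dd K x.2.2).mapDomain (fun a => x.2.1 ++ x.1 :: a) := by
  obtain ⟨ℓ, b, a⟩ := x
  unfold δσ dPair
  rw [Finsupp.mapDomain_add, Finsupp.mapDomain_add, Finsupp.mapDomain_smul,
    Finsupp.mapDomain_smul, ← Finsupp.mapDomain_comp, ← Finsupp.mapDomain_comp,
    ← Finsupp.mapDomain_comp, ← Finsupp.mapDomain_comp, pow_succ, mul_neg_one, neg_smul,
    ← sub_eq_add_neg]
  rfl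

private theorem dd_Fw (x : α × (List α × List α)) : dd K (Fw x) =
    (δσ K x).mapDomain Fw + single (x.2.1 ++ x.2.2) ((-1 : K) ^ x.2.1.length) := by
  rw [δσ_map]
  obtain ⟨ℓ, b, a⟩ := x
  unfold Fw
  dsimp only
  rw [dd_append]
  have e1 : dd K (ℓ :: a) = single a 1 - (dd K a).mapDomain (List.cons ℓ) := rfl
  rw [e1, md_sub, Finsupp.mapDomain_single, ← Finsupp.mapDomain_comp, smul_sub,
    Finsupp.smul_single, smul_eq_mul, mul_one]
  have e2 : ((fun x => b ++ x) ∘ List.cons ℓ) = fun a => b ++ ℓ :: a := rfl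
  rw [e2]
  abel

theorem drel_support (L : Set α) (w w' : List α) (h : w' ∈ (drel K L w).support) :
    w' ∈ (dd K w).support ∧ ∃ x ∈ w', x ∈ L := by
  classical
  rw [drel, Finsupp.support_filter, Finset.mem_filter] at h
  exact h

open Classical in
theorem ext_drel (L : Set α) {U : Type} [AddCommGroup U] [Module K U] (z : List α →₀ U) :
    ext K (drel K L) U z = (ext K (dd K) U z).filter (fun w' => ∃ x ∈ w', x ∈ L) := by
  have h := rt_filter_ext (K := K) (U := U) (dd K) {w' : List α | ∃ x ∈ w', x ∈ L} z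
  exact h.symm

theorem drel_nil (L : Set α) (w : List α) (hw : ¬ ∃ x ∈ w, x ∈ L) : drel K L w = 0 := by
  rw [← Finsupp.support_eq_empty]
  refine Finset.eq_empty_of_forall_notMem fun w' hw' => ?_
  obtain ⟨h1, x, hx, hxL⟩ := drel_support L w w' hw'
  exact hw ⟨x, (ddS _ _ h1).1.subset hx, hxL⟩

open Classical in
theorem ext_drel_filter (L : Set α) {U : Type} [AddCommGroup U] [Module K U] (z : List α →₀ U) :
    ext K (drel K L) U (z.filter (fun w' => ∃ x ∈ w', x ∈ L)) = ext K (drel K L) U z := by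
  have e1 : z = z.filter (fun w' => ∃ x ∈ w', x ∈ L) + z.filter (fun w' => ¬ ∃ x ∈ w', x ∈ L) :=
    (Finsupp.filter_add_filter_not z _).symm
  conv_rhs => rw [e1, map_add]
  have e2 : ext K (drel K L) U (z.filter (fun w' => ¬ ∃ x ∈ w', x ∈ L)) = 0 := by
    rw [ext_congr _ U (φ' := fun _ => 0) (X := {w' | ¬ ∃ x ∈ w', x ∈ L})
      (fun w hw => drel_nil L w hw) ?_, ext_zero_fun]
    intro w hw
    have := Finsupp.mem_support_iff.1 (Finset.mem_coe.1 hw)
    rw [Finsupp.filter_apply] at this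
    by_contra h
    exact this (if_neg h)
  rw [e2, add_zero]

/-- Relative exactness. -/
theorem rel_exact {r : α → α → Prop} {U L : Set α} (hLU : L ⊆ U)
    (htr : ∀ a b c, r a b → r b c → r a c)
    (τ : α → ℕ) (hτ : ∀ a ∈ L, ∀ b ∈ L, r a b → τ a < τ b) (T : ℕ) (hT : ∀ ℓ ∈ L, τ ℓ ≤ T)
    (N : ℕ)
    (h : ∀ ℓ ∈ L, ∃ a b, a + b + 1 = N ∧ Sph K r {v | v ∈ U ∧ v ∉ L ∧ r v ℓ} a ∧
      Sph K r {u | u ∈ U ∧ r ℓ u} b) :
    (∀ w ∈ Rw r U L, w.length ≤ N) ∧ ∀ k, k ≠ N → Ex K (Rw r U L) (drel K L) List.length k := by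
  classical
  have hlen : ∀ w ∈ Rw r U L, w.length ≤ N := by
    rintro w ⟨hw, hwL⟩
    obtain ⟨b, ℓ, a, rfl, hℓ, ha⟩ := lst_split L w hwL
    obtain ⟨na, nb, h1, h2, h3⟩ := h ℓ hℓ
    obtain ⟨p1, p2, p3⟩ := List.pairwise_append.1 hw.1
    have ha' := h2.1 a ⟨(List.pairwise_cons.1 p2).2, fun x hx =>
      ⟨hw.2 x (by simp [hx]), ha x hx, (List.pairwise_cons.1 p2).1 x hx⟩⟩
    have hb' := h3.1 b ⟨p1, fun x hx => ⟨hw.2 x (by simp [hx]), p3 x hx ℓ (by simp)⟩⟩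
    rw [List.length_append, List.length_cons]
    omega
  refine ⟨hlen, ?_⟩
  rw [← ODat_iff_Ex]
  set Aℓ : α → Set α := fun ℓ => {v | v ∈ U ∧ v ∉ L ∧ r v ℓ} with hA
  set Bℓ : α → Set α := fun ℓ => {u | u ∈ U ∧ r ℓ u} with hB
  set Xσ : Set (α × (List α × List α)) :=
    {x | x.1 ∈ L ∧ x.2 ∈ (Ch r (Bℓ x.1)) ×ˢ (Ch r (Aℓ x.1))} with hXσ
  have hσ : ∀ k, k ≠ N → Ex K Xσ (δσ K) (fun x => (x.2.1.length + 1) + x.2.2.length) k := by
    intro k hk
    refine Ex_sigma (K := K) L (fun ℓ => (Ch r (Bℓ ℓ)) ×ˢ (Ch r (Aℓ ℓ)))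
      (dPair (dd K) (fun w : List α => w.length + 1) (dd K))
      (fun x => (x.1.length + 1) + x.2.length) k ?_
    intro ℓ hℓ
    obtain ⟨na, nb, h1, h2, h3⟩ := h ℓ hℓ
    exact pair_exact h2 h3 k (by omega)
  have hbij : Set.BijOn Fw Xσ (Rw r U L) := by
    refine ⟨?_, ?_, ?_⟩
    · rintro ⟨ℓ, b, a⟩ ⟨hℓ, hb, ha⟩
      refine ⟨⟨List.pairwise_append.2 ⟨hb.1, List.pairwise_cons.2 ⟨fun x hx => (ha.2 x hx).2.2,
        ha.1⟩, ?_⟩, ?_⟩, ℓ, by unfold Fw; simp, hℓ⟩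
      · intro x hx y hy
        rcases List.mem_cons.1 hy with rfl | hy
        · exact (hb.2 x hx).2
        · exact htr _ _ _ (ha.2 y hy).2.2 (hb.2 x hx).2
      · intro x hx
        rcases List.mem_append.1 hx with hx | hx
        · exact (hb.2 x hx).1
        · rcases List.mem_cons.1 hx with rfl | hx
          · exact hLU hℓ
          · exact (ha.2 x hx).1
    · rintro ⟨ℓ, b, a⟩ ⟨hℓ, hb, ha⟩ ⟨ℓ', b', a'⟩ ⟨hℓ', hb', ha'⟩ he
      obtain ⟨e1, e2, e3⟩ := lst_inj L b b' ℓ ℓ' a a' hℓ hℓ' (fun y hy => (ha.2 y hy).2.1)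
        (fun y hy => (ha'.2 y hy).2.1) he
      rw [e1, e2, e3]
    · rintro w ⟨hw, hwL⟩
      obtain ⟨b, ℓ, a, rfl, hℓ, ha⟩ := lst_split L w hwL
      obtain ⟨p1, p2, p3⟩ := List.pairwise_append.1 hw.1
      refine ⟨(ℓ, (b, a)), ⟨hℓ, ⟨p1, fun x hx => ⟨hw.2 x (by simp [hx]), p3 x hx ℓ (by simp)⟩⟩,
        ⟨(List.pairwise_cons.1 p2).2, fun x hx => ⟨hw.2 x (by simp [hx]), ha x hx,
          (List.pairwise_cons.1 p2).1 x hx⟩⟩⟩, rfl⟩
  rcases isEmpty_or_nonempty α with hemp | hnon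
  · intro V _ _ k _ z hz _
    have h0 : z = 0 := by
      rw [← Finsupp.support_eq_empty]
      refine Finset.eq_empty_of_forall_notMem fun ω hω => ?_
      obtain ⟨⟨_, x, _, _⟩, _⟩ := hz (Finset.mem_coe.2 hω)
      exact hemp.false x
    exact ⟨0, Submodule.zero_mem _, by rw [map_zero, h0]⟩
  -- the leading part of the differential
  set g := Function.invFunOn Fw Xσ with hg
  have hgF : ∀ x ∈ Xσ, g (Fw x) = x := by
    intro x hx
    have h1 := Function.invFunOn_mem (f := Fw) (s := Xσ) (b := Fw x) ⟨x, hx, rfl⟩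
    have h2 := Function.invFunOn_eq (f := Fw) (s := Xσ) (b := Fw x) ⟨x, hx, rfl⟩
    exact hbij.injOn h1 hx h2
  set δ0 : List α → (List α →₀ K) := fun w => (δσ K (g w)).mapDomain Fw with hδ0
  have hσX : ∀ x ∈ Xσ, ∀ x' ∈ (δσ K x).support, x' ∈ Xσ ∧ x'.1 = x.1 ∧
      (x'.2.1.length + 1) + x'.2.2.length + 1 = (x.2.1.length + 1) + x.2.2.length := by
    rintro ⟨ℓ, b, a⟩ ⟨hℓ, hb, ha⟩ x' hx'
    obtain ⟨⟨b', a'⟩, hx2, rfl⟩ := Finset.mem_image.1 (Finsupp.mapDomain_support hx')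
    rcases Finset.mem_union.1 (Finsupp.support_add hx2) with h1 | h1
    · obtain ⟨b2, hb2, he⟩ := Finset.mem_image.1 (Finsupp.mapDomain_support h1)
      obtain ⟨h3, h4⟩ := ddS _ _ hb2
      rw [Prod.mk.injEq] at he
      obtain ⟨rfl, rfl⟩ := he
      refine ⟨⟨hℓ, Ch_sub h3 hb, ha⟩, rfl, ?_⟩
      dsimp only at h4 ⊢
      omega
    · have h2 := Finsupp.support_smul h1
      obtain ⟨a2, ha2, he⟩ := Finset.mem_image.1 (Finsupp.mapDomain_support h2)
      obtain ⟨h3, h4⟩ := ddS _ _ ha2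
      rw [Prod.mk.injEq] at he
      obtain ⟨rfl, rfl⟩ := he
      refine ⟨⟨hℓ, hb, Ch_sub h3 ha⟩, rfl, ?_⟩
      dsimp only at h4 ⊢
      omega
  have h0 : ODat K (Rw r U L) δ0 List.length (fun _ => N) N := by
    refine (ODat_bijOn (K := K) Fw hbij (δ := δσ K)
      (ℓ := fun x => (x.2.1.length + 1) + x.2.2.length) (g := fun _ => N)
      (δ' := δ0) (ℓ' := List.length) (g' := fun _ => N) ?_ ?_ ?_ ?_ N).1 (ODat_iff_Ex.2 hσ)
    · exact fun x hx x' hx' => (hσX x hx x' hx').1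
    · intro x hx
      rw [hδ0]
      dsimp only
      rw [hgF x hx]
    · rintro ⟨ℓ, b, a⟩ _
      unfold Fw
      rw [List.length_append, List.length_cons]
      dsimp only
      omega
    · exact fun _ _ => rfl
  set st : List α → ℕ := lst L (fun x => T + 1 - τ x) with hst
  have hstF : ∀ x ∈ Xσ, st (Fw x) = T + 1 - τ x.1 := by
    rintro ⟨ℓ, b, a⟩ ⟨hℓ, hb, ha⟩
    exact lst_eq L _ ℓ hℓ a (fun y hy => (ha.2 y hy).2.1) b
  have hbc : IsBC K (Rw r U L) (drel K L) List.length (fun _ => N) := by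
    refine ⟨?_, ?_, hlen⟩
    · rintro w ⟨hw, hwL⟩ w' hw'
      obtain ⟨h1, h2⟩ := drel_support L w w' hw'
      obtain ⟨h3, h4⟩ := ddS _ _ h1
      exact ⟨⟨Ch_sub h3 hw, h2⟩, h4, rfl⟩
    · intro w _
      have e1 : drel K L w = ext K (drel K L) K (single w 1) := (ext_single_one _ _).symm
      have e2 : ext K (drel K L) K (drel K L w) = ext K (drel K L) K (dd K w) := by
        have := ext_drel_filter (K := K) L (dd K w)
        exact this
      rw [e2, ext_drel, dd_dd, Finsupp.filter_zero]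
  refine ODat_perturb (K := K) (δ := drel K L) (δ0 := δ0) st hbc ?_ ?_ h0
  · intro w hw w' hw'
    obtain ⟨x, hx, rfl⟩ := hbij.surjOn hw
    rw [hδ0] at hw'
    dsimp only at hw'
    rw [hgF x hx] at hw'
    obtain ⟨x', hx', rfl⟩ := Finset.mem_image.1 (Finsupp.mapDomain_support hw')
    obtain ⟨h1, h2, h3⟩ := hσX x hx x' hx'
    refine ⟨hbij.mapsTo h1, ?_, rfl, ?_⟩
    · obtain ⟨ℓ, b, a⟩ := x
      obtain ⟨ℓ', b', a'⟩ := x'
      unfold Fw
      rw [List.length_append, List.length_cons, List.length_append, List.length_cons]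
      dsimp only at h3 ⊢
      omega
    · rw [hstF x hx, hstF x' h1, h2]
  · intro w hw w' hw'
    obtain ⟨x, hx, rfl⟩ := hbij.surjOn hw
    have hx0 := hx
    obtain ⟨ℓ, b, a⟩ := x
    obtain ⟨hℓ, hb, ha⟩ := hx
    have e1 : drel K L (Fw (ℓ, (b, a))) - δ0 (Fw (ℓ, (b, a))) =
        (single (b ++ a) ((-1 : K) ^ b.length)).filter (fun w' => ∃ x ∈ w', x ∈ L) := by
      rw [hδ0]
      dsimp only
      rw [hgF _ hx0]
      unfold drel
      rw [dd_Fw, Finsupp.filter_add]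
      have e2 : ((δσ K (ℓ, (b, a))).mapDomain Fw).filter (fun w' => ∃ x ∈ w', x ∈ L) =
          (δσ K (ℓ, (b, a))).mapDomain Fw := by
        rw [Finsupp.filter_eq_self_iff]
        intro v hv
        obtain ⟨x', hx', rfl⟩ := Finset.mem_image.1
          (Finsupp.mapDomain_support (Finsupp.mem_support_iff.2 hv))
        obtain ⟨h1, h2, h3⟩ := hσX _ hx0 x' hx'
        exact ⟨x'.1, by unfold Fw; simp, h1.1⟩
      rw [e2]
      abel
    rw [e1, Finsupp.support_filter, Finset.mem_filter] at hw'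
    obtain ⟨h1, h2⟩ := hw'
    have h3 := Finset.mem_singleton.1 (Finsupp.support_single_subset h1)
    subst h3
    rw [hstF _ hx0]
    obtain ⟨y, hy, hyL⟩ := h2
    have hyb : ∃ x ∈ b, x ∈ L := by
      rcases List.mem_append.1 hy with hy | hy
      · exact ⟨y, hy, hyL⟩
      · exact absurd hyL (ha.2 y hy).2.1
    obtain ⟨b', ℓ', b'', rfl, hℓ', hb''⟩ := lst_split L b hyb
    have e3 : st (b' ++ ℓ' :: b'' ++ a) = T + 1 - τ ℓ' := by
      have e4 : b' ++ ℓ' :: b'' ++ a = b' ++ ℓ' :: (b'' ++ a) := by simp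
      rw [e4]
      refine lst_eq L _ ℓ' hℓ' _ ?_ b'
      intro y hy
      rcases List.mem_append.1 hy with hy | hy
      · exact hb'' y hy
      · exact (ha.2 y hy).2.1
    rw [e3]
    have h5 := (hb.2 ℓ' (by simp)).2
    have h6 := hτ ℓ hℓ ℓ' hℓ' h5
    have h7 := hT ℓ' hℓ'
    dsimp only
    omega

end MP7ea278
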