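import Pool.Agent.Lib.MP_7ea278_ag.Fp.Cls4

/-!
Relaxation of a circuit-hyperplane.
-/

namespace MP7ea278

/-- A permutation which puts the elements of a set first. -/
theorem exists_perm_first {n : ℕ} (h : Fin n → ℕ) :
    ∃ (σ : Equiv.Perm (Fin n)) (m : ℕ), m ≤ n ∧ ∀ t, h (σ t) = 1 ↔ t.val < m := by
  classical
  set m := Fintype.card {i : Fin n // h i = 1} with hm
  have hmn : m ≤ n := by
    have := Fintype.card_subtype_le (fun i : Fin n => h i = 1)
    rwa [Fintype.card_fin] at this
  have e : {t : Fin n // t.val < m} ≃ {i : Fin n // h i = 1} :=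
    Fintype.equivOfCardEq (by rw [Fintype.card_fin_lt_of_le hmn])
  refine ⟨e.extendSubtype, m, hmn, fun t => ⟨fun ht => ?_, fun ht => e.extendSubtype_mem t ht⟩⟩
  by_contra hno
  exact e.extendSubtype_not_mem t hno ht

/-- The corner at a vertex of a hypersimplex. -/
theorem TV_corner {K : Type} [CommRing K] [Nontrivial K] {n : ℕ} (h : Fin n → ℕ)
    (h01 : ∀ i, h i ≤ 1) (C : Set (Fin n → ℤ))
    (hC : ∀ u : Fin n → ℤ, u ∈ C ↔ (∀ i, 0 ≤ u i ∧ u i ≤ 1) ∧ ∑ i, u i = ∑ i, (h i : ℤ) ∧
      ∑ i, (h i : ℤ) - 1 ≤ ∑ i, (h i : ℤ) * u i) : TV K (dg n) (Sg C) := by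
  obtain ⟨σ, m, hmn, hσ⟩ := exists_perm_first h
  set d : ℤ := ∑ i, (h i : ℤ) with hd
  have hfull : ∀ u : Fin n → ℤ, isum σ u 0 n = ∑ i, u i := by
    intro u
    rw [isum]
    have : Finset.univ.filter (fun t : Fin n => 0 ≤ t.val ∧ t.val < n) = Finset.univ := by
      ext t
      simp
    rw [this]
    exact Equiv.sum_comp σ u
  have hpart : ∀ u : Fin n → ℤ, isum σ u 0 m = ∑ i, (h i : ℤ) * u i := by
    intro u
    rw [← Equiv.sum_comp σ (fun i => (h i : ℤ) * u i), isum, Finset.sum_filter]
    refine Finset.sum_congr rfl fun t _ => ?_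
    by_cases ht : t.val < m
    · rw [if_pos ⟨Nat.zero_le _, ht⟩, (hσ t).2 ht]
      simp
    · rw [if_neg fun hh => ht hh.2]
      have h1 : h (σ t) ≠ 1 := fun hh => ht ((hσ t).1 hh)
      have h2 := h01 (σ t)
      have h3 : h (σ t) = 0 := by omega
      rw [h3]
      simp
  have hone : ∀ (u : Fin n → ℤ) (t : Fin n), isum σ u t.val (t.val + 1) = u (σ t) := by
    intro u t
    rw [isum]
    have : Finset.univ.filter (fun s : Fin n => t.val ≤ s.val ∧ s.val < t.val + 1) = {t} := by
      ext s
      simp only [Finset.mem_filter, Finset.mem_univ, true_and, Finset.mem_singleton, Fin.ext_iff]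
      omega
    rw [this, Finset.sum_singleton]
  have hbd : ∀ (u : Fin n → ℤ), (∀ i, 0 ≤ u i ∧ u i ≤ 1) → ∀ i j : ℕ,
      0 ≤ isum σ u i j ∧ isum σ u i j ≤ n := by
    intro u hu i j
    rw [isum]
    constructor
    · exact Finset.sum_nonneg fun t _ => (hu _).1
    · refine le_trans (Finset.sum_le_card_nsmul _ _ 1 fun t _ => (hu _).2) ?_
      rw [nsmul_eq_mul, mul_one]
      have := Finset.card_filter_le (Finset.univ : Finset (Fin n))
        (fun t : Fin n => i ≤ t.val ∧ t.val < j)
      rw [Finset.card_univ, Fintype.card_fin] at this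
      exact_mod_cast this
  set LO : ℕ → ℕ → ℤ := fun i j => max (if i = 0 ∧ j = m then d - 1 else 0)
    (if i = 0 ∧ j = n then d else 0) with hLO
  set HI : ℕ → ℕ → ℤ := fun i j => min (if j = i + 1 then 1 else (n : ℤ))
    (if i = 0 ∧ j = n then d else (n : ℤ)) with hHI
  refine TV_Sg_of_interval n σ LO HI C ?_
  ext u
  rw [hC]
  constructor
  · rintro ⟨hu, hs, hp⟩ i j hij hj
    obtain ⟨b1, b2⟩ := hbd u hu i j
    simp only [hLO, hHI, max_le_iff, le_min_iff]
    refine ⟨⟨?_, ?_⟩, ⟨?_, ?_⟩⟩
    · split_ifs with hc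
      · rw [hc.1, hc.2, hpart]
        exact hp
      · exact b1
    · split_ifs with hc
      · rw [hc.1, hc.2, hfull, hs]
      · exact b1
    · split_ifs with hc
      · subst hc
        have h1 := hone u ⟨i, by omega⟩
        simp only at h1
        rw [h1]
        exact (hu _).2
      · exact b2
    · split_ifs with hc
      · rw [hc.1, hc.2, hfull, hs]
      · exact b2
  · intro hu
    have hsum : ∑ i, u i = d := by
      obtain ⟨q1, q2⟩ := hu 0 n (Nat.zero_le _) le_rfl
      have q3 : d ≤ LO 0 n := by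
        simp only [hLO, and_self, if_true]
        exact le_max_right _ _
      have q4 : HI 0 n ≤ d := by
        simp only [hHI, and_self, if_true]
        exact min_le_right _ _
      rw [hfull] at q1 q2
      exact le_antisymm (q2.trans q4) (q3.trans q1)
    refine ⟨fun i => ?_, hsum, ?_⟩
    · have hlt := (σ.symm i).isLt
      obtain ⟨q1, q2⟩ := hu (σ.symm i).val ((σ.symm i).val + 1) (by omega) (by omega)
      rw [hone, Equiv.apply_symm_apply] at q1 q2
      have h5 : (0 : ℤ) ≤ d := Finset.sum_nonneg fun i _ => Int.natCast_nonneg _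
      constructor
      · have q3 : 0 ≤ LO (σ.symm i).val ((σ.symm i).val + 1) := by
          refine le_trans ?_ (le_max_right _ _)
          split_ifs
          · exact h5
          · exact le_rfl
        exact q3.trans q1
      · have q3 : HI (σ.symm i).val ((σ.symm i).val + 1) ≤ 1 := by
          refine le_trans (min_le_left _ _) ?_
          rw [if_pos rfl]
        exact q2.trans q3
    · obtain ⟨q1, q2⟩ := hu 0 m (Nat.zero_le _) hmn
      have q3 : d - 1 ≤ LO 0 m := by
        refine le_trans ?_ (le_max_left _ _)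
        rw [if_pos ⟨rfl, rfl⟩]
      rw [hpart] at q1
      exact q3.trans q1

end MP7ea278
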