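import Pool.Agent.Lib.MP_7ea278_ag.Fp.Relax

/-!
Relaxation of a circuit-hyperplane, continued.
-/

namespace MP7ea278

theorem rlx_eq {n : ℕ} {c b : Fin n → ℕ} (hcb : ∀ i, c i ≤ b i) (hs : ∑ i, b i = ∑ i, c i) :
    b = c := by
  have h1 := (Finset.sum_eq_sum_iff_of_le (s := Finset.univ) (fun i _ => hcb i)).1 hs.symm
  funext i
  exact (h1 i (Finset.mem_univ i)).symm

theorem rlx_full {n : ℕ} {h b : Fin n → ℕ} (h01 : ∀ i, h i ≤ 1) (b01 : ∀ i, b i ≤ 1)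
    (hs : ∑ i, b i = ∑ i, h i) (hp : ∑ i, (h i : ℤ) ≤ ∑ i, (h i : ℤ) * (b i : ℤ)) : b = h := by
  have h1 : ∀ i ∈ Finset.univ, (h i : ℤ) * (b i : ℤ) ≤ (h i : ℤ) := by
    intro i _
    have h2 : (b i : ℤ) ≤ 1 := by exact_mod_cast b01 i
    have h3 : (0 : ℤ) ≤ (h i : ℤ) := Int.natCast_nonneg _
    nlinarith
  have h2 : ∑ i, (h i : ℤ) * (b i : ℤ) = ∑ i, (h i : ℤ) := le_antisymm (Finset.sum_le_sum h1) hp
  have h3 := (Finset.sum_eq_sum_iff_of_le h1).1 h2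
  refine rlx_eq (fun i => ?_) hs
  rcases Nat.eq_zero_or_pos (h i) with h4 | h4
  · rw [h4]
    exact Nat.zero_le _
  · have h6 := h3 i (Finset.mem_univ i)
    have h7 : (h i : ℤ) ≠ 0 := by
      have : h i ≠ 0 := by omega
      exact_mod_cast this
    have h8 : (b i : ℤ) = 1 := mul_left_cancel₀ h7 (by rw [h6, mul_one])
    have h9 : b i = 1 := by exact_mod_cast h8
    have h10 := h01 i
    omega

theorem rlx_exists {n : ℕ} {h b : Fin n → ℕ} (h01 : ∀ i, h i ≤ 1) (b01 : ∀ i, b i ≤ 1)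
    (hp : ∑ i, (h i : ℤ) * (b i : ℤ) < ∑ i, (h i : ℤ)) : ∃ i, h i = 1 ∧ b i = 0 := by
  by_contra hno
  push Not at hno
  refine absurd hp (not_lt.2 (Finset.sum_le_sum fun i _ => ?_))
  rcases Nat.eq_zero_or_pos (h i) with h4 | h4
  · rw [h4]
    simp
  · have h5 : h i = 1 := by
      have := h01 i
      omega
    have h6 := hno i h5
    have h7 := b01 i
    have h8 : b i = 1 := by omega
    rw [h5, h8]
    simp

theorem rlx_exists' {n : ℕ} {h b : Fin n → ℕ} (h01 : ∀ i, h i ≤ 1) (b01 : ∀ i, b i ≤ 1)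
    (hp : ∑ i, (h i : ℤ) * (b i : ℤ) < ∑ i, (b i : ℤ)) : ∃ j, h j = 0 ∧ b j = 1 := by
  obtain ⟨j, h1, h2⟩ := rlx_exists (h := b) (b := h) b01 h01 (by
    refine lt_of_le_of_lt (le_of_eq (Finset.sum_congr rfl fun i _ => ?_)) hp
    ring)
  exact ⟨j, h2, h1⟩

/-- The vertices of the corner. -/
theorem rlx_near {n : ℕ} {h b : Fin n → ℕ} (h01 : ∀ i, h i ≤ 1) (b01 : ∀ i, b i ≤ 1)
    (hs : ∑ i, b i = ∑ i, h i)
    (hp : ∑ i, (h i : ℤ) * (b i : ℤ) = ∑ i, (h i : ℤ) - 1) :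
    ∃ i j, h i = 1 ∧ h j = 0 ∧ b i = 0 ∧ b j = 1 ∧
      ∀ k, k ≠ i → h k = 1 → b k = 1 := by
  obtain ⟨i, hi, hbi⟩ := rlx_exists h01 b01 (by rw [hp]; omega)
  have hs' : ∑ i, (b i : ℤ) = ∑ i, (h i : ℤ) := by exact_mod_cast hs
  obtain ⟨j, hj, hbj⟩ := rlx_exists' h01 b01 (by rw [hp, hs']; omega)
  refine ⟨i, j, hi, hj, hbi, hbj, fun k hki hk => ?_⟩
  by_contra hno
  have hbk : b k = 0 := by
    have := b01 k
    omega
  have h1 : ∑ l, (h l : ℤ) - ∑ l, (h l : ℤ) * (b l : ℤ) = ∑ l, (h l : ℤ) * (1 - (b l : ℤ)) := by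
    rw [← Finset.sum_sub_distrib]
    refine Finset.sum_congr rfl fun l _ => ?_
    ring
  have h2 : ∑ l ∈ ({i, k} : Finset (Fin n)), (h l : ℤ) * (1 - (b l : ℤ)) ≤
      ∑ l, (h l : ℤ) * (1 - (b l : ℤ)) := by
    refine Finset.sum_le_sum_of_subset_of_nonneg (Finset.subset_univ _) fun l _ _ => ?_
    refine mul_nonneg (Int.natCast_nonneg _) ?_
    have : (b l : ℤ) ≤ 1 := by exact_mod_cast b01 l
    omega
  rw [Finset.sum_pair hki.symm, hi, hk, hbi, hbk] at h2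
  norm_num at h2
  omega

end MP7ea278
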