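import Pool.Agent.Lib.MP_7ea278_ag.Fp.Relax2

/-!
Relaxation of a circuit-hyperplane: the invariant.
-/

namespace MP7ea278

private theorem wsingle {n : ℕ} (h : Fin n → ℤ) (i : Fin n) :
    ∑ k, h k * (Pi.single i (1 : ℤ) : Fin n → ℤ) k = h i := by
  simp [Pi.single_apply]

private theorem wexch {n : ℕ} (h u : Fin n → ℤ) (i j : Fin n) :
    ∑ k, h k * (u - Pi.single i 1 + Pi.single j 1 : Fin n → ℤ) k =
      ∑ k, h k * u k - h i + h j := by
  have h1 : ∑ k, h k * (u - Pi.single i 1 + Pi.single j 1 : Fin n → ℤ) k =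
      ∑ k, h k * u k - ∑ k, h k * (Pi.single i (1 : ℤ) : Fin n → ℤ) k +
        ∑ k, h k * (Pi.single j (1 : ℤ) : Fin n → ℤ) k := by
    rw [← Finset.sum_sub_distrib, ← Finset.sum_add_distrib]
    refine Finset.sum_congr rfl fun k _ => ?_
    simp only [Pi.add_apply, Pi.sub_apply]
    ring
  rw [h1, wsingle, wsingle]

/-- Relaxation of a circuit-hyperplane. -/
theorem Inv_relax {K : Type} [CommRing K] [Nontrivial K] {n : ℕ} {B : Set (Fin n → ℕ)}
    (hB : Inv K B) (h : Fin n → ℕ)
    (hM : ∃ P : Finset (Fin n → ℕ), IsDPM P ∧ (∀ u ∈ P, ∀ i, u i ≤ 1) ∧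
      (bases P : Set (Fin n → ℕ)) = insert h B)
    (hN : ∀ i j, h i = 1 → h j = 0 → Function.update (Function.update h i 0) j 1 ∈ B) :
    Inv K (insert h B) := by
  by_cases hh : h ∈ B
  · rw [Set.insert_eq_of_mem hh]
    exact hB
  obtain ⟨P, hP, hP01, hPB⟩ := hM
  obtain ⟨e1, ⟨d, e2⟩, e3⟩ := mat_facts hP hP01
  rw [hPB] at e3
  have f1 : ∀ b ∈ insert h B, ∀ i, b i ≤ 1 := by
    rw [← hPB]
    exact e1
  have f2 : ∀ b ∈ insert h B, ∑ i, b i = d := by
    rw [← hPB]
    exact e2
  have hself : h ∈ insert h B := Set.mem_insert h B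
  have h01 := f1 h hself
  have hd := f2 h hself
  have hdZ : ∑ i, (h i : ℤ) = (d : ℤ) := by exact_mod_cast hd
  have hhh : ∑ i, (h i : ℤ) * (h i : ℤ) = (d : ℤ) := by
    rw [← hdZ]
    refine Finset.sum_congr rfl fun i _ => ?_
    have h2 := h01 i
    have h3 : h i = 0 ∨ h i = 1 := by omega
    rcases h3 with h3 | h3
    · rw [h3]
      simp
    · rw [h3]
      simp
  have hlt : ∀ b ∈ B, ∑ i, (h i : ℤ) * (b i : ℤ) < (d : ℤ) := by
    intro b hb
    by_contra hno
    push Not at hno
    have hbi : b ∈ insert h B := Set.mem_insert_of_mem h hb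
    have := rlx_full h01 (f1 b hbi) (by rw [f2 b hbi, hd]) (by rw [hdZ]; exact hno)
    rw [this] at hb
    exact hh hb
  refine Inv_cut f1 d f2 (fun i => (h i : ℤ)) ((d : ℤ) - 1) ?_ ?_ ?_
  · intro a ha b hb ha1 hb1
    have hah : a = h := by
      rcases ha with rfl | ha
      · rfl
      · have := hlt a ha
        omega
    subst hah
    obtain ⟨i, hi, hbi⟩ := rlx_exists h01 (f1 b hb) (by rw [hdZ]; omega)
    obtain ⟨j, hj, ⟨a', ha', hca⟩, ⟨b', hb', hcb⟩⟩ := e3 (castZ a) ⟨a, ha, rfl⟩ (castZ b)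
      ⟨b, hb, rfl⟩ i (by
        simp only [castZ, hi, hbi]
        norm_num)
    have hj0 : a j = 0 := by
      simp only [castZ] at hj
      have h1 := f1 b hb j
      have h2 : (b j : ℤ) ≤ 1 := by exact_mod_cast h1
      have h3 : (a j : ℤ) < 1 := by omega
      have h4 : a j < 1 := by exact_mod_cast h3
      omega
    have hZ : castZ a + castZ b = castZ a' + castZ b' := by
      rw [hca, hcb]
      abel
    have s1 : ∑ k, (a k : ℤ) * (a' k : ℤ) = (d : ℤ) - 1 := by
      change ∑ k, (a k : ℤ) * castZ a' k = _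
      rw [hca, wexch (fun k => (a k : ℤ)) (castZ a) i j]
      change ∑ k, (a k : ℤ) * (a k : ℤ) - (a i : ℤ) + (a j : ℤ) = _
      rw [hhh, hi, hj0]
      norm_num
    have s2 : ∑ k, (a k : ℤ) * (b' k : ℤ) = ∑ k, (a k : ℤ) * (b k : ℤ) + 1 := by
      change ∑ k, (a k : ℤ) * castZ b' k = _
      have e4 : castZ b + Pi.single i 1 - Pi.single j 1 =
          castZ b - Pi.single j 1 + Pi.single i 1 := by abel
      rw [hcb, e4, wexch (fun k => (a k : ℤ)) (castZ b) j i]
      change ∑ k, (a k : ℤ) * (b k : ℤ) - (a j : ℤ) + (a i : ℤ) = _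
      rw [hi, hj0]
      norm_num
    refine ⟨a', ha', b', hb', ?_, Or.inr ⟨by rw [s1], by rw [s2]; omega⟩⟩
    funext k
    have := congrFun hZ k
    simp only [castZ, Pi.add_apply] at this
    simp only [Pi.add_apply]
    exact_mod_cast this
  · refine ⟨fun b hb => f1 b hb.1, ⟨d, fun b hb => f2 b hb.1⟩, TV_corner h h01 _ ?_⟩
    intro u
    rw [hdZ]
    constructor
    · rintro ⟨b, ⟨hb, hb'⟩, rfl⟩
      refine ⟨(castZ_01 b).2 (f1 b hb), (castZ_sum b d).2 (f2 b hb), hb'⟩
    · rintro ⟨hu, hs, hp⟩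
      obtain ⟨b, rfl⟩ := exists_castZ fun i => (hu i).1
      have b01 := (castZ_01 b).1 hu
      have bs := (castZ_sum b d).1 hs
      refine ⟨b, ⟨?_, hp⟩, rfl⟩
      by_cases hfull : (d : ℤ) ≤ ∑ i, (h i : ℤ) * (b i : ℤ)
      · rw [rlx_full h01 b01 (by rw [bs, hd]) (by rw [hdZ]; exact hfull)]
        exact hself
      · have hp' : ∑ i, (h i : ℤ) * (b i : ℤ) = ∑ i, (h i : ℤ) - 1 := by
          rw [hdZ]
          have hp2 : (d : ℤ) - 1 ≤ ∑ i, (h i : ℤ) * (b i : ℤ) := hp
          omega
        obtain ⟨i, j, hi, hj, hbi, hbj, hk⟩ := rlx_near h01 b01 (by rw [bs, hd]) hp'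
        have hc := Set.mem_insert_of_mem h (hN i j hi hj)
        have hbc : b = Function.update (Function.update h i 0) j 1 := by
          refine rlx_eq (fun k => ?_) (by rw [bs, f2 _ hc])
          by_cases hkj : k = j
          · rw [hkj, Function.update_self, hbj]
          · rw [Function.update_of_ne hkj]
            by_cases hki : k = i
            · rw [hki, Function.update_self]
              exact Nat.zero_le _
            · rw [Function.update_of_ne hki]
              have h2 := h01 k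
              rcases Nat.eq_zero_or_pos (h k) with h4 | h4
              · rw [h4]
                exact Nat.zero_le _
              · rw [hk k hki (by omega)]
                exact h2
        rw [hbc]
        exact hc
  · have heq : {b : Fin n → ℕ | b ∈ insert h B ∧ ∑ i, (h i : ℤ) * (b i : ℤ) ≤ (d : ℤ) - 1} =
        B := by
      ext b
      constructor
      · rintro ⟨hb | hb, hb'⟩
        · rw [hb, hhh] at hb'
          omega
        · exact hb
      · intro hb
        have := hlt b hb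
        exact ⟨Set.mem_insert_of_mem h hb, by omega⟩
    rw [heq]
    exact hB

end MP7ea278
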