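import Pool.Agent.Lib.MP_7ea278_ag.Kunneth
import Pool.Agent.Lib.MP_7ea278_ag.Transport
import Pool.Agent.Lib.MP_7ea278_ag.Perturb
import Pool.Agent.Lib.MP_7ea278_ag.Retract

/-!
Chains in partially ordered sets: reduced homology concentrated in the top degree.
-/

namespace MP7ea278

open Finsupp

variable {K : Type} [CommRing K] {α β : Type}

/-- The deletion differential. -/
noncomputable def dd (K : Type) [CommRing K] {α : Type} : List α → (List α →₀ K)
  | [] => 0
  | a :: w => single w 1 - (dd K w).mapDomain (List.cons a)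

/-- Chains for the relation `r` (smaller elements come later). -/
def Ch (r : α → α → Prop) (U : Set α) : Set (List α) :=
  {w | w.Pairwise (fun a b => r b a) ∧ ∀ x ∈ w, x ∈ U}

/-- Exactness at length `k`, all coefficients. -/
def Ex (K : Type) [CommRing K] {Ω : Type} (X : Set Ω) (δ : Ω → Ω →₀ K) (ℓ : Ω → ℕ) (k : ℕ) :
    Prop :=
  ∀ (U : Type) [AddCommGroup U] [Module K U], ∀ z ∈ Finsupp.supported U K {ω | ω ∈ X ∧ ℓ ω = k},
    ext K δ U z = 0 → ∃ y ∈ Finsupp.supported U K {ω | ω ∈ X ∧ ℓ ω = k + 1}, ext K δ U y = z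

theorem ODat_iff_Ex {Ω : Type} {X : Set Ω} {δ : Ω → Ω →₀ K} {ℓ : Ω → ℕ} {N : ℕ} :
    ODat K X δ ℓ (fun _ => N) N ↔ ∀ k, k ≠ N → Ex K X δ ℓ k := by
  have h : ∀ k, Hom X ℓ (fun _ => N) k N = {ω | ω ∈ X ∧ ℓ ω = k} := by
    intro k
    ext ω
    exact ⟨fun h => ⟨h.1, h.2.1⟩, fun h => ⟨h.1, h.2, rfl⟩⟩
  constructor
  · intro H k hk U _ _ z hz hdz
    rw [← h] at hz
    obtain ⟨y, hy, hyz⟩ := H U k hk z hz hdz
    rw [h] at hy
    exact ⟨y, hy, hyz⟩
  · intro H U _ _ k hk z hz hdz
    rw [h] at hz
    obtain ⟨y, hy, hyz⟩ := H k hk U z hz hdz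
    rw [← h] at hy
    exact ⟨y, hy, hyz⟩

theorem ddS : ∀ w : List α, ∀ w' ∈ (dd K w).support, w'.Sublist w ∧ w'.length + 1 = w.length := by
  classical
  intro w
  induction w with
  | nil => intro w' hw'; simp [dd] at hw'
  | cons a v ih =>
    intro w' hw'
    rcases Finset.mem_union.1 (Finsupp.support_sub hw') with h | h
    · have h1 := Finset.mem_singleton.1 (Finsupp.support_single_subset h)
      subst h1
      exact ⟨List.sublist_cons_self _ _, by simp⟩
    · obtain ⟨v', hv', rfl⟩ := Finset.mem_image.1 (Finsupp.mapDomain_support h)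
      obtain ⟨h1, h2⟩ := ih v' hv'
      exact ⟨h1.cons_cons a, by simp [h2]⟩

theorem dd_dd (w : List α) : ext K (dd K) K (dd K w) = 0 := by
  induction w with
  | nil => simp [dd]
  | cons a v ih =>
    have e1 : dd K (a :: v) = single v 1 - (dd K v).mapDomain (List.cons a) := rfl
    rw [e1, map_sub, ext_single_one, ext_mapDomain]
    have e2 : (fun ω : List α => dd K (a :: ω)) =
        fun ω => single ω 1 - (dd K ω).mapDomain (List.cons a) := rfl
    rw [e2, ext_sub_fun, ← mapDomain_ext, ih, Finsupp.mapDomain_zero, sub_zero]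
    have e3 : ext K (fun ω : List α => single ω (1 : K)) K (dd K v) = dd K v := by
      have := ext_single_fun (K := K) K (fun ω : List α => ω) (dd K v)
      rw [this]
      exact Finsupp.mapDomain_id
    rw [e3, sub_self]

theorem Ch_sub {r : α → α → Prop} {U : Set α} {w w' : List α} (h : w'.Sublist w)
    (hw : w ∈ Ch r U) : w' ∈ Ch r U :=
  ⟨hw.1.sublist h, fun x hx => hw.2 x (h.subset hx)⟩

theorem Ch_mono {r : α → α → Prop} {U V : Set α} (h : V ⊆ U) : Ch r V ⊆ Ch r U :=
  fun _ hw => ⟨hw.1, fun x hx => h (hw.2 x hx)⟩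

theorem Ch_isBC (r : α → α → Prop) (U : Set α) (N : ℕ) (hN : ∀ w ∈ Ch r U, w.length ≤ N) :
    IsBC K (Ch r U) (dd K) List.length (fun _ => N) where
  maps := fun w hw w' hw' => ⟨Ch_sub (ddS w w' hw').1 hw, (ddS w w' hw').2, rfl⟩
  sq := fun w _ => dd_dd w
  le := hN

/-- Spherical: chains have length at most `N`, and the augmented chain complex is exact except at
length `N`. -/
def Sph (K : Type) [CommRing K] (r : α → α → Prop) (U : Set α) (N : ℕ) : Prop :=
  (∀ w ∈ Ch r U, w.length ≤ N) ∧ ∀ k, k ≠ N → Ex K (Ch r U) (dd K) List.length k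

theorem dd_dd' {U : Type} [AddCommGroup U] [Module K U] (z : List α →₀ U) :
    ext K (dd K) U (ext K (dd K) U z) = 0 := by
  rw [ext_ext]
  have : (fun ω : List α => ext K (dd K) K (dd K ω)) = fun _ => 0 := by
    funext ω
    exact dd_dd ω
  rw [this, ext_zero_fun]

theorem Ex_of_homotopy {Ω : Type} {X : Set Ω} {δ : Ω → Ω →₀ K} {ℓ : Ω → ℕ} (h : Ω → Ω →₀ K)
    (hid : ∀ ω ∈ X, ext K δ K (h ω) + ext K h K (δ ω) = single ω 1)
    (hmem : ∀ ω ∈ X, ∀ ω' ∈ (h ω).support, ω' ∈ X ∧ ℓ ω' = ℓ ω + 1) (k : ℕ) :
    Ex K X δ ℓ k := by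
  intro U _ _ z hz hdz
  refine ⟨ext K h U z, ?_, ?_⟩
  · refine ext_mem_supported h U (X := {ω | ω ∈ X ∧ ℓ ω = k}) ?_ hz
    rintro ω ⟨h1, h2⟩ ω' hω'
    obtain ⟨h3, h4⟩ := hmem ω h1 ω' hω'
    exact ⟨h3, by rw [h4, h2]⟩
  · have e1 : ext K δ U (ext K h U z) + ext K h U (ext K δ U z) = z := by
      rw [ext_ext, ext_ext, ← ext_add_fun]
      have hzX : z ∈ Finsupp.supported U K X := Finsupp.supported_mono (fun ω h => h.1) hz
      rw [ext_congr _ U (φ' := fun ω => single ω 1) (X := X) (fun ω hω => hid ω hω) hzX]
      have := ext_single_fun (K := K) U (fun ω : Ω => ω) z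
      rw [this]
      exact Finsupp.mapDomain_id
    rw [hdz, map_zero, add_zero] at e1
    exact e1

/-- A greatest element. -/
theorem Ex_top {r : α → α → Prop} (htr : ∀ a b c, r a b → r b c → r a c) (hirr : ∀ a, ¬ r a a)
    {U : Set α} {c : α} (hc : c ∈ U) (htop : ∀ u ∈ U, u ≠ c → r u c) (k : ℕ) :
    Ex K (Ch r U) (dd K) List.length k := by
  classical
  refine Ex_of_homotopy (fun w => if w.head? = some c then 0 else single (c :: w) 1) ?_ ?_ k
  · intro w hw
    cases w with
    | nil =>
      have e1 : dd K ([] : List α) = 0 := rfl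
      rw [e1, map_zero, add_zero, if_neg (by simp), ext_single_one]
      have e2 : dd K [c] = single [] 1 - (dd K []).mapDomain (List.cons c) := rfl
      rw [e2, e1, Finsupp.mapDomain_zero, sub_zero]
    | cons a v =>
      have hv : v ∈ Ch r U := Ch_sub (List.sublist_cons_self _ _) hw
      have e0 : dd K (a :: v) = single v 1 - (dd K v).mapDomain (List.cons a) := rfl
      by_cases hac : a = c
      · subst hac
        rw [if_pos (by simp), map_zero, zero_add, e0, map_sub, ext_single_one, ext_mapDomain]
        have e1 : ext K (fun ω : List α => if (a :: ω).head? = some a then (0 : List α →₀ K)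
            else single (a :: a :: ω) 1) K (dd K v) = 0 := by
          have : (fun ω : List α => if (a :: ω).head? = some a then (0 : List α →₀ K)
            else single (a :: a :: ω) 1) = fun _ => 0 := by
            funext ω
            simp
          rw [this, ext_zero_fun]
        rw [e1, sub_zero, if_neg]
        intro h
        cases v with
        | nil => simp at h
        | cons b u =>
          have hb : b = a := by simpa using h
          have h1 := List.rel_of_pairwise_cons hw.1 (List.mem_cons_self (a := b) (l := u))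
          rw [hb] at h1
          exact hirr a h1
      · have hca : c ∉ a :: v := by
          intro h
          rcases List.mem_cons.1 h with h | h
          · exact hac h.symm
          · have h1 := List.rel_of_pairwise_cons hw.1 h
            have h2 := htop a (hw.2 a List.mem_cons_self) hac
            exact hirr a (htr a c a h2 h1)
        rw [if_neg (by simpa using hac), ext_single_one]
        have e1 : dd K (c :: a :: v) = single (a :: v) 1 -
            (dd K (a :: v)).mapDomain (List.cons c) := rfl
        have e2 : ext K (fun w : List α => if w.head? = some c then (0 : List α →₀ K)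
            else single (c :: w) 1) K (dd K (a :: v)) =
            (dd K (a :: v)).mapDomain (List.cons c) := by
          rw [← ext_single_fun (K := K) K (List.cons c)]
          refine ext_congr _ K (X := {w' | c ∉ w'}) ?_ ?_
          · intro w' hw'
            rw [if_neg]
            intro h
            exact hw' (List.mem_of_mem_head? h)
          · intro w' hw' h
            exact hca ((ddS _ w' hw').1.subset h)
        rw [e1, e2, sub_add_cancel]
  · intro w hw w' hw'
    by_cases h : w.head? = some c
    · rw [if_pos h] at hw'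
      simp at hw'
    · rw [if_neg h] at hw'
      have h1 := Finset.mem_singleton.1 (Finsupp.support_single_subset hw')
      subst h1
      refine ⟨⟨List.pairwise_cons.2 ⟨?_, hw.1⟩, ?_⟩, by simp⟩
      · intro u hu
        refine htop u (hw.2 u hu) ?_
        rintro rfl
        cases w with
        | nil => exact absurd hu (List.not_mem_nil)
        | cons b v =>
          rcases List.mem_cons.1 hu with h2 | h2
          · exact h (by simp [h2])
          · have h3 := List.rel_of_pairwise_cons hw.1 h2
            have hbc : b ≠ u := by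
              intro h4
              exact h (by simp [h4])
            exact hirr b (htr b u b (htop b (hw.2 b List.mem_cons_self) hbc) h3)
      · intro x hx
        rcases List.mem_cons.1 hx with rfl | hx
        · exact hc
        · exact hw.2 x hx

theorem md_neg {Ω Ω' U : Type} [AddCommGroup U] (f : Ω → Ω') (x : Ω →₀ U) :
    Finsupp.mapDomain f (-x) = - Finsupp.mapDomain f x :=
  map_neg (Finsupp.mapDomain.addMonoidHom f) x

theorem md_sub {Ω Ω' U : Type} [AddCommGroup U] (f : Ω → Ω') (x y : Ω →₀ U) :
    Finsupp.mapDomain f (x - y) = Finsupp.mapDomain f x - Finsupp.mapDomain f y :=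
  map_sub (Finsupp.mapDomain.addMonoidHom f) x y

theorem dd_append (u v : List α) : dd K (u ++ v) =
    (dd K u).mapDomain (fun x => x ++ v) + ((-1 : K) ^ u.length) •
      (dd K v).mapDomain (fun x => u ++ x) := by
  induction u with
  | nil =>
    have e1 : dd K ([] : List α) = 0 := rfl
    rw [e1, Finsupp.mapDomain_zero, zero_add]
    simp only [List.nil_append, List.length_nil, pow_zero, one_smul]
    exact Finsupp.mapDomain_id.symm
  | cons a u ih =>
    have e1 : dd K (a :: u ++ v) = single (u ++ v) 1 -
        (dd K (u ++ v)).mapDomain (List.cons a) := rfl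
    have e2 : dd K (a :: u) = single u 1 - (dd K u).mapDomain (List.cons a) := rfl
    rw [e1, e2, ih, md_sub, Finsupp.mapDomain_add, Finsupp.mapDomain_single,
      Finsupp.mapDomain_smul, ← Finsupp.mapDomain_comp, ← Finsupp.mapDomain_comp,
      ← Finsupp.mapDomain_comp]
    have e3 : (List.cons a ∘ fun x => x ++ v) = ((fun x => x ++ v) ∘ List.cons a) := rfl
    have e4 : (List.cons a ∘ fun x => u ++ x) = fun x => a :: u ++ x := rfl
    rw [e3, e4, List.length_cons, pow_succ, mul_neg_one, neg_smul]
    abel

end MP7ea278
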