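import Pool.Agent.Lib.MP_7ea278_ag.Fp.Sph

/-!
Least elements, order isomorphisms.
-/

namespace MP7ea278

open Finsupp

variable {K : Type} [CommRing K] {α β : Type}

/-- A least element. -/
theorem Ex_bot {r : α → α → Prop} (htr : ∀ a b c, r a b → r b c → r a c) (hirr : ∀ a, ¬ r a a)
    {U : Set α} {c : α} (hc : c ∈ U) (hbot : ∀ u ∈ U, u ≠ c → r c u) (k : ℕ) :
    Ex K (Ch r U) (dd K) List.length k := by
  classical
  refine Ex_of_homotopy (fun w => if c ∈ w then 0 else single (w ++ [c]) ((-1 : K) ^ w.length))
    ?_ ?_ k
  · intro w hw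
    by_cases hcw : c ∈ w
    · -- the last element is `c`
      obtain ⟨v, rfl⟩ : ∃ v, w = v ++ [c] := by
        obtain ⟨s, t, rfl⟩ := List.append_of_mem hcw
        cases t with
        | nil => exact ⟨s, rfl⟩
        | cons b t =>
          exfalso
          have h1 := (List.pairwise_append.1 hw.1).2.1
          have h2 := List.rel_of_pairwise_cons h1 (List.mem_cons_self (a := b) (l := t))
          have h3 : b ∈ U := hw.2 b (by simp)
          by_cases h4 : b = c
          · rw [h4] at h2
            exact hirr c h2
          · exact hirr b (htr b c b h2 (hbot b h3 h4))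
      have hcv : c ∉ v := by
        intro h
        have h1 := (List.pairwise_append.1 hw.1).2.2 c h c (by simp)
        exact hirr c h1
      rw [if_pos hcw, map_zero, zero_add, dd_append, map_add, map_smul, ext_mapDomain]
      have e0 : dd K [c] = single [] 1 - (dd K []).mapDomain (List.cons c) := rfl
      have e00 : dd K ([] : List α) = 0 := rfl
      have e1 : ext K (fun ω : List α => if c ∈ ω ++ [c] then (0 : List α →₀ K)
          else single (ω ++ [c] ++ [c]) ((-1 : K) ^ (ω ++ [c]).length)) K (dd K v) = 0 := by
        have : (fun ω : List α => if c ∈ ω ++ [c] then (0 : List α →₀ K)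
          else single (ω ++ [c] ++ [c]) ((-1 : K) ^ (ω ++ [c]).length)) = fun _ => 0 := by
          funext ω
          simp
        rw [this, ext_zero_fun]
      rw [e1, zero_add, e0, e00, Finsupp.mapDomain_zero, sub_zero, Finsupp.mapDomain_single,
        List.append_nil, ext_single_one, if_neg hcv, Finsupp.smul_single, smul_eq_mul,
        ← mul_pow, neg_one_mul, neg_neg, one_pow]
    · rw [if_neg hcw]
      have e0 : dd K [c] = single [] 1 - (dd K []).mapDomain (List.cons c) := rfl
      have e00 : dd K ([] : List α) = 0 := rfl
      have e1 : ext K (dd K) K (single (w ++ [c]) ((-1 : K) ^ w.length)) =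
          ((-1 : K) ^ w.length) • dd K (w ++ [c]) := by
        rw [← ext_single_one (K := K) (dd K) (w ++ [c]), ← map_smul, Finsupp.smul_single,
          smul_eq_mul, mul_one]
      have e2 : ext K (fun w : List α => if c ∈ w then (0 : List α →₀ K)
          else single (w ++ [c]) ((-1 : K) ^ w.length)) K (dd K w) =
          - (((-1 : K) ^ w.length) • (dd K w).mapDomain (fun x => x ++ [c])) := by
        rw [← ext_single_fun (K := K) K (fun x : List α => x ++ [c]), ← neg_smul,
          ← ext_smul_fun]
        refine ext_congr _ K (X := {w' | c ∉ w' ∧ w'.length + 1 = w.length}) ?_ ?_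
        · rintro w' ⟨h1, h2⟩
          rw [if_neg h1, Finsupp.smul_single, smul_eq_mul, mul_one, ← h2, pow_succ]
          congr 1
          ring
        · intro w' hw'
          obtain ⟨h1, h2⟩ := ddS _ w' hw'
          exact ⟨fun h => hcw (h1.subset h), h2⟩
      rw [e1, e2, dd_append, e0, e00, Finsupp.mapDomain_zero, sub_zero,
        Finsupp.mapDomain_single, List.append_nil, smul_add, smul_smul, ← mul_pow, neg_one_mul,
        neg_neg, one_pow, one_smul]
      abel
  · intro w hw w' hw'
    by_cases h : c ∈ w
    · rw [if_pos h] at hw'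
      simp at hw'
    · rw [if_neg h] at hw'
      have h1 := Finset.mem_singleton.1 (Finsupp.support_single_subset hw')
      subst h1
      refine ⟨⟨List.pairwise_append.2 ⟨hw.1, List.pairwise_singleton _ _, ?_⟩, ?_⟩, by simp⟩
      · intro u hu b hb
        rw [List.mem_singleton] at hb
        subst hb
        exact hbot u (hw.2 u hu) (fun h2 => h (h2 ▸ hu))
      · intro x hx
        rcases List.mem_append.1 hx with hx | hx
        · exact hw.2 x hx
        · rw [List.mem_singleton] at hx
          rw [hx]
          exact hc

theorem dd_map (f : α → β) : ∀ w : List α, (dd K w).mapDomain (List.map f) = dd K (w.map f) := by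
  intro w
  induction w with
  | nil => rfl
  | cons a w ih =>
    have e1 : dd K (a :: w) = single w 1 - (dd K w).mapDomain (List.cons a) := rfl
    have e2 : dd K ((a :: w).map f) = single (w.map f) 1 -
        (dd K (w.map f)).mapDomain (List.cons (f a)) := rfl
    rw [e1, e2, md_sub, Finsupp.mapDomain_single, ← ih, ← Finsupp.mapDomain_comp,
      ← Finsupp.mapDomain_comp]
    rfl

/-- Order isomorphisms. -/
theorem Sph_map {r : α → α → Prop} {r' : β → β → Prop} {U : Set α} (f : α → β)
    (hinj : Set.InjOn f U) (hr : ∀ a ∈ U, ∀ b ∈ U, (r' (f a) (f b) ↔ r a b)) (N : ℕ) :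
    Sph K r' (f '' U) N ↔ Sph K r U N := by
  have hbij : Set.BijOn (List.map f) (Ch r U) (Ch r' (f '' U)) := by
    refine ⟨?_, ?_, ?_⟩
    · rintro w ⟨h1, h2⟩
      refine ⟨List.pairwise_map.2 (h1.imp_of_mem ?_), ?_⟩
      · intro a b ha hb hab
        exact (hr b (h2 b hb) a (h2 a ha)).2 hab
      · intro x hx
        obtain ⟨y, hy, rfl⟩ := List.mem_map.1 hx
        exact ⟨y, h2 y hy, rfl⟩
    · intro w hw w' hw' h
      have h1 : ∀ (u v : List α), (∀ x ∈ u, x ∈ U) → (∀ x ∈ v, x ∈ U) → u.map f = v.map f →
          u = v := by
        intro u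
        induction u with
        | nil =>
          intro v _ _ h
          cases v with
          | nil => rfl
          | cons b v => simp at h
        | cons a u ih =>
          intro v hu hv h
          cases v with
          | nil => simp at h
          | cons b v =>
            rw [List.map_cons, List.map_cons, List.cons.injEq] at h
            have e1 := hinj (hu a List.mem_cons_self) (hv b List.mem_cons_self) h.1
            have e2 := ih v (fun x hx => hu x (List.mem_cons_of_mem _ hx))
              (fun x hx => hv x (List.mem_cons_of_mem _ hx)) h.2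
            rw [e1, e2]
      exact h1 w w' hw.2 hw'.2 h
    · rintro w ⟨h1, h2⟩
      have h3 : ∀ u : List β, (∀ x ∈ u, x ∈ f '' U) → ∃ v : List α, (∀ x ∈ v, x ∈ U) ∧
          v.map f = u := by
        intro u
        induction u with
        | nil => exact fun _ => ⟨[], by simp, rfl⟩
        | cons b u ih =>
          intro hu
          obtain ⟨v, hv1, hv2⟩ := ih (fun x hx => hu x (List.mem_cons_of_mem _ hx))
          obtain ⟨a, ha, hab⟩ := hu b List.mem_cons_self
          refine ⟨a :: v, ?_, by rw [List.map_cons, hab, hv2]⟩
          intro x hx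
          rcases List.mem_cons.1 hx with rfl | hx
          · exact ha
          · exact hv1 x hx
      obtain ⟨v, hv, rfl⟩ := h3 w h2
      refine ⟨v, ⟨?_, hv⟩, rfl⟩
      exact (List.pairwise_map.1 h1).imp_of_mem
        (fun {a b} ha hb hab => (hr b (hv b hb) a (hv a ha)).1 hab)
  have hO := ODat_bijOn (K := K) (List.map f) hbij (δ := dd K) (ℓ := List.length)
    (g := fun _ => N) (δ' := dd K) (ℓ' := List.length) (g' := fun _ => N)
    (fun w hw w' hw' => Ch_sub (ddS w w' hw').1 hw) (fun w _ => dd_map f w)
    (fun w _ => List.length_map f) (fun w _ => rfl) N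
  rw [ODat_iff_Ex, ODat_iff_Ex] at hO
  constructor
  · rintro ⟨h1, h2⟩
    refine ⟨fun w hw => ?_, hO.2 h2⟩
    have := h1 _ (hbij.mapsTo hw)
    rwa [List.length_map] at this
  · rintro ⟨h1, h2⟩
    refine ⟨fun w hw => ?_, hO.1 h2⟩
    obtain ⟨v, hv, rfl⟩ := hbij.surjOn hw
    rw [List.length_map]
    exact h1 v hv

end MP7ea278
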