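import Pool.Agent.Lib.MP_7ea278_ag.Fp.Wch

/-!
Truncated intervals of a semigroup graded by pairs.
-/

namespace MP7ea278

open Finsupp

variable {K : Type} [CommRing K] {M : Type} [AddCommMonoid M]

/-- Truncated interval. -/
def YY (S : Set M) (p q : M →+ ℕ) (x : M) (a c : ℕ) : Set M :=
  {t | t ∈ S ∧ ltS S t x ∧ p t ≤ a ∧ q t ≤ c}

theorem YY_swap (S : Set M) (p q : M →+ ℕ) (x : M) (a c : ℕ) :
    YY S q p x c a = YY S p q x a c := by
  ext t
  constructor
  · rintro ⟨h1, h2, h3, h4⟩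
    exact ⟨h1, h2, h4, h3⟩
  · rintro ⟨h1, h2, h3, h4⟩
    exact ⟨h1, h2, h4, h3⟩

theorem ltS_lt {S : Set M} {p q : M →+ ℕ} (hpos : ∀ a ∈ S, 1 ≤ p a + q a) {a b : M}
    (h : ltS S a b) : p a + q a < p b + q b := by
  obtain ⟨s, hs, rfl⟩ := h
  have := hpos s hs
  rw [map_add, map_add]
  omega

theorem chain_len {S : Set M} {p q : M →+ ℕ} (hpos : ∀ a ∈ S, 1 ≤ p a + q a) {U : Set M}
    (hU : U ⊆ S) {m : ℕ} (hm : ∀ y ∈ U, p y + q y ≤ m) :
    ∀ w ∈ Ch (ltS S) U, w.length ≤ m := by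
  intro w hw
  refine Ch_len (fun y => p y + q y - 1) ?_ w hw m ?_
  · intro a ha b hb h
    have h1 := ltS_lt hpos h
    have h2 := hpos a (hU ha)
    omega
  · intro y hy
    have h1 := hm y (hw.2 y hy)
    have h2 := hpos y (hU (hw.2 y hy))
    omega

theorem ltS_cancel [IsCancelAdd M] {S : Set M} (ℓ a b : M) :
    ltS S (ℓ + a) (ℓ + b) ↔ ltS S a b := by
  constructor
  · rintro ⟨s, hs, h⟩
    rw [add_assoc] at h
    exact ⟨s, hs, add_left_cancel h⟩
  · rintro ⟨s, hs, rfl⟩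
    exact ⟨s, hs, add_assoc _ _ _⟩

theorem ltS_add {S : Set M} {a b : M} (h : ltS S a b) : ∃ s ∈ S, b = a + s := by
  obtain ⟨s, hs, h⟩ := h
  exact ⟨s, hs, h.symm⟩

/-- One step of the truncation. -/
theorem stepP [IsCancelAdd M] {S : Set M} {p q : M →+ ℕ} (hS : ∀ a ∈ S, ∀ b ∈ S, a + b ∈ S)
    (hpos : ∀ a ∈ S, 1 ≤ p a + q a) {x : M}
    (IH : ∀ y ∈ S, p y + q y < p x + q x → ∀ a c, a ≤ p y → c ≤ q y →
      ¬ (a = p y ∧ c = q y) → Sph K (ltS S) (YY S p q y a c) (a + c))
    {a c : ℕ} (hc : c ≤ q x) (hne : ¬ (a + 1 = p x ∧ c = q x))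
    (h : Sph K (ltS S) (YY S p q x (a + 1) c) (a + 1 + c)) :
    Sph K (ltS S) (YY S p q x a c) (a + c) := by
  set U := YY S p q x (a + 1) c with hU
  set L : Set M := {t | t ∈ U ∧ p t = a + 1} with hL
  have hUL : U \ L = YY S p q x a c := by
    ext t
    constructor
    · rintro ⟨⟨h1, h2, h3, h4⟩, h5⟩
      refine ⟨h1, h2, ?_, h4⟩
      have : p t ≠ a + 1 := fun h6 => h5 ⟨⟨h1, h2, h3, h4⟩, h6⟩
      omega
    · rintro ⟨h1, h2, h3, h4⟩
      refine ⟨⟨h1, h2, by omega, h4⟩, fun h5 => ?_⟩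
      have := h5.2
      omega
  rw [← hUL]
  refine Sph_remove ?_ (fun k hk => h.2 k (by omega)) ?_
  · rw [hUL]
    exact chain_len hpos (fun y hy => hy.1) (fun y hy => by have := hy.2.2.1; have := hy.2.2.2; omega)
  · intro k hk
    refine (rel_exact (K := K) (L := L) (fun t ht => ht.1) (ltS_trans hS) (fun y => p y + q y)
      (fun _ _ _ _ h => ltS_lt hpos h) (a + 1 + c) ?_ (a + 1 + c) ?_).2 k (by omega)
    · rintro t ⟨⟨h1, h2, h3, h4⟩, h5⟩
      omega
    · rintro ℓ ⟨⟨h1, h2, h3, h4⟩, h5⟩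
      obtain ⟨m, hm, hx⟩ := ltS_add h2
      have hpx : p x = p ℓ + p m := by rw [hx, map_add]
      have hqx : q x = q ℓ + q m := by rw [hx, map_add]
      have hmp := hpos m hm
      have hℓp := hpos ℓ h1
      refine ⟨a + q ℓ, 0 + (c - q ℓ), by omega, ?_, ?_⟩
      · have he : {v | v ∈ U ∧ v ∉ L ∧ ltS S v ℓ} = YY S p q ℓ a (q ℓ) := by
          ext v
          constructor
          · rintro ⟨⟨g1, g2, g3, g4⟩, g5, g6⟩
            have : p v ≠ a + 1 := fun h6 => g5 ⟨⟨g1, g2, g3, g4⟩, h6⟩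
            refine ⟨g1, g6, by omega, ?_⟩
            obtain ⟨s, _, rfl⟩ := g6
            rw [map_add]
            omega
          · rintro ⟨g1, g2, g3, g4⟩
            refine ⟨⟨g1, ltS_trans hS _ _ _ g2 h2, by omega, by omega⟩, fun g5 => ?_, g2⟩
            have := g5.2
            omega
        rw [he]
        exact IH ℓ h1 (by omega) a (q ℓ) (by omega) le_rfl (by omega)
      · have he : {u | u ∈ U ∧ ltS S ℓ u} = (fun v => ℓ + v) '' YY S p q m 0 (c - q ℓ) := by
          ext u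
          constructor
          · rintro ⟨⟨g1, g2, g3, g4⟩, g5⟩
            obtain ⟨v, hv, rfl⟩ := ltS_add g5
            rw [map_add] at g3 g4
            refine ⟨v, ⟨hv, ?_, by omega, by omega⟩, rfl⟩
            rw [hx] at g2
            exact (ltS_cancel ℓ v m).1 g2
          · rintro ⟨v, ⟨g1, g2, g3, g4⟩, rfl⟩
            refine ⟨⟨hS ℓ h1 v g1, ?_, ?_, ?_⟩, ⟨v, g1, rfl⟩⟩
            · rw [hx]
              exact (ltS_cancel ℓ v m).2 g2
            · rw [map_add]
              omega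
            · rw [map_add]
              omega
        rw [he]
        refine (Sph_map (K := K) (fun v => ℓ + v) (fun u _ v _ h => add_left_cancel h)
          (fun u _ v _ => ltS_cancel ℓ u v) _).2 ?_
        refine IH m hm (by omega) 0 (c - q ℓ) (Nat.zero_le _) (by omega) ?_
        omega

/-- The first truncation: the ideal of the elements off a face. -/
theorem truncJ [IsCancelAdd M] {S : Set M} {p q : M →+ ℕ} (hS : ∀ a ∈ S, ∀ b ∈ S, a + b ∈ S)
    (hpos : ∀ a ∈ S, 1 ≤ p a + q a) (hT : TV K (p + q) S) {x : M} (hx : x ∈ S)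
    {a : ℕ} (ha : p x = a + 1) : Sph K (ltS S) (YY S p q x a (q x)) (a + q x) := by
  set D : Set M := {s | s ∈ S ∧ p s = 0} with hD
  have h1 := TVX_ideal (K := K) (p + q) S D hS (fun a ha => hpos a ha) (fun a ha => ha.1)
    (by
      intro a ha b hb
      constructor
      · rintro ⟨h1, h2⟩
        rw [map_add] at h2
        exact ⟨⟨ha, by omega⟩, ⟨hb, by omega⟩⟩
      · rintro ⟨⟨_, h1⟩, ⟨_, h2⟩⟩
        exact ⟨hS a ha b hb, by rw [map_add]; omega⟩) hT (p x + q x)
  rw [TVX_iff] at h1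
  have h2 := h1 x rfl
  have hx0 : x ∈ S \ D := ⟨hx, fun h => by have := h.2; omega⟩
  have hN : p x + q x = a + q x + 1 := by omega
  rw [hN] at h2
  have hS0 : ∀ a ∈ S \ D, ∀ b ∈ S, a + b ∈ S \ D := by
    rintro s ⟨hs, hsD⟩ b hb
    refine ⟨hS s hs b hb, fun h => hsD ⟨hs, ?_⟩⟩
    have := h.2
    rw [map_add] at this
    omega
  have h3 := (chain_iff_word (K := K) hS hS0 hx0 (a + q x)).2 h2
  have he : Bel (S \ D) S x = YY S p q x a (q x) := by
    ext t
    constructor
    · rintro ⟨ht, s, ⟨hs, hsD⟩, hst⟩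
      have hps : p s ≠ 0 := fun h => hsD ⟨hs, h⟩
      have e1 : p x = p s + p t := by rw [← hst, map_add]
      have e2 : q x = q s + q t := by rw [← hst, map_add]
      exact ⟨ht, ⟨s, hs, by rw [add_comm, hst]⟩, by omega, by omega⟩
    · rintro ⟨ht, ⟨s, hs, hst⟩, g1, g2⟩
      refine ⟨ht, s, ⟨hs, fun h => ?_⟩, by rw [add_comm, hst]⟩
      have e1 : p x = p t + p s := by rw [← hst, map_add]
      have := h.2
      omega
  rw [he] at h3
  exact ⟨chain_len hpos (fun y hy => hy.1)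
    (fun y hy => by have := hy.2.2.1; have := hy.2.2.2; omega), h3⟩

/-- All truncated intervals are spherical. -/
theorem trunc [IsCancelAdd M] {S : Set M} {p q : M →+ ℕ} (hS : ∀ a ∈ S, ∀ b ∈ S, a + b ∈ S)
    (hpos : ∀ a ∈ S, 1 ≤ p a + q a) (hT : TV K (p + q) S) :
    ∀ n : ℕ, ∀ x ∈ S, p x + q x = n → ∀ a c, a ≤ p x → c ≤ q x → ¬ (a = p x ∧ c = q x) →
      Sph K (ltS S) (YY S p q x a c) (a + c) := by
  intro n
  induction n using Nat.strong_induction_on with
  | _ n ih =>
    intro x hx hn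
    have IH : ∀ y ∈ S, p y + q y < p x + q x → ∀ a c, a ≤ p y → c ≤ q y →
        ¬ (a = p y ∧ c = q y) → Sph K (ltS S) (YY S p q y a c) (a + c) := fun y hy hlt =>
      ih (p y + q y) (by omega) y hy rfl
    have IH' : ∀ y ∈ S, q y + p y < q x + p x → ∀ a c, a ≤ q y → c ≤ p y →
        ¬ (a = q y ∧ c = p y) → Sph K (ltS S) (YY S q p y a c) (a + c) := by
      intro y hy hlt a c ha hc hne
      rw [YY_swap, add_comm a c]
      exact IH y hy (by omega) c a hc ha (fun h => hne ⟨h.2, h.1⟩)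
    have hpos' : ∀ a ∈ S, 1 ≤ q a + p a := fun a ha => by have := hpos a ha; omega
    have hT' : TV K (q + p) S := by rw [add_comm]; exact hT
    have main : ∀ d : ℕ, ∀ a c, a ≤ p x → c ≤ q x → (p x - a) + (q x - c) = d + 1 →
        Sph K (ltS S) (YY S p q x a c) (a + c) := by
      intro d
      induction d with
      | zero =>
        intro a c ha hc hd
        by_cases hap : a = p x
        · have h1 := truncJ (K := K) hS hpos' hT' hx (a := c) (by omega)
          rw [YY_swap, ← hap, add_comm c a] at h1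
          exact h1
        · have h1 := truncJ (K := K) hS hpos hT hx (a := a) (by omega)
          have h2 : c = q x := by omega
          rw [h2]
          exact h1
      | succ d ihd =>
        intro a c ha hc hd
        by_cases hap : a = p x
        · have h1 := ihd a (c + 1) ha (by omega) (by omega)
          have h2 : Sph K (ltS S) (YY S q p x (c + 1) a) (c + 1 + a) := by
            rw [YY_swap, add_comm (c + 1) a]
            exact h1
          have h3 := stepP (K := K) hS hpos' IH' ha (by omega) h2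
          rw [YY_swap, add_comm c a] at h3
          exact h3
        · have h1 := ihd (a + 1) c (by omega) hc (by omega)
          exact stepP (K := K) hS hpos IH hc (by omega) h1
    intro a c ha hc hne
    obtain ⟨d, hd⟩ : ∃ d, (p x - a) + (q x - c) = d + 1 :=
      ⟨(p x - a) + (q x - c) - 1, by omega⟩
    exact main d a c ha hc hd

/-- Open intervals. -/
theorem intv_sph [IsCancelAdd M] {S : Set M} {p q : M →+ ℕ} (hS : ∀ a ∈ S, ∀ b ∈ S, a + b ∈ S)
    (hpos : ∀ a ∈ S, 1 ≤ p a + q a) (hT : TV K (p + q) S) {x : M} (hx : x ∈ S) :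
    Sph K (ltS S) {t | t ∈ S ∧ ltS S t x} (p x + q x - 1) := by
  have h1 := hT (p x + q x)
  rw [TVX_iff] at h1
  have h2 := h1 x rfl
  have hxp := hpos x hx
  have hN : p x + q x = (p x + q x - 1) + 1 := by omega
  rw [hN] at h2
  have h3 := (chain_iff_word (K := K) hS hS hx (p x + q x - 1)).2 h2
  have he : Bel S S x = {t | t ∈ S ∧ ltS S t x} := by
    ext t
    constructor
    · rintro ⟨ht, s, hs, hst⟩
      exact ⟨ht, ⟨s, hs, by rw [add_comm, hst]⟩⟩
    · rintro ⟨ht, ⟨s, hs, hst⟩⟩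
      exact ⟨ht, s, hs, by rw [add_comm, hst]⟩
  rw [he] at h3
  refine ⟨chain_len hpos (fun y hy => hy.1) (fun y hy => ?_), h3⟩
  have := ltS_lt hpos hy.2
  omega

end MP7ea278
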