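import Pool.Agent.Lib.MP_7ea278_ag.Fp.Fib
import Pool.Agent.Lib.MP_7ea278_ag.SmallRank

/-!
Direct sums and two-sums.
-/

namespace MP7ea278

open Finsupp

variable {K : Type} [CommRing K]

theorem Sg_pos {n : ℕ} {G : Set (Fin n → ℤ)} {x : Amb n} (hx : x ∈ Sg G) : 1 ≤ x.1 := by
  obtain ⟨hx, hx0⟩ := hx
  have h : x = 0 ∨ 1 ≤ x.1 := by
    clear hx0
    induction hx using AddSubmonoid.closure_induction with
    | mem x hx =>
      obtain ⟨g, _, rfl⟩ := hx
      exact Or.inr le_rfl
    | zero => exact Or.inl rfl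
    | add x y _ _ hx hy =>
      rcases hx with rfl | hx
      · rw [zero_add]
        exact hy
      · right
        change 1 ≤ x.1 + y.1
        omega
  exact h.resolve_left hx0

theorem Sg_add2 {n : ℕ} {G : Set (Fin n → ℤ)} : ∀ a ∈ Sg G, ∀ b ∈ Sg G, a + b ∈ Sg G := by
  intro a ha b hb
  refine ⟨AddSubmonoid.add_mem _ ha.1 hb.1, fun h => ?_⟩
  have h1 := Sg_pos ha
  have h2 : a.1 + b.1 = 0 := congrArg Prod.fst h
  omega

theorem Sg_gen {n : ℕ} {G : Set (Fin n → ℤ)} {g : Fin n → ℤ} (hg : g ∈ G) :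
    ((1 : ℕ), g) ∈ Sg G :=
  ⟨AddSubmonoid.subset_closure ⟨g, hg, rfl⟩, fun h => by
    have := congrArg Prod.fst h
    exact absurd this (by simp)⟩

theorem Sg_one {n : ℕ} {G : Set (Fin n → ℤ)} {x : Amb n} (hx : x ∈ Sg G) (h1 : x.1 = 1) :
    x.2 ∈ G := by
  obtain ⟨hx, hx0⟩ := hx
  have h : x = 0 ∨ (x.1 = 1 ∧ x.2 ∈ G) ∨ 2 ≤ x.1 := by
    clear hx0 h1
    induction hx using AddSubmonoid.closure_induction with
    | mem x hx =>
      obtain ⟨g, hg, rfl⟩ := hx
      exact Or.inr (Or.inl ⟨rfl, hg⟩)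
    | zero => exact Or.inl rfl
    | add x y _ _ hx hy =>
      rcases hx with rfl | hx
      · rw [zero_add]
        exact hy
      · rcases hy with rfl | hy
        · rw [add_zero]
          exact Or.inr hx
        · right
          right
          change 2 ≤ x.1 + y.1
          have h1 : 1 ≤ x.1 := by rcases hx with h | h <;> omega
          have h2 : 1 ≤ y.1 := by rcases hy with h | h <;> omega
          omega
  rcases h with h | h | h
  · exact absurd h hx0
  · exact h.2
  · omega

/-- A property of the generators that is additive. -/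
theorem Sg_ind {n : ℕ} {G : Set (Fin n → ℤ)} {P : Amb n → Prop} (h0 : P 0)
    (hadd : ∀ a b, P a → P b → P (a + b)) (hg : ∀ g ∈ G, P ((1 : ℕ), g)) {x : Amb n}
    (hx : x ∈ Sg G) : P x := by
  obtain ⟨hx, hx0⟩ := hx
  clear hx0
  induction hx using AddSubmonoid.closure_induction with
  | mem x hx =>
    obtain ⟨g, hgG, rfl⟩ := hx
    exact hg g hgG
  | zero => exact h0
  | add x y _ _ hx hy => exact hadd x y hx hy

/-- Relabelling. -/
private def rlg {n : ℕ} (σ : Equiv.Perm (Fin n)) : Amb n →+ Amb n where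
  toFun x := (x.1, x.2 ∘ σ)
  map_zero' := rfl
  map_add' _ _ := rfl

theorem TV_relabel {n : ℕ} (σ : Equiv.Perm (Fin n)) (C : Set (Fin n → ℤ)) :
    TV K (dg n) (Sg {u | u ∘ σ.symm ∈ C}) ↔ TV K (dg n) (Sg C) := by
  have hinj : Function.Injective (rlg σ) := by
    intro x y hxy
    have h1 : x.1 = y.1 := (Prod.ext_iff.1 hxy).1
    have h2 : x.2 ∘ σ = y.2 ∘ σ := (Prod.ext_iff.1 hxy).2
    refine Prod.ext h1 ?_
    funext i
    have h3 := congrFun h2 (σ.symm i)
    rw [Function.comp_apply, Function.comp_apply, Equiv.apply_symm_apply] at h3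
    exact h3
  have himg : rlg σ '' Sg C = Sg {u | u ∘ σ.symm ∈ C} := by
    apply Set.Subset.antisymm
    · rintro _ ⟨x, hx, rfl⟩
      have h1 : rlg σ x = 0 ∨ rlg σ x ∈ Sg {u : Fin n → ℤ | u ∘ σ.symm ∈ C} := by
        refine Sg_ind (P := fun x => rlg σ x = 0 ∨ rlg σ x ∈ Sg {u | u ∘ σ.symm ∈ C}) ?_ ?_ ?_ hx
        · exact Or.inl (map_zero _)
        · intro a b ha hb
          rw [map_add]
          rcases ha with ha | ha
          · rw [ha, zero_add]
            exact hb
          · rcases hb with hb | hb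
            · rw [hb, add_zero]
              exact Or.inr ha
            · exact Or.inr (Sg_add2 _ ha _ hb)
        · intro g hg
          refine Or.inr (Sg_gen (g := g ∘ σ) ?_)
          change (g ∘ σ) ∘ σ.symm ∈ C
          have : (g ∘ σ) ∘ σ.symm = g := by
            funext i
            simp
          rw [this]
          exact hg
      rcases h1 with h1 | h1
      · exact absurd (hinj (h1.trans (map_zero (rlg σ)).symm)) hx.2
      · exact h1
    · intro x hx
      have h1 : x = 0 ∨ x ∈ rlg σ '' Sg C := by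
        refine Sg_ind (P := fun x => x = 0 ∨ x ∈ rlg σ '' Sg C) (Or.inl rfl) ?_ ?_ hx
        · rintro a b (rfl | ⟨a, ha, rfl⟩) hb
          · rw [zero_add]
            exact hb
          · rcases hb with rfl | ⟨b, hb, rfl⟩
            · rw [add_zero]
              exact Or.inr ⟨a, ha, rfl⟩
            · exact Or.inr ⟨a + b, Sg_add2 _ ha _ hb, map_add _ _ _⟩
        · intro g hg
          refine Or.inr ⟨(1, g ∘ σ.symm), Sg_gen hg, ?_⟩
          refine Prod.ext rfl ?_
          funext i
          change g (σ.symm (σ i)) = g i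
          rw [Equiv.symm_apply_apply]
      exact h1.resolve_left hx.2
  rw [← himg]
  exact TV_image (dg n) (dg n) (rlg σ) Sg_add2 (fun x _ y _ h => hinj h) fun x _ => rfl

/-- The direct sum. -/
def dsumZ {n m : ℕ} (C : Set (Fin n → ℤ)) (C' : Set (Fin m → ℤ)) : Set (Fin (n + m) → ℤ) :=
  {w | (fun i => w (Fin.castAdd m i)) ∈ C ∧ (fun j => w (Fin.natAdd n j)) ∈ C'}

theorem append_split {n m : ℕ} (w : Fin (n + m) → ℤ) :
    Fin.append (fun i => w (Fin.castAdd m i)) (fun j => w (Fin.natAdd n j)) = w := by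
  funext k
  refine Fin.addCases (fun i => ?_) (fun j => ?_) k
  · rw [Fin.append_left]
  · rw [Fin.append_right]

private def Gd (n m : ℕ) : Amb n × Amb m →+ Amb (n + m) where
  toFun z := (z.1.1, Fin.append z.1.2 z.2.2)
  map_zero' := by
    refine Prod.ext rfl ?_
    funext k
    refine Fin.addCases (fun i => ?_) (fun j => ?_) k
    · change Fin.append (0 : Fin n → ℤ) (0 : Fin m → ℤ) (Fin.castAdd m i) = 0
      rw [Fin.append_left]
      rfl
    · change Fin.append (0 : Fin n → ℤ) (0 : Fin m → ℤ) (Fin.natAdd n j) = 0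
      rw [Fin.append_right]
      rfl
  map_add' a b := by
    refine Prod.ext rfl ?_
    funext k
    refine Fin.addCases (fun i => ?_) (fun j => ?_) k
    · change Fin.append (a.1.2 + b.1.2) (a.2.2 + b.2.2) (Fin.castAdd m i) =
        Fin.append a.1.2 a.2.2 (Fin.castAdd m i) + Fin.append b.1.2 b.2.2 (Fin.castAdd m i)
      rw [Fin.append_left, Fin.append_left, Fin.append_left, Pi.add_apply]
    · change Fin.append (a.1.2 + b.1.2) (a.2.2 + b.2.2) (Fin.natAdd n j) =
        Fin.append a.1.2 a.2.2 (Fin.natAdd n j) + Fin.append b.1.2 b.2.2 (Fin.natAdd n j)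
      rw [Fin.append_right, Fin.append_right, Fin.append_right, Pi.add_apply]

theorem append_inj {n m : ℕ} {u u' : Fin n → ℤ} {v v' : Fin m → ℤ}
    (h : Fin.append u v = Fin.append u' v') : u = u' ∧ v = v' := by
  constructor
  · funext i
    have := congrFun h (Fin.castAdd m i)
    rwa [Fin.append_left, Fin.append_left] at this
  · funext j
    have := congrFun h (Fin.natAdd n j)
    rwa [Fin.append_right, Fin.append_right] at this

/-- Direct sums. -/
theorem TV_dsum [Nontrivial K] {n m : ℕ} {C : Set (Fin n → ℤ)} {C' : Set (Fin m → ℤ)}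
    (hT : TV K (dg n) (Sg C)) (hT' : TV K (dg m) (Sg C')) :
    TV K (dg (n + m)) (Sg (dsumZ C C')) := by
  have hF := TV_fibre (K := K) (S := Sg C) (S' := Sg C') (p := dg n) (q := 0) (p' := dg m)
    (q' := 0) Sg_add2 Sg_add2 (fun a ha => Nat.le_add_right_of_le (Sg_pos ha))
    (fun a ha => Nat.le_add_right_of_le (Sg_pos ha)) (by rw [add_zero]; exact hT)
    (by rw [add_zero]; exact hT')
  rw [add_zero] at hF
  set T := TT (Sg C) (Sg C') (dg n) 0 (dg m) 0 with hTdef
  have hTadd : ∀ a ∈ T, ∀ b ∈ T, a + b ∈ T := TT_add Sg_add2 Sg_add2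
  have hdeg : ∀ z ∈ T, z.1.1 = z.2.1 := fun z hz => hz.2.2.1
  have hmem : ∀ N : ℕ, ∀ z ∈ T, z.1.1 = N → Gd n m z ∈ Sg (dsumZ C C') := by
    intro N
    induction N using Nat.strong_induction_on with
    | _ N ih =>
      intro z hz hzN
      have hpos := Sg_pos hz.1
      by_cases h1 : z.1.1 = 1
      · have e1 := Sg_one hz.1 h1
        have e2 := Sg_one hz.2.1 (by rw [← hdeg z hz, h1])
        have e3 : Gd n m z = ((1 : ℕ), Fin.append z.1.2 z.2.2) := Prod.ext h1 rfl
        rw [e3]
        refine Sg_gen ⟨?_, ?_⟩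
        · have : (fun i => Fin.append z.1.2 z.2.2 (Fin.castAdd m i)) = z.1.2 := by
            funext i
            rw [Fin.append_left]
          rw [this]
          exact e1
        · have : (fun i => Fin.append z.1.2 z.2.2 (Fin.natAdd n i)) = z.2.2 := by
            funext i
            rw [Fin.append_right]
          rw [this]
          exact e2
      · obtain ⟨a, ha, b, hb, hab⟩ := TV_decomp (K := K) _ T hF z hz (by
          change 2 ≤ z.1.1
          omega)
        have g1 := Sg_pos ha.1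
        have g2 := Sg_pos hb.1
        have g3 : a.1.1 + b.1.1 = z.1.1 := by
          rw [← hab]
          rfl
        rw [← hab, map_add]
        exact Sg_add2 _ (ih a.1.1 (by omega) a ha rfl) _ (ih b.1.1 (by omega) b hb rfl)
  have himg : Gd n m '' T = Sg (dsumZ C C') := by
    apply Set.Subset.antisymm
    · rintro _ ⟨z, hz, rfl⟩
      exact hmem _ z hz rfl
    · intro x hx
      have h1 : x = 0 ∨ x ∈ Gd n m '' T := by
        refine Sg_ind (P := fun x => x = 0 ∨ x ∈ Gd n m '' T) (Or.inl rfl) ?_ ?_ hx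
        · rintro a b (rfl | ⟨a, ha, rfl⟩) hb
          · rw [zero_add]
            exact hb
          · rcases hb with rfl | ⟨b, hb, rfl⟩
            · rw [add_zero]
              exact Or.inr ⟨a, ha, rfl⟩
            · exact Or.inr ⟨a + b, hTadd _ ha _ hb, map_add _ _ _⟩
        · rintro g ⟨hg1, hg2⟩
          refine Or.inr ⟨((1, fun i => g (Fin.castAdd m i)), (1, fun j => g (Fin.natAdd n j))),
            ⟨Sg_gen hg1, Sg_gen hg2, rfl, rfl⟩, ?_⟩
          exact Prod.ext rfl (append_split g)
      exact h1.resolve_left hx.2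
  rw [← himg]
  refine (TV_image ((dg n).comp (AddMonoidHom.fst (Amb n) (Amb m))) (dg (n + m)) (Gd n m) hTadd ?_
    fun x _ => rfl).2 hF
  intro z hz w hw h
  have h1 : z.1.1 = w.1.1 := (Prod.ext_iff.1 h).1
  obtain ⟨h2, h3⟩ := append_inj (Prod.ext_iff.1 h).2
  have h4 := hdeg z hz
  have h5 := hdeg w hw
  exact Prod.ext (Prod.ext h1 h2) (Prod.ext (by omega) h3)

end MP7ea278
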