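import Pool.Agent.Lib.MP_7ea278_ag.Fp.Two

/-!
Two-sums.
-/

namespace MP7ea278

open Finsupp

variable {K : Type} [CommRing K]

/-- Vectors with the last coordinate apart. -/
private abbrev MM (n : ℕ) : Type := ℕ × (ℕ × (Fin n → ℤ))

private def P1 (n : ℕ) : MM n →+ ℕ := AddMonoidHom.fst ℕ (ℕ × (Fin n → ℤ))

private def Q1 (n : ℕ) : MM n →+ ℕ :=
  (AddMonoidHom.fst ℕ (Fin n → ℤ)).comp (AddMonoidHom.snd ℕ (ℕ × (Fin n → ℤ)))

private def F1 (n : ℕ) : MM n →+ Amb (n + 1) where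
  toFun z := (z.1 + z.2.1, Fin.snoc (α := fun _ => ℤ) z.2.2 (z.2.1 : ℤ))
  map_zero' := by
    refine Prod.ext rfl ?_
    funext i
    refine Fin.lastCases ?_ (fun j => ?_) i
    · change Fin.snoc (α := fun _ => ℤ) (0 : Fin n → ℤ) ((0 : ℕ) : ℤ) (Fin.last n) = 0
      rw [Fin.snoc_last]
      rfl
    · change Fin.snoc (α := fun _ => ℤ) (0 : Fin n → ℤ) ((0 : ℕ) : ℤ) j.castSucc = 0
      rw [Fin.snoc_castSucc]
      rfl
  map_add' x y := by
    refine Prod.ext ?_ ?_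
    · change (x.1 + y.1) + (x.2.1 + y.2.1) = (x.1 + x.2.1) + (y.1 + y.2.1)
      omega
    · funext i
      refine Fin.lastCases ?_ (fun j => ?_) i
      · change Fin.snoc (α := fun _ => ℤ) (x.2.2 + y.2.2) ((x.2.1 + y.2.1 : ℕ) : ℤ) (Fin.last n) =
          Fin.snoc (α := fun _ => ℤ) x.2.2 (x.2.1 : ℤ) (Fin.last n) +
            Fin.snoc (α := fun _ => ℤ) y.2.2 (y.2.1 : ℤ) (Fin.last n)
        rw [Fin.snoc_last, Fin.snoc_last, Fin.snoc_last, Nat.cast_add]
      · change Fin.snoc (α := fun _ => ℤ) (x.2.2 + y.2.2) ((x.2.1 + y.2.1 : ℕ) : ℤ) j.castSucc =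
          Fin.snoc (α := fun _ => ℤ) x.2.2 (x.2.1 : ℤ) j.castSucc +
            Fin.snoc (α := fun _ => ℤ) y.2.2 (y.2.1 : ℤ) j.castSucc
        rw [Fin.snoc_castSucc, Fin.snoc_castSucc, Fin.snoc_castSucc, Pi.add_apply]

private theorem snoc_inj {n : ℕ} {u u' : Fin n → ℤ} {a a' : ℤ}
    (h : Fin.snoc (α := fun _ => ℤ) u a = Fin.snoc (α := fun _ => ℤ) u' a') : u = u' ∧ a = a' := by
  constructor
  · funext i
    have := congrFun h i.castSucc
    rwa [Fin.snoc_castSucc, Fin.snoc_castSucc] at this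
  · have := congrFun h (Fin.last n)
    rwa [Fin.snoc_last, Fin.snoc_last] at this

private theorem F1_inj (n : ℕ) : Function.Injective (F1 n) := by
  intro x y h
  have h1 : x.1 + x.2.1 = y.1 + y.2.1 := (Prod.ext_iff.1 h).1
  obtain ⟨h2, h3⟩ := snoc_inj (Prod.ext_iff.1 h).2
  have h4 : x.2.1 = y.2.1 := by exact_mod_cast h3
  exact Prod.ext (by omega) (Prod.ext h4 h2)

private def S1 {n : ℕ} (C : Set (Fin (n + 1) → ℤ)) : Set (MM n) := {z | F1 n z ∈ Sg C}

private theorem S1_add {n : ℕ} (C : Set (Fin (n + 1) → ℤ)) :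
    ∀ a ∈ S1 C, ∀ b ∈ S1 C, a + b ∈ S1 C := by
  intro a ha b hb
  change F1 n (a + b) ∈ Sg C
  rw [map_add]
  exact Sg_add2 _ ha _ hb

private theorem S1_pos {n : ℕ} (C : Set (Fin (n + 1) → ℤ)) :
    ∀ a ∈ S1 C, 1 ≤ P1 n a + Q1 n a := fun _ ha => Sg_pos ha

private theorem S1_img {n : ℕ} {C : Set (Fin (n + 1) → ℤ)}
    (h01 : ∀ u ∈ C, 0 ≤ u (Fin.last n) ∧ u (Fin.last n) ≤ 1) : F1 n '' S1 C = Sg C := by
  apply Set.Subset.antisymm
  · rintro _ ⟨z, hz, rfl⟩
    exact hz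
  · intro x hx
    have h1 : 0 ≤ x.2 (Fin.last n) ∧ x.2 (Fin.last n) ≤ (x.1 : ℤ) := by
      refine Sg_ind (P := fun x => 0 ≤ x.2 (Fin.last n) ∧ x.2 (Fin.last n) ≤ (x.1 : ℤ)) ?_ ?_ ?_ hx
      · exact ⟨le_rfl, le_rfl⟩
      · rintro a b ⟨h1, h2⟩ ⟨h3, h4⟩
        have e1 : (a + b).2 (Fin.last n) = a.2 (Fin.last n) + b.2 (Fin.last n) := rfl
        have e2 : ((a + b).1 : ℤ) = (a.1 : ℤ) + (b.1 : ℤ) := by
          change ((a.1 + b.1 : ℕ) : ℤ) = _
          push_cast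
          rfl
        rw [e1, e2]
        omega
      · intro g hg
        have := h01 g hg
        simpa using this
    obtain ⟨q, hq⟩ := Int.eq_ofNat_of_zero_le h1.1
    have hqx : q ≤ x.1 := by
      have := h1.2
      rw [hq] at this
      exact_mod_cast this
    have hF : F1 n (x.1 - q, (q, fun i => x.2 i.castSucc)) = x := by
      refine Prod.ext ?_ ?_
      · change (x.1 - q) + q = x.1
        omega
      · funext i
        refine Fin.lastCases ?_ (fun j => ?_) i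
        · change Fin.snoc (α := fun _ => ℤ) (fun i => x.2 i.castSucc) (q : ℤ) (Fin.last n) = _
          rw [Fin.snoc_last, hq]
        · change Fin.snoc (α := fun _ => ℤ) (fun i => x.2 i.castSucc) (q : ℤ) j.castSucc = _
          rw [Fin.snoc_castSucc]
    exact ⟨_, by change F1 n _ ∈ Sg C; rw [hF]; exact hx, hF⟩

private theorem S1_TV {n : ℕ} {C : Set (Fin (n + 1) → ℤ)}
    (h01 : ∀ u ∈ C, 0 ≤ u (Fin.last n) ∧ u (Fin.last n) ≤ 1) (hT : TV K (dg (n + 1)) (Sg C)) :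
    TV K (P1 n + Q1 n) (S1 C) := by
  rw [← S1_img h01] at hT
  exact (TV_image (P1 n + Q1 n) (dg (n + 1)) (F1 n) (S1_add C) (fun x _ y _ h => F1_inj n h)
    fun x _ => rfl).1 hT

/-- The two-sum, with the last elements as base points. -/
def tsumZ {n m : ℕ} (C : Set (Fin (n + 1) → ℤ)) (C' : Set (Fin (m + 1) → ℤ)) :
    Set (Fin (n + m) → ℤ) :=
  {w | ((Fin.snoc (α := fun _ => ℤ) (fun i => w (Fin.castAdd m i)) 1 : Fin (n + 1) → ℤ) ∈ C ∧
      (Fin.snoc (α := fun _ => ℤ) (fun j => w (Fin.natAdd n j)) 0 : Fin (m + 1) → ℤ) ∈ C') ∨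
    ((Fin.snoc (α := fun _ => ℤ) (fun i => w (Fin.castAdd m i)) 0 : Fin (n + 1) → ℤ) ∈ C ∧
      (Fin.snoc (α := fun _ => ℤ) (fun j => w (Fin.natAdd n j)) 1 : Fin (m + 1) → ℤ) ∈ C')}

private def Gt (n m : ℕ) : MM n × MM m →+ Amb (n + m) where
  toFun z := (z.1.1 + z.1.2.1, Fin.append z.1.2.2 z.2.2.2)
  map_zero' := by
    refine Prod.ext rfl ?_
    funext k
    refine Fin.addCases (fun i => ?_) (fun j => ?_) k
    · change Fin.append (0 : Fin n → ℤ) (0 : Fin m → ℤ) (Fin.castAdd m i) = 0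
      rw [Fin.append_left]
      rfl
    · change Fin.append (0 : Fin n → ℤ) (0 : Fin m → ℤ) (Fin.natAdd n j) = 0
      rw [Fin.append_right]
      rfl
  map_add' a b := by
    refine Prod.ext ?_ ?_
    · change (a.1.1 + b.1.1) + (a.1.2.1 + b.1.2.1) = (a.1.1 + a.1.2.1) + (b.1.1 + b.1.2.1)
      omega
    · funext k
      refine Fin.addCases (fun i => ?_) (fun j => ?_) k
      · change Fin.append (a.1.2.2 + b.1.2.2) (a.2.2.2 + b.2.2.2) (Fin.castAdd m i) =
          Fin.append a.1.2.2 a.2.2.2 (Fin.castAdd m i) +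
            Fin.append b.1.2.2 b.2.2.2 (Fin.castAdd m i)
        rw [Fin.append_left, Fin.append_left, Fin.append_left, Pi.add_apply]
      · change Fin.append (a.1.2.2 + b.1.2.2) (a.2.2.2 + b.2.2.2) (Fin.natAdd n j) =
          Fin.append a.1.2.2 a.2.2.2 (Fin.natAdd n j) +
            Fin.append b.1.2.2 b.2.2.2 (Fin.natAdd n j)
        rw [Fin.append_right, Fin.append_right, Fin.append_right, Pi.add_apply]

/-- Two-sums. -/
theorem TV_tsum [Nontrivial K] {n m : ℕ} {C : Set (Fin (n + 1) → ℤ)} {C' : Set (Fin (m + 1) → ℤ)}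
    (h01 : ∀ u ∈ C, 0 ≤ u (Fin.last n) ∧ u (Fin.last n) ≤ 1)
    (h01' : ∀ u ∈ C', 0 ≤ u (Fin.last m) ∧ u (Fin.last m) ≤ 1) {d : ℤ}
    (hd : ∀ u ∈ C, ∑ i, u i = d)
    (hT : TV K (dg (n + 1)) (Sg C)) (hT' : TV K (dg (m + 1)) (Sg C')) :
    TV K (dg (n + m)) (Sg (tsumZ C C')) := by
  have hF := TV_fibre (K := K) (S := S1 C) (S' := S1 C') (p := P1 n) (q := Q1 n) (p' := Q1 m)
    (q' := P1 m) (S1_add C) (S1_add C') (S1_pos C)
    (fun a ha => by have := S1_pos C' a ha; omega) (S1_TV h01 hT)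
    (by rw [add_comm]; exact S1_TV h01' hT')
  set T := TT (S1 C) (S1 C') (P1 n) (Q1 n) (Q1 m) (P1 m) with hTdef
  have hTadd : ∀ a ∈ T, ∀ b ∈ T, a + b ∈ T := TT_add (S1_add C) (S1_add C')
  have hdeg1 : ∀ z ∈ T, z.1.1 = z.2.2.1 := fun z hz => hz.2.2.1
  have hdeg2 : ∀ z ∈ T, z.1.2.1 = z.2.1 := fun z hz => hz.2.2.2
  have hpos : ∀ z ∈ T, 1 ≤ z.1.1 + z.1.2.1 := fun z hz => S1_pos C _ hz.1
  have hsum : ∀ z ∈ T, (∑ i, z.1.2.2 i) + (z.1.2.1 : ℤ) = d * ((z.1.1 + z.1.2.1 : ℕ) : ℤ) := by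
    intro z hz
    have h1 : F1 n z.1 ∈ Sg C := hz.1
    have h2 : ∑ i, (F1 n z.1).2 i = d * ((F1 n z.1).1 : ℤ) := by
      refine Sg_ind (P := fun x => ∑ i, x.2 i = d * (x.1 : ℤ)) ?_ ?_ ?_ h1
      · change ∑ i : Fin (n + 1), (0 : ℤ) = d * ((0 : ℕ) : ℤ)
        simp
      · intro a b ha hb
        have e1 : ∑ i, (a + b).2 i = ∑ i, a.2 i + ∑ i, b.2 i := Finset.sum_add_distrib
        have e2 : ((a + b).1 : ℤ) = (a.1 : ℤ) + (b.1 : ℤ) := by
          change ((a.1 + b.1 : ℕ) : ℤ) = _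
          push_cast
          rfl
        rw [e1, e2, ha, hb]
        ring
      · intro g hg
        have := hd g hg
        simp only [Nat.cast_one, mul_one]
        exact this
    change ∑ i, Fin.snoc (α := fun _ => ℤ) z.1.2.2 (z.1.2.1 : ℤ) i = _ at h2
    rw [Fin.sum_univ_castSucc] at h2
    simp only [Fin.snoc_castSucc, Fin.snoc_last] at h2
    exact h2
  have hmem : ∀ N : ℕ, ∀ z ∈ T, z.1.1 + z.1.2.1 = N → Gt n m z ∈ Sg (tsumZ C C') := by
    intro N
    induction N using Nat.strong_induction_on with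
    | _ N ih =>
      intro z hz hzN
      have hp := hpos z hz
      by_cases h1 : z.1.1 + z.1.2.1 = 1
      · have e1 : (Fin.snoc (α := fun _ => ℤ) z.1.2.2 (z.1.2.1 : ℤ) : Fin (n + 1) → ℤ) ∈ C :=
          Sg_one hz.1 h1
        have g1 := hdeg1 z hz
        have g2 := hdeg2 z hz
        have e2 : (Fin.snoc (α := fun _ => ℤ) z.2.2.2 (z.2.2.1 : ℤ) : Fin (m + 1) → ℤ) ∈ C' :=
          Sg_one hz.2.1 (by
            change z.2.1 + z.2.2.1 = 1
            omega)
        have e3 : Gt n m z = ((1 : ℕ), Fin.append z.1.2.2 z.2.2.2) := Prod.ext h1 rfl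
        have e4 : (fun i => Fin.append z.1.2.2 z.2.2.2 (Fin.castAdd m i)) = z.1.2.2 := by
          funext i
          rw [Fin.append_left]
        have e5 : (fun i => Fin.append z.1.2.2 z.2.2.2 (Fin.natAdd n i)) = z.2.2.2 := by
          funext i
          rw [Fin.append_right]
        rw [e3]
        refine Sg_gen ?_
        by_cases h2 : z.1.2.1 = 1
        · left
          rw [e4, e5]
          have h3 : z.2.2.1 = 0 := by omega
          rw [h2] at e1
          rw [h3] at e2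
          exact ⟨e1, e2⟩
        · right
          rw [e4, e5]
          have h3 : z.2.2.1 = 1 := by omega
          have h4 : z.1.2.1 = 0 := by omega
          rw [h4] at e1
          rw [h3] at e2
          exact ⟨e1, e2⟩
      · obtain ⟨a, ha, b, hb, hab⟩ := TV_decomp (K := K) _ T hF z hz (by
          change 2 ≤ z.1.1 + z.1.2.1
          omega)
        have g1 := hpos a ha
        have g2 := hpos b hb
        have g3 : (a.1.1 + b.1.1) + (a.1.2.1 + b.1.2.1) = z.1.1 + z.1.2.1 := by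
          rw [← hab]
          rfl
        rw [← hab, map_add]
        exact Sg_add2 _ (ih (a.1.1 + a.1.2.1) (by omega) a ha rfl) _
          (ih (b.1.1 + b.1.2.1) (by omega) b hb rfl)
  have himg : Gt n m '' T = Sg (tsumZ C C') := by
    apply Set.Subset.antisymm
    · rintro _ ⟨z, hz, rfl⟩
      exact hmem _ z hz rfl
    · intro x hx
      have h1 : x = 0 ∨ x ∈ Gt n m '' T := by
        refine Sg_ind (P := fun x => x = 0 ∨ x ∈ Gt n m '' T) (Or.inl rfl) ?_ ?_ hx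
        · rintro a b (rfl | ⟨a, ha, rfl⟩) hb
          · rw [zero_add]
            exact hb
          · rcases hb with rfl | ⟨b, hb, rfl⟩
            · rw [add_zero]
              exact Or.inr ⟨a, ha, rfl⟩
            · exact Or.inr ⟨a + b, hTadd _ ha _ hb, map_add _ _ _⟩
        · rintro g (⟨hg1, hg2⟩ | ⟨hg1, hg2⟩)
          · refine Or.inr ⟨((0, (1, fun i => g (Fin.castAdd m i))),
              (1, (0, fun j => g (Fin.natAdd n j)))), ⟨?_, ?_, rfl, rfl⟩, ?_⟩
            · exact Sg_gen hg1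
            · exact Sg_gen hg2
            · exact Prod.ext rfl (append_split g)
          · refine Or.inr ⟨((1, (0, fun i => g (Fin.castAdd m i))),
              (0, (1, fun j => g (Fin.natAdd n j)))), ⟨?_, ?_, rfl, rfl⟩, ?_⟩
            · exact Sg_gen hg1
            · exact Sg_gen hg2
            · exact Prod.ext rfl (append_split g)
      exact h1.resolve_left hx.2
  rw [← himg]
  refine (TV_image ((P1 n + Q1 n).comp (AddMonoidHom.fst (MM n) (MM m))) (dg (n + m)) (Gt n m)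
    hTadd ?_ fun x _ => rfl).2 hF
  intro z hz w hw h
  have h1 : z.1.1 + z.1.2.1 = w.1.1 + w.1.2.1 := (Prod.ext_iff.1 h).1
  obtain ⟨h2, h3⟩ := append_inj (Prod.ext_iff.1 h).2
  have h4 := hsum z hz
  have h5 := hsum w hw
  rw [h1, h2] at h4
  have h6 : (z.1.2.1 : ℤ) = (w.1.2.1 : ℤ) := by
    have := h4.trans h5.symm
    exact add_left_cancel this
  have h7 : z.1.2.1 = w.1.2.1 := by exact_mod_cast h6
  have a1 := hdeg1 z hz
  have a2 := hdeg2 z hz
  have a3 := hdeg1 w hw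
  have a4 := hdeg2 w hw
  exact Prod.ext (Prod.ext (by omega) (Prod.ext h7 h2))
    (Prod.ext (by omega) (Prod.ext (by omega) h3))

end MP7ea278
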