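import Pool.Agent.Lib.MP_7ea278_ag.Fp.Quil
import Pool.Agent.Lib.MP_7ea278_ag.FreeExt

/-!
Words and chains: the vanishing property of a semigroup in terms of its intervals.
-/

namespace MP7ea278

open Finsupp

variable {K : Type} [CommRing K] {M : Type} [AddCommMonoid M]

/-- The order of a semigroup. -/
def ltS (S : Set M) (a b : M) : Prop := ∃ s ∈ S, a + s = b

/-- Sums of the nonempty suffixes. -/
def sfx : List M → List M
  | [] => []
  | b :: v => (b + v.sum) :: sfx v

/-- Chain of a word. -/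
def fch : List M → List M
  | [] => []
  | _ :: v => sfx v

theorem ltS_trans {S : Set M} (hS : ∀ a ∈ S, ∀ b ∈ S, a + b ∈ S) :
    ∀ a b c, ltS S a b → ltS S b c → ltS S a c := by
  rintro a b c ⟨s, hs, rfl⟩ ⟨t, ht, rfl⟩
  exact ⟨s + t, hS s hs t ht, (add_assoc _ _ _).symm⟩

theorem dl_sup (w w' : List M) (h : w' ∈ (dl K (one2 K) w).support) :
    w'.length + 1 = w.length ∧ w'.sum = w.sum := by
  have := dl_support (K := K) (one2 K) (Set.univ : Set M) (fun _ _ _ _ _ => Set.mem_univ _) w
    (fun _ _ => Set.mem_univ _) w' h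
  exact this.2

theorem sfx_length : ∀ v : List M, (sfx v).length = v.length := by
  intro v
  induction v with
  | nil => rfl
  | cons b v ih => simp [sfx, ih]

theorem dl_fch : ∀ (v : List M) (a : M),
    (dl K (one2 K) (a :: v)).mapDomain fch = dd K (sfx v) := by
  intro v
  induction v with
  | nil =>
    intro a
    have e1 : dl K (one2 K) [a] = 0 := rfl
    have e2 : dd K (sfx ([] : List M)) = 0 := rfl
    rw [e1, e2, Finsupp.mapDomain_zero]
  | cons b u ih =>
    intro a
    have e1 : dl K (one2 K) (a :: b :: u) = single ((a + b) :: u) 1 -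
        (dl K (one2 K) (b :: u)).mapDomain (List.cons a) := rfl
    have e2 : dd K (sfx (b :: u)) = single (sfx u) 1 -
        (dd K (sfx u)).mapDomain (List.cons (b + u.sum)) := rfl
    rw [e1, e2, md_sub, Finsupp.mapDomain_single, ← ih b, ← Finsupp.mapDomain_comp,
      ← Finsupp.mapDomain_comp]
    have e3 : fch ((a + b) :: u) = sfx u := rfl
    rw [e3]
    congr 1
    refine Finsupp.mapDomain_congr fun w' hw' => ?_
    obtain ⟨h1, h2⟩ := dl_sup (K := K) _ _ hw'
    cases w' with
    | nil => rw [List.length_cons] at h1; simp at h1; rw [h1] at hw'; simp [dl] at hw'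
    | cons c w' =>
      change sfx (c :: w') = (b + u.sum) :: sfx w'
      have h3 : c + w'.sum = b + u.sum := by
        rw [List.sum_cons, List.sum_cons] at h2
        exact h2
      change (c + w'.sum) :: sfx w' = _
      rw [h3]

theorem sfx_mem {S : Set M} (hS : ∀ a ∈ S, ∀ b ∈ S, a + b ∈ S) :
    ∀ v : List M, (∀ x ∈ v, x ∈ S) →
      (sfx v).Pairwise (fun a b => ltS S b a) ∧
      ∀ t ∈ sfx v, t ∈ S ∧ (t = v.sum ∨ ltS S t v.sum) := by
  intro v
  induction v with
  | nil => intro _; exact ⟨List.Pairwise.nil, fun t ht => absurd ht List.not_mem_nil⟩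
  | cons b v ih =>
    intro hv
    obtain ⟨h1, h2⟩ := ih (fun x hx => hv x (List.mem_cons_of_mem _ hx))
    have hb : b ∈ S := hv b List.mem_cons_self
    have h3 : ∀ t ∈ sfx v, ltS S t (b + v.sum) := by
      intro t ht
      rcases (h2 t ht).2 with h | ⟨s, hs, h⟩
      · exact ⟨b, hb, by rw [h, add_comm]⟩
      · exact ⟨s + b, hS s hs b hb, by rw [← add_assoc, h, add_comm]⟩
    refine ⟨List.pairwise_cons.2 ⟨h3, h1⟩, ?_⟩
    intro t ht
    rw [List.sum_cons]
    rcases List.mem_cons.1 ht with rfl | ht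
    · refine ⟨?_, Or.inl rfl⟩
      cases v with
      | nil => simpa using hb
      | cons c v =>
        have h4 := (h2 (c + v.sum) List.mem_cons_self).1
        rw [List.sum_cons]
        exact hS b hb _ h4
    · exact ⟨(h2 t ht).1, Or.inr (h3 t ht)⟩

/-- Elements below `x`, with complement in `S0`. -/
def Bel (S0 S : Set M) (x : M) : Set M := {t | t ∈ S ∧ ∃ a ∈ S0, a + t = x}

theorem fch_bijOn [IsCancelAdd M] {S0 S : Set M} (hS : ∀ a ∈ S, ∀ b ∈ S, a + b ∈ S)
    (hS0 : ∀ a ∈ S0, ∀ b ∈ S, a + b ∈ S0) {x : M} (hx : x ∈ S0) :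
    Set.BijOn fch {w | w ∈ Wd S0 S ∧ w.sum = x} (Ch (ltS S) (Bel S0 S x)) := by
  refine ⟨?_, ?_, ?_⟩
  · rintro w ⟨⟨a, v, rfl, ha, hv⟩, hw⟩
    obtain ⟨h1, h2⟩ := sfx_mem hS v hv
    rw [List.sum_cons] at hw
    refine ⟨h1, fun t ht => ⟨(h2 t ht).1, ?_⟩⟩
    rcases (h2 t ht).2 with h | ⟨s, hs, h⟩
    · exact ⟨a, ha, by rw [h, hw]⟩
    · exact ⟨a + s, hS0 a ha s hs, by rw [add_assoc, add_comm s t, h, hw]⟩
  · have hinj : ∀ v v' : List M, sfx v = sfx v' → v = v' := by
      intro v
      induction v with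
      | nil =>
        intro v' h
        cases v' with
        | nil => rfl
        | cons b v' => simp [sfx] at h
      | cons b v ih =>
        intro v' h
        cases v' with
        | nil => simp [sfx] at h
        | cons b' v' =>
          change (b + v.sum) :: sfx v = (b' + v'.sum) :: sfx v' at h
          rw [List.cons.injEq] at h
          have e1 := ih v' h.2
          subst e1
          rw [add_right_cancel h.1]
    rintro w ⟨⟨a, v, rfl, ha, hv⟩, hw⟩ w' ⟨⟨a', v', rfl, ha', hv'⟩, hw'⟩ h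
    have e1 := hinj v v' h
    subst e1
    rw [List.sum_cons] at hw hw'
    rw [← hw'] at hw
    rw [add_right_cancel hw]
  · have hsur : ∀ c : List M, c ∈ Ch (ltS S) S → ∃ v : List M, (∀ x ∈ v, x ∈ S) ∧ sfx v = c := by
      intro c
      induction c with
      | nil => exact fun _ => ⟨[], by simp, rfl⟩
      | cons t c ih =>
        intro hc
        obtain ⟨v, hv, hvc⟩ := ih (Ch_sub (List.sublist_cons_self _ _) hc)
        have ht : t ∈ S := hc.2 t List.mem_cons_self
        cases v with
        | nil =>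
          refine ⟨[t], by simpa using ht, ?_⟩
          rw [← hvc]
          change (t + ([] : List M).sum) :: sfx [] = t :: sfx []
          rw [List.sum_nil, add_zero]
        | cons b v =>
          have h1 : (b + v.sum) ∈ c := by
            rw [← hvc]
            exact List.mem_cons_self
          obtain ⟨s, hs, hst⟩ := List.rel_of_pairwise_cons hc.1 h1
          refine ⟨s :: b :: v, ?_, ?_⟩
          · intro x hx
            rcases List.mem_cons.1 hx with rfl | hx
            · exact hs
            · exact hv x hx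
          · change (s + (b :: v).sum) :: sfx (b :: v) = t :: c
            rw [hvc, List.sum_cons, add_comm s, hst]
    rintro c ⟨hc1, hc2⟩
    obtain ⟨v, hv, hvc⟩ := hsur c ⟨hc1, fun t ht => (hc2 t ht).1⟩
    cases v with
    | nil =>
      refine ⟨[x], ⟨⟨x, [], rfl, hx, by simp⟩, by simp⟩, ?_⟩
      rw [← hvc]
      rfl
    | cons b v =>
      have h1 : (b + v.sum) ∈ c := by
        rw [← hvc]
        exact List.mem_cons_self
      obtain ⟨a, ha, hax⟩ := (hc2 _ h1).2
      exact ⟨a :: b :: v, ⟨⟨a, b :: v, rfl, ha, hv⟩, by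
        rw [List.sum_cons, List.sum_cons]; exact hax⟩, hvc⟩

theorem chain_iff_word [IsCancelAdd M] {S0 S : Set M} (hS : ∀ a ∈ S, ∀ b ∈ S, a + b ∈ S)
    (hS0 : ∀ a ∈ S0, ∀ b ∈ S, a + b ∈ S0) {x : M} (hx : x ∈ S0) (N : ℕ) :
    (∀ k, k ≠ N → Ex K (Ch (ltS S) (Bel S0 S x)) (dd K) List.length k) ↔
      ∀ k, k ≠ N + 1 → Ex K {w | w ∈ Wd S0 S ∧ w.sum = x} (dl K (one2 K)) List.length k := by
  have hb := fch_bijOn hS hS0 hx
  have hlen : ∀ w ∈ {w | w ∈ Wd S0 S ∧ w.sum = x}, (fch w).length = w.length - 1 := by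
    rintro w ⟨⟨a, v, rfl, ha, hv⟩, hw⟩
    change (sfx v).length = _
    rw [sfx_length, List.length_cons]
    omega
  have hmaps : ∀ w ∈ {w | w ∈ Wd S0 S ∧ w.sum = x}, ∀ w' ∈ (dl K (one2 K) w).support,
      w' ∈ {w | w ∈ Wd S0 S ∧ w.sum = x} := by
    rintro w ⟨⟨a, v, rfl, ha, hv⟩, hw⟩ w' hw'
    refine ⟨?_, by rw [← hw]; exact (dl_sup _ _ hw').2⟩
    rw [dl_cons] at hw'
    classical
    rcases Finset.mem_union.1 (Finsupp.support_sub hw') with h | h
    · cases v with
      | nil => simp [mu] at h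
      | cons b v =>
        have h' : (mu (one2 K) a (b :: v)) = single ((a + b) :: v) 1 := rfl
        rw [h'] at h
        have h1 := Finset.mem_singleton.1 (Finsupp.support_single_subset h)
        exact ⟨a + b, v, h1, hS0 a ha b (hv b List.mem_cons_self),
          fun y hy => hv y (List.mem_cons_of_mem _ hy)⟩
    · obtain ⟨v', hv', rfl⟩ := Finset.mem_image.1 (Finsupp.mapDomain_support h)
      exact ⟨a, v', rfl, ha, (dl_support (K := K) (one2 K) S (fun a ha b hb _ => hS a ha b hb)
        v hv v' hv').1⟩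
  have key := ODat_bijOn (K := K) fch hb (δ := dl K (one2 K)) (ℓ := fun w => w.length - 1)
    (g := fun _ => N) (δ' := dd K) (ℓ' := List.length) (g' := fun _ => N) hmaps
    (by
      rintro w ⟨⟨a, v, rfl, ha, hv⟩, hw⟩
      exact dl_fch v a) hlen (fun _ _ => rfl) N
  rw [ODat_iff_Ex, ODat_iff_Ex] at key
  rw [← key]
  have hset : ∀ k, {w | w ∈ {w : List M | w ∈ Wd S0 S ∧ w.sum = x} ∧
      (fun w : List M => w.length - 1) w = k} =
      {w | w ∈ {w : List M | w ∈ Wd S0 S ∧ w.sum = x} ∧ w.length = k + 1} := by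
    intro k
    ext w
    constructor
    · rintro ⟨⟨⟨a, v, rfl, ha, hv⟩, hw⟩, h⟩
      refine ⟨⟨⟨a, v, rfl, ha, hv⟩, hw⟩, ?_⟩
      dsimp only at h
      rw [List.length_cons] at h ⊢
      omega
    · rintro ⟨h1, h2⟩
      exact ⟨h1, by dsimp only; omega⟩
  have hEx : ∀ k, Ex K {w | w ∈ Wd S0 S ∧ w.sum = x} (dl K (one2 K)) (fun w => w.length - 1) k ↔
      Ex K {w | w ∈ Wd S0 S ∧ w.sum = x} (dl K (one2 K)) List.length (k + 1) := by
    intro k
    unfold Ex
    rw [hset, hset]
  constructor
  · intro h k hk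
    cases k with
    | zero =>
      intro V _ _ z hz _
      have h0 : z = 0 := by
        rw [← Finsupp.support_eq_empty]
        refine Finset.eq_empty_of_forall_notMem fun ω hω => ?_
        obtain ⟨⟨⟨a, v, rfl, _, _⟩, _⟩, h2⟩ := hz (Finset.mem_coe.2 hω)
        rw [List.length_cons] at h2
        omega
      exact ⟨0, Submodule.zero_mem _, by rw [map_zero, h0]⟩
    | succ k => exact (hEx k).1 (h k (by omega))
  · intro h k hk
    exact (hEx k).2 (h (k + 1) (by omega))

theorem TVX_iff (deg : M →+ ℕ) (S0 S : Set M) (j : ℕ) :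
    TVX K deg (one2 K) (one2 K) S0 S j ↔ ∀ x, deg x = j → ∀ k, k ≠ j →
      Ex K {w | w ∈ Wd S0 S ∧ w.sum = x} (dl K (one2 K)) List.length k := by
  classical
  have hself : dl0 K (one2 K) (one2 K) = (dl K (one2 K) : List M → (List M →₀ K)) :=
    funext (dl0_self K (one2 K))
  unfold TVX
  rw [hself]
  have hfil : ∀ (U : Type) [AddCommGroup U] [Module K U] (y : List M →₀ U) (x : M),
      ext K (dl K (one2 K)) U (y.filter (fun w => w.sum = x)) =
        (ext K (dl K (one2 K)) U y).filter (fun w => w.sum = x) := by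
    intro U _ _ y x
    refine kn_filter (K := K) _ U _ _ Set.univ ?_ y (fun _ _ => Set.mem_univ _)
    intro w _ w' hw'
    rw [(dl_sup _ _ hw').2]
  constructor
  · intro H x hx k hk U _ _ z hz hdz
    obtain ⟨y, hy, hyz⟩ := H U k hk z (fun w hw => by
      obtain ⟨⟨h1, h2⟩, h3⟩ := hz hw
      exact ⟨h1, h3, by unfold wdeg; rw [h2, hx]⟩) hdz
    refine ⟨y.filter (fun w => w.sum = x), ?_, ?_⟩
    · intro w hw
      have h1 := Finsupp.mem_support_iff.1 (Finset.mem_coe.1 hw)
      rw [Finsupp.filter_apply] at h1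
      by_cases h2 : w.sum = x
      · rw [if_pos h2] at h1
        obtain ⟨h3, h4, h5⟩ := hy (Finset.mem_coe.2 (Finsupp.mem_support_iff.2 h1))
        exact ⟨⟨h3, h2⟩, h4⟩
      · rw [if_neg h2] at h1
        exact absurd rfl h1
    · rw [hfil, hyz, Finsupp.filter_eq_self_iff]
      intro w hw
      exact (hz (Finset.mem_coe.2 (Finsupp.mem_support_iff.2 hw))).1.2
  · intro H U _ _ k hk z hz hdz
    have hex : ∀ x : M, ∃ y ∈ Finsupp.supported U K (Hom (Wd S0 S) List.length (wdeg deg) (k + 1) j),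
        ext K (dl K (one2 K)) U y = z.filter (fun w => w.sum = x) := by
      intro x
      by_cases hx : deg x = j
      · obtain ⟨y, hy, hyz⟩ := H x hx k hk U (z.filter (fun w => w.sum = x)) (by
          intro w hw
          have h1 := Finsupp.mem_support_iff.1 (Finset.mem_coe.1 hw)
          rw [Finsupp.filter_apply] at h1
          by_cases h2 : w.sum = x
          · rw [if_pos h2] at h1
            obtain ⟨h3, h4, h5⟩ := hz (Finset.mem_coe.2 (Finsupp.mem_support_iff.2 h1))
            exact ⟨⟨h3, h2⟩, h4⟩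
          · rw [if_neg h2] at h1
            exact absurd rfl h1) (by rw [hfil, hdz, Finsupp.filter_zero])
        refine ⟨y, fun w hw => ?_, hyz⟩
        obtain ⟨⟨h1, h2⟩, h3⟩ := hy hw
        exact ⟨h1, h3, by unfold wdeg; rw [h2, hx]⟩
      · refine ⟨0, Submodule.zero_mem _, ?_⟩
        rw [map_zero]
        symm
        rw [Finsupp.filter_eq_zero_iff]
        intro w hw
        by_contra h
        obtain ⟨h3, h4, h5⟩ := hz (Finset.mem_coe.2 (Finsupp.mem_support_iff.2 h))
        apply hx
        rw [← hw]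
        exact h5
    choose y hy hyz using hex
    refine ⟨∑ x ∈ z.support.image List.sum, y x, Submodule.sum_mem _ (fun x _ => hy x), ?_⟩
    rw [map_sum]
    refine Finsupp.ext fun w => ?_
    rw [Finsupp.finsetSum_apply]
    by_cases hw : z w = 0
    · rw [hw]
      refine Finset.sum_eq_zero fun x _ => ?_
      rw [hyz, Finsupp.filter_apply, hw, ite_self]
    · rw [Finset.sum_eq_single w.sum]
      · rw [hyz, Finsupp.filter_apply, if_pos rfl]
      · intro x _ hx
        rw [hyz, Finsupp.filter_apply, if_neg (fun h => hx h.symm)]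
      · intro h
        exact absurd (Finset.mem_image.2 ⟨w, Finsupp.mem_support_iff.2 hw, rfl⟩) h

end MP7ea278
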